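import Pool.Agent.MP_42957e_ag.Defs

set_option autoImplicit false

namespace Pool.Agent.MP_42957e_ag

open MvPolynomial Filter Topology Asymptotics
open scoped ComplexConjugate

abbrev V : Type := Fin 3 → ℂ
abbrev CP : Type := MvPolynomial (Fin 3) ℂ

/-- conjugate polynomial -/
noncomputable def cj (q : CP) : CP := map (starRingEnd ℂ) q

/-- directional derivative of `q` at `p` along `e` -/
noncomputable def dv (q : CP) (p e : V) : ℂ := ∑ i, eval p (pderiv i q) * e i

/-- projectively real vectors -/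
def Re3 (p : V) : Prop := ∀ i j, (p i * conj (p j)).im = 0

def ofR (v : Fin 3 → ℝ) : V := fun i => (v i : ℂ)

/-- linear form with coefficient vector `a` -/
noncomputable def lf (a : V) : CP := ∑ i, C (a i) * X i

/-- the curve `F = 0` is nonsingular -/
def NSg (F : CP) : Prop := ∀ p : V, p ≠ 0 → eval p F = 0 → ∃ e, dv F p e ≠ 0

/-- `K = 0` meets `F = 0` in real points only -/
def Tot (F K : CP) : Prop := ∀ p : V, p ≠ 0 → eval p F = 0 → eval p K = 0 → Re3 p

@[simp] theorem cj_add (p q : CP) : cj (p + q) = cj p + cj q := by simp [cj]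
@[simp] theorem cj_sub (p q : CP) : cj (p - q) = cj p - cj q := by simp [cj]
@[simp] theorem cj_mul (p q : CP) : cj (p * q) = cj p * cj q := by simp [cj]
@[simp] theorem cj_pow (p : CP) (n : ℕ) : cj (p ^ n) = cj p ^ n := by simp [cj]
@[simp] theorem cj_C (a : ℂ) : cj (C a) = C (conj a) := by simp [cj]
@[simp] theorem cj_X (i : Fin 3) : cj (X i) = X i := by simp [cj]
@[simp] theorem cj_zero : cj 0 = 0 := by simp [cj]
theorem cj_sum {ι : Type*} (s : Finset ι) (f : ι → CP) : cj (∑ i ∈ s, f i) = ∑ i ∈ s, cj (f i) := by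
  simp [cj]

@[simp] theorem cj_cj (q : CP) : cj (cj q) = q := by
  induction q using MvPolynomial.induction_on with
  | C a => simp
  | add p q hp hq => simp [hp, hq]
  | mul_X p i hp => simp [hp]

theorem cj_hom {q : CP} {n : ℕ} (h : q.IsHomogeneous n) : (cj q).IsHomogeneous n := h.map _

theorem eval_cj (q : CP) (p : V) : eval p (cj q) = conj (eval (star p) q) := by
  induction q using MvPolynomial.induction_on with
  | C a => simp
  | add p q hp hq => simp [hp, hq]
  | mul_X p i hp => simp [hp]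

theorem eval_star (q : CP) (p : V) : eval (star p) q = conj (eval p (cj q)) := by
  rw [eval_cj, Complex.conj_conj]

@[simp] theorem star_ofR (v : Fin 3 → ℝ) : star (ofR v) = ofR v := by
  ext i; simp [ofR]

@[simp] theorem ofR_apply (v : Fin 3 → ℝ) (i : Fin 3) : ofR v i = (v i : ℂ) := rfl

theorem eval_cj_ofR (q : CP) (v : Fin 3 → ℝ) : eval (ofR v) (cj q) = conj (eval (ofR v) q) := by
  rw [eval_cj, star_ofR]

theorem continuous_ofR : Continuous ofR := by
  unfold ofR; fun_prop

theorem eval_lf (a p : V) : eval p (lf a) = a 0 * p 0 + a 1 * p 1 + a 2 * p 2 := by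
  simp [lf, Fin.sum_univ_three]

theorem lf_hom (a : V) : (lf a).IsHomogeneous 1 :=
  IsHomogeneous.sum _ _ _ fun i _ => by
    simpa using (isHomogeneous_C _ (a i)).mul (isHomogeneous_X ℂ i)

theorem cj_lf (a : V) : cj (lf a) = lf (star a) := by
  simp [lf, cj_sum]

@[simp] theorem dv_add (q r : CP) (p e : V) : dv (q + r) p e = dv q p e + dv r p e := by
  simp [dv, add_mul, Finset.sum_add_distrib]

@[simp] theorem dv_sub (q r : CP) (p e : V) : dv (q - r) p e = dv q p e - dv r p e := by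
  simp [dv, sub_mul, Finset.sum_sub_distrib]

@[simp] theorem dv_mul (q r : CP) (p e : V) :
    dv (q * r) p e = dv q p e * eval p r + eval p q * dv r p e := by
  simp only [dv, Derivation.leibniz, smul_eq_mul, map_add, map_mul, Fin.sum_univ_three]; ring

@[simp] theorem dv_C (a : ℂ) (p e : V) : dv (C a) p e = 0 := by simp [dv]

@[simp] theorem dv_X (i : Fin 3) (p e : V) : dv (X i) p e = e i := by
  simp [dv, pderiv_X, Pi.single_apply]

@[simp] theorem dv_pow (q : CP) (n : ℕ) (p e : V) :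
    dv (q ^ n) p e = n * eval p q ^ (n - 1) * dv q p e := by
  simp only [dv, Derivation.leibniz_pow, smul_eq_mul, nsmul_eq_mul, map_mul, map_natCast,
    map_pow, Fin.sum_univ_three]
  ring

theorem dv_lf (a p e : V) : dv (lf a) p e = eval e (lf a) := by
  rw [eval_lf]; simp [lf, Fin.sum_univ_three]

theorem dv_add_right (q : CP) (p e e' : V) : dv q p (e + e') = dv q p e + dv q p e' := by
  simp [dv, mul_add, Finset.sum_add_distrib]

theorem dv_sub_right (q : CP) (p e e' : V) : dv q p (e - e') = dv q p e - dv q p e' := by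
  simp [dv, mul_sub, Finset.sum_sub_distrib]

theorem dv_smul_right (q : CP) (p e : V) (c : ℂ) : dv q p (c • e) = c * dv q p e := by
  simp only [dv, Pi.smul_apply, smul_eq_mul, Fin.sum_univ_three]; ring

theorem dv_cj (q : CP) (p e : V) : dv (cj q) p e = conj (dv q (star p) (star e)) := by
  simp only [dv, map_sum, map_mul, Pi.star_apply, Complex.star_def, Complex.conj_conj]
  refine Finset.sum_congr rfl fun i _ => ?_
  rw [← eval_cj, cj, cj, pderiv_map]

/-- the derivative as a continuous linear map -/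
noncomputable def dvL (q : CP) (p : V) : V →L[ℂ] ℂ :=
  ∑ i, eval p (pderiv i q) • ContinuousLinearMap.proj (R := ℂ) (φ := fun _ : Fin 3 => ℂ) i

@[simp] theorem dvL_apply (q : CP) (p e : V) : dvL q p e = dv q p e := by
  simp [dvL, dv]

theorem hasStrictFDerivAt_eval (q : CP) (p : V) :
    HasStrictFDerivAt (fun x : V => eval x q) (dvL q p) p := by
  induction q using MvPolynomial.induction_on with
  | C a =>
    have : dvL (C a) p = 0 := by ext e; simp
    simpa [this] using hasStrictFDerivAt_const a p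
  | add q r hq hr =>
    have : dvL (q + r) p = dvL q p + dvL r p := by ext e; simp
    simp only [this, map_add]
    exact hq.add hr
  | mul_X q i hq =>
    have h := hq.mul (hasStrictFDerivAt_apply (𝕜 := ℂ) i p)
    have : dvL (q * X i) p = eval p q • ContinuousLinearMap.proj (R := ℂ)
        (φ := fun _ : Fin 3 => ℂ) i + p i • dvL q p := by
      ext e; simp; ring
    simp only [this, map_mul, eval_X]
    exact h

theorem contDiff_eval (q : CP) {n : WithTop ℕ∞} : ContDiff ℂ n (fun x : V => eval x q) :=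
  (AnalyticOnNhd.eval_mvPolynomial q).contDiff

@[fun_prop] theorem continuous_evalV (q : CP) : Continuous (fun x : V => eval x q) :=
  (contDiff_eval q (n := 0)).continuous

@[fun_prop] theorem differentiable_evalV (q : CP) : Differentiable ℂ (fun x : V => eval x q) :=
  fun p => (hasStrictFDerivAt_eval q p).differentiableAt

@[fun_prop] theorem continuous_dv (q : CP) (e : V) : Continuous (fun x : V => dv q x e) := by
  unfold dv; fun_prop

theorem tendsto_eval {ι : Type*} {l : Filter ι} {p : ι → V} {p0 : V} (h : Tendsto p l (𝓝 p0))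
    (q : CP) : Tendsto (fun i => eval (p i) q) l (𝓝 (eval p0 q)) :=
  ((continuous_evalV q).tendsto p0).comp h

theorem tendsto_dv {ι : Type*} {l : Filter ι} {p : ι → V} {p0 : V} (h : Tendsto p l (𝓝 p0))
    (q : CP) (e : V) : Tendsto (fun i => dv q (p i) e) l (𝓝 (dv q p0 e)) :=
  ((continuous_dv q e).tendsto p0).comp h

theorem hasDerivAt_eval (q : CP) {g : ℂ → V} {g' : V} {t : ℂ} (h : HasDerivAt g g' t) :
    HasDerivAt (fun t => eval (g t) q) (dv q (g t) g') t := by
  rw [← dvL_apply]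
  exact (hasStrictFDerivAt_eval q (g t)).hasFDerivAt.comp_hasDerivAt t h

theorem eval_smul_hom {q : CP} {n : ℕ} (h : q.IsHomogeneous n) (c : ℂ) (p : V) :
    eval (c • p) q = c ^ n * eval p q := by
  rw [eval_eq', eval_eq', Finset.mul_sum]
  refine Finset.sum_congr rfl fun m hm => ?_
  have := h (mem_support_iff.1 hm)
  rw [← this, Finsupp.weight_apply, Finsupp.sum_fintype _ _ (by simp)]
  simp only [Pi.smul_apply, smul_eq_mul, mul_pow, Fin.prod_univ_three, Fin.sum_univ_three,
    Pi.one_apply, mul_one, pow_add]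
  ring

theorem dv_smul_hom {q : CP} {n : ℕ} (h : q.IsHomogeneous n) (c : ℂ) (p e : V) :
    dv q (c • p) e = c ^ (n - 1) * dv q p e := by
  simp only [dv, eval_smul_hom h.pderiv, Fin.sum_univ_three]; ring

theorem euler {q : CP} {n : ℕ} (h : q.IsHomogeneous n) (p : V) : dv q p p = n * eval p q := by
  have := congrArg (eval p) h.sum_X_mul_pderiv
  simp only [map_sum, map_mul, eval_X, nsmul_eq_mul, map_natCast] at this
  rw [← this, dv]
  exact Finset.sum_congr rfl fun i _ => mul_comm _ _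

/-- first order expansion of differences -/
theorem diff_isLittleO {ι : Type*} {l : Filter ι} {p p' : ι → V} {p0 : V}
    (h : Tendsto p l (𝓝 p0)) (h' : Tendsto p' l (𝓝 p0)) (q : CP) :
    (fun i => eval (p i) q - eval (p' i) q - dv q p0 (p i - p' i)) =o[l] fun i => p i - p' i := by
  have := (hasStrictFDerivAt_eval q p0).isLittleO.comp_tendsto (h.prodMk_nhds h')
  simp only [Function.comp_def, dvL_apply] at this
  exact this

theorem diff_isBigO {ι : Type*} {l : Filter ι} {p p' : ι → V} {p0 : V}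
    (h : Tendsto p l (𝓝 p0)) (h' : Tendsto p' l (𝓝 p0)) (q : CP) :
    (fun i => eval (p i) q - eval (p' i) q) =O[l] fun i => p i - p' i := by
  have := (hasStrictFDerivAt_eval q p0).isBigO_sub.comp_tendsto (h.prodMk_nhds h')
  simp only [Function.comp_def] at this
  exact this

/-- three jointly injective functionals control the vector -/
theorem isBigO_of_inj {ι : Type*} {l : Filter ι} {E : Type*} [NormedAddCommGroup E] {v : ι → V}
    {r : ι → E} (A B D : V →L[ℂ] ℂ) (hinj : ∀ x, A x = 0 → B x = 0 → D x = 0 → x = 0)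
    {a b d : ι → ℂ} (ha : a =O[l] r) (hb : b =O[l] r) (hd : d =O[l] r)
    (hA : (fun i => a i - A (v i)) =o[l] v) (hB : (fun i => b i - B (v i)) =o[l] v)
    (hD : (fun i => d i - D (v i)) =o[l] v) : v =O[l] r := by
  set L : V →L[ℂ] ℂ × ℂ × ℂ := A.prod (B.prod D)
  obtain ⟨K, -, hK⟩ := LinearMap.exists_antilipschitzWith (L : V →ₗ[ℂ] ℂ × ℂ × ℂ)
    (LinearMap.ker_eq_bot'.2 fun x hx => by
      have hx' : (A x, B x, D x) = 0 := hx
      simp only [Prod.mk_eq_zero] at hx'
      exact hinj x hx'.1 hx'.2.1 hx'.2.2)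
  have h1 : v =O[l] fun i => L (v i) :=
    IsBigO.of_bound K (Eventually.of_forall fun i => by simpa using hK.le_mul_dist (v i) 0)
  have h2 : (fun i => ((a i, b i, d i) : ℂ × ℂ × ℂ) - L (v i)) =o[l] v :=
    hA.prod_left (hB.prod_left hD)
  have h3 : (fun i => ((a i, b i, d i) : ℂ × ℂ × ℂ)) =O[l] r := ha.prod_left (hb.prod_left hd)
  have h4 := (h2.trans_isBigO h1).right_isBigO_add
  simp only [sub_add_cancel] at h4
  exact h1.trans (h4.trans h3)

theorem eventually_eq_zero_of_inj {ι : Type*} {l : Filter ι} {v : ι → V}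
    (A B D : V →L[ℂ] ℂ) (hinj : ∀ x, A x = 0 → B x = 0 → D x = 0 → x = 0)
    (hA : (fun i => A (v i)) =o[l] v) (hB : (fun i => B (v i)) =o[l] v)
    (hD : (fun i => D (v i)) =o[l] v) : ∀ᶠ i in l, v i = 0 := by
  have := isBigO_of_inj (r := fun _ : ι => (0 : ℝ)) (a := fun _ => 0) (b := fun _ => 0)
    (d := fun _ => 0) A B D hinj (isBigO_zero _ _) (isBigO_zero _ _) (isBigO_zero _ _)
    (by simpa using hA) (by simpa using hB) (by simpa using hD)
  exact isBigO_zero_right_iff.1 this

theorem exists_dual (A B D : V →L[ℂ] ℂ) (hinj : ∀ x, A x = 0 → B x = 0 → D x = 0 → x = 0)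
    (a b d : ℂ) : ∃ x, A x = a ∧ B x = b ∧ D x = d := by
  set L : V →ₗ[ℂ] V := LinearMap.pi ![(A : V →ₗ[ℂ] ℂ), B, D]
  have hi : Function.Injective L := LinearMap.ker_eq_bot.1 (LinearMap.ker_eq_bot'.2 fun x hx =>
    hinj x (congrFun hx 0) (congrFun hx 1) (congrFun hx 2))
  obtain ⟨x, hx⟩ := LinearMap.injective_iff_surjective.1 hi ![a, b, d]
  exact ⟨x, congrFun hx 0, congrFun hx 1, congrFun hx 2⟩

theorem re3_ofR (v : Fin 3 → ℝ) : Re3 (ofR v) := fun i j => by simp

theorem Re3.smul {p : V} (h : Re3 p) (c : ℂ) : Re3 (c • p) := fun i j => by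
  have : (c • p) i * conj ((c • p) j) = (Complex.normSq c : ℂ) * (p i * conj (p j)) := by
    simp only [Pi.smul_apply, smul_eq_mul, map_mul, Complex.normSq_eq_conj_mul_self]; ring
  rw [this, Complex.im_ofReal_mul, h i j, mul_zero]

theorem re3_smul_iff {p : V} {c : ℂ} (hc : c ≠ 0) : Re3 (c • p) ↔ Re3 p :=
  ⟨fun h => by simpa [hc] using h.smul c⁻¹, fun h => h.smul c⟩

theorem Re3.star {p : V} (h : Re3 p) : Re3 (star p) := fun i j => by
  have := h j i
  simpa [mul_comm] using this

theorem re3_of_star_eq {p : V} (h : star p = p) : Re3 p := fun i j => by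
  have h1 : (p i).im = 0 := Complex.conj_eq_iff_im.1 (congrFun h i)
  have h2 : (p j).im = 0 := Complex.conj_eq_iff_im.1 (congrFun h j)
  simp [h1, h2]

theorem isClosed_re3 : IsClosed {p : V | Re3 p} := by
  simp only [Re3, Set.ofPred_forall]
  exact isClosed_iInter fun i => isClosed_iInter fun j => isClosed_eq (by fun_prop) continuous_const

theorem Re3.eq_ofR {p : V} (h : Re3 p) {k : Fin 3} (hk : p k = 1) :
    p = ofR fun i => (p i).re := by
  ext i
  have := h i k
  simp only [hk, map_one, mul_one] at this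
  exact Complex.ext (by simp) (by simp [this])

theorem Re3.exists_ofR {p : V} (h : Re3 p) (hp : p ≠ 0) :
    ∃ (c : ℂ) (v : Fin 3 → ℝ), c ≠ 0 ∧ p = c • ofR v := by
  obtain ⟨k, hk⟩ := Function.ne_iff.1 hp
  have hk' : p k ≠ 0 := hk
  refine ⟨p k, fun i => (((p k)⁻¹ • p) i).re, hk', ?_⟩
  rw [← (h.smul (p k)⁻¹).eq_ofR (k := k) (by simp [hk']), smul_smul, mul_inv_cancel₀ hk', one_smul]

/-- compactness of the projective plane: a scale invariant property that holds for arbitrarily
small `s` holds along a filter on which the points converge to a nonzero vector. -/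
theorem eventually_forall_of_local (Q : ℝ → V → Prop)
    (hs : ∀ s p (c : ℂ), c ≠ 0 → Q s p → Q s (c • p))
    (h : ∀ (l : Filter (ℝ × V)) [l.NeBot] (p0 : V), p0 ≠ 0 →
      Tendsto Prod.fst l (𝓝[>] 0) → Tendsto Prod.snd l (𝓝 p0) → (∀ᶠ x in l, Q x.1 x.2) → False) :
    ∀ᶠ s in 𝓝[>] (0 : ℝ), ∀ p, p ≠ 0 → ¬ Q s p := by
  have key : ∀ᶠ s in 𝓝 (0 : ℝ), ∀ p ∈ Metric.sphere (0 : V) 1, 0 < s → ¬ Q s p := by
    refine (isCompact_sphere _ _).eventually_forall_of_forall_eventually fun p0 hp0 => ?_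
    by_contra hn
    have hne : (𝓝 ((0 : ℝ), p0) ⊓ 𝓟 {x | 0 < x.1 ∧ Q x.1 x.2}).NeBot := by
      refine frequently_iff_neBot.1 fun hc => hn (hc.mono fun x hx h1 h2 => hx ⟨h1, h2⟩)
    refine h (𝓝 ((0 : ℝ), p0) ⊓ 𝓟 {x | 0 < x.1 ∧ Q x.1 x.2}) p0 ?_ ?_ ?_ ?_
    · rintro rfl; simp at hp0
    · refine tendsto_nhdsWithin_iff.2 ⟨(continuous_fst.tendsto _).mono_left inf_le_left, ?_⟩
      exact mem_inf_of_right fun x hx => hx.1
    · exact (continuous_snd.tendsto _).mono_left inf_le_left
    · exact mem_inf_of_right fun x hx => hx.2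
  filter_upwards [nhdsWithin_le_nhds key, self_mem_nhdsWithin] with s h1 h2 p hp hQ
  have hn : (‖p‖ : ℂ) ≠ 0 := by simpa using hp
  refine h1 ((‖p‖ : ℂ)⁻¹ • p) ?_ h2 (hs _ _ _ (inv_ne_zero hn) hQ)
  simp [norm_smul, hp]

/-- a two by two linear system with convergent coefficients and invertible limit -/
theorem tendsto_solve {ι : Type*} {l : Filter ι} {a b α β γ δ ρ σ : ι → ℂ}
    {α0 β0 γ0 δ0 ρ0 σ0 : ℂ} (hα : Tendsto α l (𝓝 α0)) (hβ : Tendsto β l (𝓝 β0))
    (hγ : Tendsto γ l (𝓝 γ0)) (hδ : Tendsto δ l (𝓝 δ0)) (hρ : Tendsto ρ l (𝓝 ρ0))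
    (hσ : Tendsto σ l (𝓝 σ0)) (hdet : α0 * δ0 - β0 * γ0 ≠ 0)
    (h1 : ∀ᶠ i in l, α i * a i + β i * b i = ρ i) (h2 : ∀ᶠ i in l, γ i * a i + δ i * b i = σ i) :
    ∃ a0 b0, Tendsto a l (𝓝 a0) ∧ Tendsto b l (𝓝 b0) := by
  have hd := (hα.mul hδ).sub (hβ.mul hγ)
  refine ⟨_, _, (((hρ.mul hδ).sub (hβ.mul hσ)).div hd hdet).congr' ?_,
    (((hα.mul hσ).sub (hρ.mul hγ)).div hd hdet).congr' ?_⟩
  · filter_upwards [h1, h2, hd.eventually_ne hdet] with i e1 e2 e3
    simp only [Pi.div_apply]
    rw [div_eq_iff e3, ← e1, ← e2]; ring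
  · filter_upwards [h1, h2, hd.eventually_ne hdet] with i e1 e2 e3
    simp only [Pi.div_apply]
    rw [div_eq_iff e3, ← e1, ← e2]; ring

end Pool.Agent.MP_42957e_ag
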