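import Pool.Agent.MP_42957e_ag.Lim

set_option autoImplicit false

namespace Pool.Agent.MP_42957e_ag

open MvPolynomial Filter Topology Asymptotics
open scoped ComplexConjugate

theorem CB_form {A : Fam} {c : Arr} (hc : Supp 3 0 c) {κ : ℂ}
    (hκ : ∀ τ, eval (A.x τ) (frm 3 0 c) = κ * eval (A.x τ) A.ψ) :
    frm 3 0 c = C κ * A.ψ + C (conj κ) * A.φ := by
  obtain ⟨c1, h1, h2⟩ := exists_frm (Q := C κ * A.ψ + C (conj κ) * A.φ)
    ((A.ψ_hom.C_mul _).add (A.φ_hom.C_mul _)) (by norm_num) (by simp [add_comm])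
  have h3 := A.inj_frm (hc.sub h1) fun τ => by
    rw [frm_sub, h2, map_sub, hκ]
    simp [A.φ_x τ]
  rw [← h2, sub_eq_zero.1 h3]

theorem CB_local {A : Fam} {ι : Type} {𝒰 : Ultrafilter ι} (S : Seq A ι 𝒰) (j : Fin 9) :
    ∃ ε : ℂ, ‖ε‖ = √A.η ∧ Tendsto (fun i => eval (ofR (S.N j i)) A.φ / (S.s i : ℂ)) 𝒰
      (𝓝 (ε - eval (ofR (A.P j)) A.W)) := by
  have hp : Tendsto (fun i => ofR (S.N j i)) 𝒰 (𝓝 (ofR (A.P j))) :=
    (continuous_ofR.tendsto _).comp (S.hN j)
  have hs : ∀ᶠ i in 𝒰, (S.s i : ℂ) ≠ 0 :=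
    (S.hs.eventually self_mem_nhdsWithin).mono fun i hi => Complex.ofReal_ne_zero.2 (ne_of_gt hi)
  set u : ι → ℂ := fun i => eval (ofR (S.N j i)) (A.φt (S.s i)) / (S.s i : ℂ) with hu
  have h1 : Tendsto (fun i => u i * conj (u i)) 𝒰 (𝓝 (A.η : ℂ)) := by
    rw [← A.T_P j]
    refine (tendsto_eval hp A.T).congr' ?_
    filter_upwards [hs, S.N2 j] with i h1 h2
    have h3 := A.mul_eval_F (S.s i) (ofR (S.N j i))
    rw [h2.2.1, mul_zero, ← A.cj_φt, eval_cj_ofR] at h3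
    simp only [hu, map_div₀, Complex.conj_ofReal]
    field_simp
    linear_combination h3
  have h2 : ∀ᶠ i in 𝒰, u i ∈ Metric.closedBall (0 : ℂ) (‖(A.η : ℂ)‖ + 2) := by
    filter_upwards [h1.norm.eventually (gt_mem_nhds (lt_add_one _))] with i hi
    rw [norm_mul, Complex.norm_conj] at hi
    rw [mem_closedBall_zero_iff]
    nlinarith [norm_nonneg (u i), norm_nonneg (A.η : ℂ), sq_nonneg (‖u i‖ - 1)]
  obtain ⟨ε, -, h3⟩ := (isCompact_closedBall (0 : ℂ) _).ultrafilter_le_nhds (𝒰.map u)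
    (le_principal_iff.2 h2)
  have h4 : Tendsto u 𝒰 (𝓝 ε) := h3
  have h5 : ε * conj ε = A.η :=
    tendsto_nhds_unique (h4.mul ((Complex.continuous_conj.tendsto _).comp h4)) h1
  refine ⟨ε, ?_, (h4.sub (tendsto_eval hp A.W)).congr' ?_⟩
  · rw [Complex.mul_conj, Complex.ofReal_inj, Complex.normSq_eq_norm_sq] at h5
    rw [← h5, Real.sqrt_sq (norm_nonneg _)]
  · filter_upwards [hs, S.N2 j] with i h1 h2
    simp only [hu, A.eval_φt, ofR_apply, h2.1, Complex.ofReal_one]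
    field_simp
    ring

theorem CB_isBigO {A : Fam} {ι : Type} {𝒰 : Ultrafilter ι} (S : Seq A ι 𝒰) (j : Fin 9) :
    (fun i => ofR (S.N j i) - ofR (A.P j)) =O[𝒰] fun i => (S.s i : ℂ) := by
  have hp : Tendsto (fun i => ofR (S.N j i)) 𝒰 (𝓝 (ofR (A.P j))) :=
    (continuous_ofR.tendsto _).comp (S.hN j)
  have hs : ∀ᶠ i in 𝒰, (S.s i : ℂ) ≠ 0 :=
    (S.hs.eventually self_mem_nhdsWithin).mono fun i hi => Complex.ofReal_ne_zero.2 (ne_of_gt hi)
  obtain ⟨ε, -, h⟩ := CB_local S j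
  have h1 : (fun i => eval (ofR (S.N j i)) A.φ) =O[𝒰] fun i => (S.s i : ℂ) :=
    isBigO_of_div_tendsto_nhds (hs.mono fun i hi h => absurd h hi) _ h
  have h2 : (fun i => eval (ofR (S.N j i)) A.ψ) =O[𝒰] fun i => (S.s i : ℂ) := by
    refine IsBigO.of_norm_left ?_
    simp only [eval_cj_ofR, Complex.norm_conj]
    exact h1.norm_left
  refine isBigO_of_inj (a := fun _ => 0) (ContinuousLinearMap.proj 2) (dvL A.φ (ofR (A.P j)))
    (dvL A.ψ (ofR (A.P j))) (fun x a b c => A.inj_P j x a (by rwa [dvL_apply] at b)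
      (by rwa [dvL_apply] at c)) (isBigO_zero _ _) h1 h2 ?_ ?_ ?_
  · refine (isLittleO_zero _ _).congr' ?_ EventuallyEq.rfl
    filter_upwards [S.N2 j] with i hi
    simp [hi.1, A.P2]
  · have := diff_isLittleO hp tendsto_const_nhds A.φ
    simp only [A.φ_P j, sub_zero] at this
    simpa only [dvL_apply] using this
  · have := diff_isLittleO hp tendsto_const_nhds A.ψ
    simp only [A.ψ_P j, sub_zero] at this
    simpa only [dvL_apply] using this

theorem Seq.cb {A : Fam} {ι : Type} {𝒰 : Ultrafilter ι} (S : Seq A ι 𝒰) (hd : S.d = 3)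
    {κ : ℂ} (h0 : κ ≠ 0) (hκ : ∀ τ, eval (A.x τ) (frm S.d 0 S.c0) = κ * eval (A.x τ) A.ψ) :
    False := by
  have hs0 := S.supp0
  have hs1 := S.supp
  have him := S.im
  have hN2 := S.N2
  rw [hd] at hs0 hs1 him hN2 hκ
  have hK := CB_form hs0 hκ
  have hr : conj κ * eval (ofR (A.P 8)) A.W = κ * conj (eval (ofR (A.P 8)) A.W) := by
    have h1 : eval (A.e 2) (frm 3 0 S.c0) * conj (eval (A.e 2) A.ψ * eval (ofR (A.P 8)) A.W) =
        (Complex.normSq (eval (A.e 2) A.ψ) : ℂ) * (κ * conj (eval (ofR (A.P 8)) A.W)) := by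
      rw [hK, ← Complex.mul_conj]
      simp only [map_add, map_mul, eval_C, A.φ_e]
      ring
    rw [h1, Complex.im_ofReal_mul] at him
    have h2 := Complex.conj_eq_iff_im.2
      ((mul_eq_zero.1 him).resolve_left (Complex.normSq_pos.2 A.ψe).ne')
    rwa [map_mul, Complex.conj_conj] at h2
  choose ε hε hb using CB_local S
  have hc : Tendsto (fun i => S.c i - S.c0) 𝒰 (𝓝 0) := by
    simpa using S.hc.sub_const S.c0
  have h1 : ∀ j, Tendsto (fun i => (eval (ofR (S.N j i)) (frm 3 0 (S.c i - S.c0)) -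
      eval (ofR (A.P j)) (frm 3 0 (S.c i - S.c0))) / (S.s i : ℂ)) 𝒰 (𝓝 0) := fun j =>
    ((frm_diff_isLittleO ((continuous_ofR.tendsto _).comp (S.hN j)) tendsto_const_nhds hc 3
      0).trans_isBigO (CB_isBigO S j)).tendsto_div_nhds_zero
  have h2 := tendsto_finsetSum Finset.univ fun j _ => (h1 j).const_mul (A.ρ j)
  have h3 := (tendsto_finsetSum Finset.univ fun j _ =>
    (((((Complex.continuous_conj.tendsto _).comp (hb j)).const_mul κ).add
      ((hb j).const_mul (conj κ))).const_mul (A.ρ j))).neg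
  have h4 := tendsto_nhds_unique_of_eventuallyEq h2 h3 (by
    filter_upwards [eventually_all.2 hN2] with i hi
    have e1 := A.cb _ (frm_hom ((hs1 i).sub hs0))
    simp only [← mul_div_assoc, mul_sub, sub_div, Finset.sum_sub_distrib, ← Finset.sum_div, e1,
      zero_div, sub_zero]
    rw [Finset.sum_div, ← Finset.sum_neg_distrib]
    refine Finset.sum_congr rfl fun j _ => ?_
    rw [frm_sub, map_sub, (hi j).2.2, hK]
    simp only [Function.comp_apply, map_add, map_mul, eval_C, eval_cj_ofR, map_div₀,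
      Complex.conj_ofReal]
    ring)
  have h5 : ∑ j, A.ρ j * (κ * conj (ε j) + conj κ * ε j) =
      2 * (A.ρ 8 * (conj κ * eval (ofR (A.P 8)) A.W)) := by
    have e1 : ∑ j, A.ρ j * (κ * conj (eval (ofR (A.P j)) A.W) + conj κ * eval (ofR (A.P j)) A.W) =
        2 * (A.ρ 8 * (conj κ * eval (ofR (A.P 8)) A.W)) := by
      rw [Finset.sum_eq_single 8 (fun j _ hj => by simp [A.WP j hj]) (by simp), ← hr]
      ring
    simp only [mul_zero, Finset.sum_const_zero, zero_eq_neg] at h4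
    rw [← e1, ← sub_eq_zero, ← Finset.sum_sub_distrib, ← h4]
    refine Finset.sum_congr rfl fun j _ => ?_
    rw [map_sub]
    ring
  have h6 : ‖∑ j, A.ρ j * (κ * conj (ε j) + conj κ * ε j)‖ ≤ ∑ j, ‖A.ρ j‖ * (2 * ‖κ‖ * √A.η) := by
    refine norm_sum_le_of_le _ fun j _ => ?_
    rw [norm_mul]
    refine mul_le_mul_of_nonneg_left ((norm_add_le _ _).trans (le_of_eq ?_)) (norm_nonneg _)
    simp only [norm_mul, Complex.norm_conj, hε]
    ring
  rw [h5, ← Finset.sum_mul] at h6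
  simp only [norm_mul, Complex.norm_conj, Complex.norm_ofNat] at h6
  nlinarith [mul_lt_mul_of_pos_left A.η_lt (norm_pos_iff.2 h0)]

end Pool.Agent.MP_42957e_ag
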