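import Pool.Agent.MP_42957e_ag.Data

set_option autoImplicit false

namespace Pool.Agent.MP_42957e_ag

open MvPolynomial Filter Topology Asymptotics
open scoped ComplexConjugate

theorem Curve_param {f : ℂ × ℂ → ℂ} (hf : ContDiff ℂ 1 f) {q : ℂ × ℂ} (h0 : f q = 0)
    (h1 : fderiv ℂ f q (0, 1) ≠ 0) : ∃ g : ℂ → ℂ × ℂ, AnalyticAt ℂ g 0 ∧ g 0 = q ∧
      (∀ᶠ t in 𝓝 (0 : ℂ), f (g t) = 0) ∧ ∀ᶠ t in 𝓝 (0 : ℂ), (g t).1 = q.1 + t := by
  let A : ℂ × ℂ →L[ℂ] ℂ × ℂ := (ContinuousLinearMap.fst ℂ ℂ ℂ).prod (fderiv ℂ f q)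
  have hinj : Function.Injective A.toLinearMap := by
    rw [injective_iff_map_eq_zero]
    rintro ⟨u, v⟩ h
    have h2 : (u, fderiv ℂ f q (u, v)) = 0 := h
    rw [Prod.mk_eq_zero] at h2
    obtain ⟨rfl, h3⟩ := h2
    have h4 : ((0 : ℂ), v) = v • ((0 : ℂ), (1 : ℂ)) := by simp
    rw [h4, map_smul, smul_eq_mul, mul_eq_zero] at h3
    rw [h3.resolve_right h1]
    rfl
  let e : (ℂ × ℂ) ≃L[ℂ] ℂ × ℂ :=
    (LinearEquiv.ofInjectiveEndo A.toLinearMap hinj).toContinuousLinearEquiv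
  have he : (e : ℂ × ℂ →L[ℂ] ℂ × ℂ) = A := ContinuousLinearMap.ext fun _ => rfl
  let P : ℂ × ℂ → ℂ × ℂ := fun p => (p.1, f p)
  have hP : ContDiffAt ℂ 1 P q := (contDiff_fst.prodMk hf).contDiffAt
  have hP' : HasFDerivAt P (e : ℂ × ℂ →L[ℂ] ℂ × ℂ) q := by
    rw [he]
    exact hasFDerivAt_fst.prodMk (hf.differentiable one_ne_zero q).hasFDerivAt
  have hPq : P q = (q.1 + 0, 0) := by simp [P, h0]
  have hl : ContDiff ℂ 1 fun t : ℂ => ((q.1 + t, 0) : ℂ × ℂ) :=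
    (contDiff_const.add contDiff_id).prodMk contDiff_const
  have hr : ∀ᶠ t in 𝓝 (0 : ℂ), P (hP.localInverse hP' one_ne_zero (q.1 + t, 0)) = (q.1 + t, 0) := by
    have h2 := (hP.hasStrictFDerivAt' hP' one_ne_zero).eventually_right_inverse
    rw [hPq] at h2
    exact (hl.continuous.tendsto 0).eventually h2
  refine ⟨fun t => hP.localInverse hP' one_ne_zero (q.1 + t, 0), ?_, ?_, ?_, ?_⟩
  · have h2 := hP.to_localInverse hP' one_ne_zero
    rw [hPq] at h2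
    have h3 : ContDiffAt ℂ 1 (fun t : ℂ => hP.localInverse hP' one_ne_zero (q.1 + t, 0)) 0 :=
      ContDiffAt.comp (g := hP.localInverse hP' one_ne_zero)
        (f := fun t : ℂ => ((q.1 + t, 0) : ℂ × ℂ)) 0 h2 hl.contDiffAt
    rw [Complex.analyticAt_iff_eventually_differentiableAt]
    exact (h3.eventually (by simp)).mono fun t ht => ht.differentiableAt one_ne_zero
  · have h2 := hP.localInverse_apply_image hP' one_ne_zero
    rwa [hPq] at h2
  · exact hr.mono fun t ht => congrArg Prod.snd ht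
  · exact hr.mono fun t ht => congrArg Prod.fst ht

theorem Curve_not_re : ¬ ∀ᶠ t in 𝓝 (0 : ℂ), t.re ≤ 0 := by
  intro h
  obtain ⟨ε, hε, h2⟩ := Metric.eventually_nhds_iff.mp h
  have h3 := @h2 ((ε / 2 : ℝ) : ℂ) (by
    rw [dist_zero_right, Complex.norm_real, Real.norm_of_nonneg (by linarith)]
    linarith)
  rw [Complex.ofReal_re] at h3
  linarith

theorem exists_param {f : ℂ × ℂ → ℂ} (hf : ContDiff ℂ 1 f) {q : ℂ × ℂ} (h0 : f q = 0)
    (h1 : fderiv ℂ f q ≠ 0) : ∃ g : ℂ → ℂ × ℂ, AnalyticAt ℂ g 0 ∧ g 0 = q ∧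
      (∀ᶠ t in 𝓝 (0 : ℂ), f (g t) = 0) ∧
      ((∀ᶠ t in 𝓝 (0 : ℂ), (g t).1 = q.1 + t) ∨ ∀ᶠ t in 𝓝 (0 : ℂ), (g t).2 = q.2 + t) := by
  by_cases h2 : fderiv ℂ f q (0, 1) = 0
  · have h3 : fderiv ℂ f q (1, 0) ≠ 0 := by
      intro h3
      apply h1
      refine ContinuousLinearMap.ext fun p => ?_
      have h4 : p = p.1 • ((1 : ℂ), (0 : ℂ)) + p.2 • ((0 : ℂ), (1 : ℂ)) := by simp
      rw [h4, map_add, map_smul, map_smul, h2, h3]
      simp
    have hs : ContDiff ℂ 1 fun p : ℂ × ℂ => (p.2, p.1) := contDiff_snd.prodMk contDiff_fst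
    have hd : HasFDerivAt (fun p : ℂ × ℂ => f (p.2, p.1)) ((fderiv ℂ f q).comp
        ((ContinuousLinearMap.snd ℂ ℂ ℂ).prod (ContinuousLinearMap.fst ℂ ℂ ℂ))) (q.2, q.1) :=
      HasFDerivAt.comp (g := f) (f := fun p : ℂ × ℂ => (p.2, p.1)) (q.2, q.1)
        (hf.differentiable one_ne_zero q).hasFDerivAt (hasFDerivAt_snd.prodMk hasFDerivAt_fst)
    obtain ⟨g, g1, g2, g3, g4⟩ := Curve_param (f := fun p : ℂ × ℂ => f (p.2, p.1))
      (hf.comp hs) (q := (q.2, q.1)) h0 (by rw [hd.fderiv]; exact h3)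
    refine ⟨fun t => ((g t).2, (g t).1), (analyticAt_snd.comp g1).prod (analyticAt_fst.comp g1),
      ?_, g3, Or.inr g4⟩
    simp only [g2]
  · obtain ⟨g, g1, g2, g3, g4⟩ := Curve_param hf h0 h2
    exact ⟨g, g1, g2, g3, Or.inl g4⟩

theorem exists_zero_near {Θ E : Type} [TopologicalSpace Θ] [NormedAddCommGroup E] [NormedSpace ℂ E]
    {f : Θ → E → ℂ} (hc : Continuous fun x : Θ × E => f x.1 x.2)
    (hd : ∀ σ, Differentiable ℂ (f σ)) {σ0 : Θ} {q0 : E} (h0 : f σ0 q0 = 0)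
    (hne : ∃ q, f σ0 q ≠ 0) {U : Set E} (hU : U ∈ 𝓝 q0) :
    ∀ᶠ σ in 𝓝 σ0, ∃ q ∈ U, f σ q = 0 := by
  obtain ⟨q, hq⟩ := hne
  let a : Θ → ℂ → ℂ := fun σ t => f σ (q0 + t • (q - q0))
  have hline : Differentiable ℂ fun t : ℂ => q0 + t • (q - q0) := by fun_prop
  have had : ∀ σ, Differentiable ℂ (a σ) := fun σ => (hd σ).comp hline
  have hac : Continuous fun x : Θ × ℂ => a x.1 x.2 :=
    hc.comp (continuous_fst.prodMk (hline.continuous.comp continuous_snd))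
  have ha0 : a σ0 0 = 0 := by simp only [a, zero_smul, add_zero, h0]
  have hne0 : ∀ᶠ t in 𝓝[≠] (0 : ℂ), a σ0 t ≠ 0 := by
    refine ((had σ0).analyticAt 0).eventually_eq_zero_or_eventually_ne_zero.resolve_left ?_
    intro h
    have h2 : AnalyticOnNhd ℂ (a σ0) Set.univ := fun t _ => (had σ0).analyticAt t
    have h3 := h2.eqOn_zero_of_preconnected_of_eventuallyEq_zero isPreconnected_univ
      (Set.mem_univ 0) h (Set.mem_univ 1)
    apply hq
    simpa only [a, one_smul, add_sub_cancel, Pi.zero_apply] using h3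
  have hU0 : ∀ᶠ t in 𝓝 (0 : ℂ), q0 + t • (q - q0) ∈ U := by
    apply hline.continuous.continuousAt.eventually_mem
    simpa only [zero_smul, add_zero] using hU
  rw [eventually_nhdsWithin_iff] at hne0
  obtain ⟨r, hr, hball⟩ := Metric.nhds_basis_closedBall.eventually_iff.mp (hne0.and hU0)
  have hev : ∀ᶠ σ in 𝓝 σ0, ∀ t ∈ Metric.sphere (0 : ℂ) r, ‖a σ 0‖ < ‖a σ t‖ := by
    apply (isCompact_sphere (0 : ℂ) r).eventually_forall_of_forall_eventually
    intro t ht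
    have h2 : Continuous fun x : Θ × ℂ => ‖a x.1 0‖ :=
      (hac.comp (continuous_fst.prodMk continuous_const)).norm
    apply h2.continuousAt.eventually_lt hac.norm.continuousAt
    simp only [ha0, norm_zero, norm_pos_iff]
    exact (hball (Metric.sphere_subset_closedBall ht)).1 (Metric.ne_of_mem_sphere ht hr.ne')
  refine hev.mono fun σ hσ => ?_
  by_contra hcon
  have hz : ∀ t ∈ Metric.closedBall (0 : ℂ) r, a σ t ≠ 0 :=
    fun t ht h => hcon ⟨_, (hball ht).2, h⟩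
  have hdc : DiffContOnCl ℂ (fun t => (a σ t)⁻¹) (Metric.ball (0 : ℂ) r) := by
    apply DifferentiableOn.diffContOnCl
    rw [closure_ball _ hr.ne']
    exact (had σ).differentiableOn.inv hz
  obtain ⟨z, hz1, hz2⟩ := Complex.exists_mem_frontier_isMaxOn_norm Metric.isBounded_ball
    ⟨0, Metric.mem_ball_self hr⟩ hdc
  rw [frontier_ball _ hr.ne'] at hz1
  have h2 : ‖(a σ 0)⁻¹‖ ≤ ‖(a σ z)⁻¹‖ := hz2 (subset_closure (Metric.mem_ball_self hr))
  rw [norm_inv, norm_inv] at h2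
  have h3 : 0 < ‖a σ 0‖ := norm_pos_iff.mpr (hz 0 (Metric.mem_closedBall_self hr.le))
  have h4 := hσ z hz1
  rw [inv_le_inv₀ h3 (h3.trans h4)] at h2
  linarith

theorem min_modulus {f k : ℂ × ℂ → ℂ} (hf : ContDiff ℂ 1 f) (hk : Differentiable ℂ k)
    (hns : ∀ q, f q = 0 → fderiv ℂ f q ≠ 0) {q0 q1 : ℂ × ℂ} {ρ c : ℝ}
    (hb : ∀ q ∈ Metric.sphere q0 ρ, f q = 0 → c ≤ ‖k q‖) (h1 : q1 ∈ Metric.closedBall q0 ρ)
    (hf1 : f q1 = 0) (hk1 : ‖k q1‖ < c) :
    ∃ q ∈ Metric.closedBall q0 ρ, f q = 0 ∧ k q = 0 := by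
  by_contra hcon
  let S : Set (ℂ × ℂ) := Metric.closedBall q0 ρ ∩ {q | f q = 0}
  have hS : IsCompact S :=
    (isCompact_closedBall q0 ρ).inter_right (isClosed_eq hf.continuous continuous_const)
  have hz : ∀ q ∈ S, k q ≠ 0 := fun q hq h => hcon ⟨q, hq.1, hq.2, h⟩
  obtain ⟨q2, hq2, hm2⟩ := hS.exists_isMinOn ⟨q1, h1, hf1⟩ hk.continuous.norm.continuousOn
  let M : Set (ℂ × ℂ) := S ∩ {q | ‖k q‖ = ‖k q2‖}
  have hM : IsCompact M := hS.inter_right (isClosed_eq hk.continuous.norm continuous_const)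
  have c1 : Continuous fun p : ℂ × ℂ => p.1.re := by fun_prop
  have c2 : Continuous fun p : ℂ × ℂ => p.2.re := by fun_prop
  obtain ⟨q3, hq3, hm3⟩ := hM.exists_isMaxOn ⟨q2, hq2, rfl⟩ c1.continuousOn
  let N : Set (ℂ × ℂ) := M ∩ {q | q.1.re = q3.1.re}
  have hN : IsCompact N := hM.inter_right (isClosed_eq c1 continuous_const)
  obtain ⟨q, hq, hm⟩ := hN.exists_isMaxOn ⟨q3, hq3, rfl⟩ c2.continuousOn
  have hqS : q ∈ S := hq.1.1
  have hqk : ‖k q‖ = ‖k q2‖ := hq.1.2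
  have hq1 : q.1.re = q3.1.re := hq.2
  have hqb : q ∈ Metric.ball q0 ρ := by
    rw [Metric.mem_ball]
    refine lt_of_le_of_ne hqS.1 fun h => ?_
    have h2 := hb q h hqS.2
    have h3 : ‖k q2‖ ≤ ‖k q1‖ := hm2 ⟨h1, hf1⟩
    linarith
  obtain ⟨g, g1, g2, g3, g4⟩ := exists_param hf hqS.2 (hns q hqS.2)
  have gd : ∀ᶠ t in 𝓝 (0 : ℂ), DifferentiableAt ℂ g t :=
    g1.eventually_analyticAt.mono fun t ht => ht.differentiableAt
  have gS : ∀ᶠ t in 𝓝 (0 : ℂ), g t ∈ S := by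
    have h2 : ∀ᶠ t in 𝓝 (0 : ℂ), g t ∈ Metric.ball q0 ρ := by
      apply g1.continuousAt.eventually_mem
      rw [g2]
      exact Metric.isOpen_ball.mem_nhds hqb
    filter_upwards [h2, g3] with t h3 h4 using ⟨Metric.ball_subset_closedBall h3, h4⟩
  have gM : ∀ᶠ t in 𝓝 (0 : ℂ), g t ∈ M := by
    have h2 := Complex.norm_eventually_eq_of_isLocalMax (f := fun t => (k (g t))⁻¹) (c := 0)
      (by
        filter_upwards [gd, gS] with t h3 h4
        exact ((hk (g t)).comp t h3).inv (hz _ h4))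
      (by
        filter_upwards [gS] with t h4
        have h5 : ‖k q2‖ ≤ ‖k (g t)‖ := hm2 h4
        simp only [Function.comp_def, norm_inv, g2, hqk]
        exact inv_anti₀ (norm_pos_iff.mpr (hz _ hq2)) h5)
    filter_upwards [h2, gS] with t h3 h4
    refine ⟨h4, ?_⟩
    simp only [norm_inv, g2, hqk, inv_inj] at h3
    exact h3
  apply Curve_not_re
  rcases g4 with g4 | g4
  · filter_upwards [gM, g4] with t h3 h4
    have h5 : (g t).1.re ≤ q3.1.re := hm3 h3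
    rw [h4, Complex.add_re] at h5
    linarith
  · have h2 := Complex.norm_eventually_eq_of_isLocalMax (f := fun t => Complex.exp (g t).1) (c := 0)
      (by
        filter_upwards [gd] with t h3
        exact h3.fst.cexp)
      (by
        filter_upwards [gM] with t h3
        have h5 : (g t).1.re ≤ q3.1.re := hm3 h3
        simp only [Function.comp_def, Complex.norm_exp, g2, hq1]
        exact Real.exp_le_exp.mpr h5)
    filter_upwards [gM, g4, h2] with t h3 h4 h5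
    simp only [Complex.norm_exp, g2, hq1, Real.exp_eq_exp] at h5
    have h6 : (g t).2.re ≤ q.2.re := hm ⟨h3, h5⟩
    rw [h4, Complex.add_re] at h6
    linarith

theorem persist {Θ ι : Type} [TopologicalSpace Θ] {l : Filter ι} {f k : Θ → ℂ × ℂ → ℂ}
    (hfc : Continuous fun x : Θ × (ℂ × ℂ) => f x.1 x.2)
    (hkc : Continuous fun x : Θ × (ℂ × ℂ) => k x.1 x.2)
    (hfd : ∀ σ, ContDiff ℂ 1 (f σ)) (hkd : ∀ σ, Differentiable ℂ (k σ))
    {σ : ι → Θ} {σ0 : Θ} (hσ : Tendsto σ l (𝓝 σ0))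
    (hns : ∀ᶠ i in l, ∀ q, f (σ i) q = 0 → fderiv ℂ (f (σ i)) q ≠ 0)
    {q0 : ℂ × ℂ} (hf0 : f σ0 q0 = 0) (hk0 : k σ0 q0 = 0) (hne : ∃ q, f σ0 q ≠ 0)
    (hiso : ∀ᶠ q in 𝓝[≠] q0, f σ0 q = 0 → k σ0 q ≠ 0) {U : Set (ℂ × ℂ)} (hU : U ∈ 𝓝 q0) :
    ∀ᶠ i in l, ∃ q ∈ U, f (σ i) q = 0 ∧ k (σ i) q = 0 := by
  rw [eventually_nhdsWithin_iff] at hiso
  obtain ⟨ρ, hρ, hball⟩ := Metric.nhds_basis_closedBall.eventually_iff.mp (hiso.and hU)
  have hsum : Continuous fun x : Θ × (ℂ × ℂ) => ‖f x.1 x.2‖ + ‖k x.1 x.2‖ :=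
    hfc.norm.add hkc.norm
  obtain ⟨c, hc, hc2⟩ := (isCompact_sphere q0 ρ).exists_forall_le'
    (f := fun q => ‖f σ0 q‖ + ‖k σ0 q‖) (a := 0)
    ((hfd σ0).continuous.norm.add (hkd σ0).continuous.norm).continuousOn (by
      intro q hq
      have h2 := (hball (Metric.sphere_subset_closedBall hq)).1 (Metric.ne_of_mem_sphere hq hρ.ne')
      by_cases h3 : f σ0 q = 0
      · have := norm_pos_iff.mpr (h2 h3)
        positivity
      · have := norm_pos_iff.mpr h3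
        positivity)
  have h1 : ∀ᶠ s in 𝓝 σ0, ∀ q ∈ Metric.sphere q0 ρ, c / 2 < ‖f s q‖ + ‖k s q‖ := by
    apply (isCompact_sphere q0 ρ).eventually_forall_of_forall_eventually
    intro q hq
    apply continuousAt_const.eventually_lt hsum.continuousAt
    have := hc2 q hq
    linarith
  have h2 : ∀ᶠ x in 𝓝 (σ0, q0), ‖k x.1 x.2‖ < c / 2 := by
    apply hkc.norm.continuousAt.eventually_lt continuousAt_const
    simp only [hk0, norm_zero]
    linarith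
  rw [nhds_prod_eq, eventually_prod_iff] at h2
  obtain ⟨pa, ha, pb, hb, hab⟩ := h2
  have h3 := exists_zero_near hfc (fun s => (hfd s).differentiable one_ne_zero) hf0 hne
    (inter_mem (Metric.closedBall_mem_nhds q0 hρ) hb)
  filter_upwards [hns, hσ.eventually h1, hσ.eventually ha, hσ.eventually h3] with i e1 e2 e3 e4
  obtain ⟨q1, e5, e6⟩ := e4
  obtain ⟨q, e7, e8⟩ := min_modulus (hfd _) (hkd _) e1 (q0 := q0) (ρ := ρ) (c := c / 2)
    (fun q hq h => by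
      have := e2 q hq
      rw [h, norm_zero, zero_add] at this
      exact this.le) e5.1 e6 (hab e3 e5.2)
  exact ⟨q, (hball e7).2, e8⟩

end Pool.Agent.MP_42957e_ag
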