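import Pool.Agent.MP_42957e_ag.Basic

set_option autoImplicit false

namespace Pool.Agent.MP_42957e_ag

open MvPolynomial Filter Topology Asymptotics
open scoped ComplexConjugate

/-- parametrisation of the nodal cubic (node `e 2 = - xp e 0`) -/
noncomputable def xp (e : Fin 3 → V) (τ : ℂ) : V := τ • e 0 + τ ^ 2 • e 1 + (τ ^ 3 - 1) • e 2

/-- the nodal cubic `X Y Z + X ^ 3 - Y ^ 3` in the coordinates given by the forms `a` -/
noncomputable def cub (a : Fin 3 → V) : CP :=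
  lf (a 0) * lf (a 1) * lf (a 2) + lf (a 0) ^ 3 - lf (a 1) ^ 3

/-- point of the line `z = 0` -/
def zp (t : ℂ) : V := ![t, 1, 0]

/-- A non-real nodal cubic with nine real points in general position that meets the line `z = 0`
in three points of the upper half. -/
structure Data where
  e : Fin 3 → V
  a : Fin 3 → V
  dual : ∀ i j, eval (e j) (lf (a i)) = if i = j then 1 else 0
  θ : Fin 9 → ℂ
  P : Fin 9 → Fin 3 → ℝ
  u : Fin 9 → ℂ
  γ : Fin 3 → ℂ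
  t : Fin 3 → ℂ
  v : Fin 3 → ℂ
  θ_inj : Function.Injective θ
  γ_inj : Function.Injective γ
  xθ : ∀ j, xp e (θ j) = u j • ofR (P j)
  P2 : ∀ j, P j 2 = 1
  ψe : eval (e 2) (cj (cub a)) ≠ 0
  ψx : ∀ τ, eval (xp e τ) (cj (cub a)) = eval (e 2) (cj (cub a)) * ∏ j, (τ - θ j)
  ze : e 2 2 ≠ 0
  zx : ∀ τ, xp e τ 2 = e 2 2 * ∏ i, (τ - γ i)
  xγ : ∀ i, xp e (γ i) = v i • zp (t i)
  t_pos : ∀ i, 0 < (t i).im
  gen : ∀ S : Multiset ℂ, (∀ r ∈ S, (∃ j, r = θ j) ∨ ∃ i, r = γ i) → S.card = 6 → S.prod = 1 →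
    ∀ i, γ i ∈ S

/-- The data of the perturbation. -/
structure Fam extends Data where
  W : CP
  W_hom : W.IsHomogeneous 4
  WP : ∀ j, j ≠ 8 → eval (ofR (P j)) W = 0
  Wz : ∀ i, eval (zp (t i)) W ≠ 0
  We : eval (e 2) W ≠ 0
  η : ℝ
  η_pos : 0 < η
  ρ : Fin 9 → ℂ
  cb : ∀ K : CP, K.IsHomogeneous 3 → ∑ j, ρ j * eval (ofR (P j)) K = 0
  η_lt : √η * ∑ j, ‖ρ j‖ < ‖ρ 8‖ * ‖eval (ofR (P 8)) W‖
  rat : ∀ p : Polynomial ℂ, (∀ r, p.eval r = 0 → r.im = 0) → p.natDegree ≤ 19 →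
    ∀ w : ℕ, 1 ≤ w → w ≤ 2 → ∀ κ : ℂ, κ ≠ 0 →
    (∀ i, p.eval (t i) = κ * eval (zp (t i)) W ^ w * eval (zp (t i)) (cj (cub a)) ^ (w + 1)) → False

noncomputable abbrev Data.φ (D : Data) : CP := cub D.a
noncomputable abbrev Data.ψ (D : Data) : CP := cj (cub D.a)
noncomputable abbrev Data.x (D : Data) (τ : ℂ) : V := xp D.e τ

namespace Fam

variable (A : Fam)

noncomputable def lam : ℂ := conj (eval (ofR (A.P 8)) A.W) / 2
noncomputable def G : CP := A.φ * cj A.W + A.ψ * A.W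
noncomputable def R : CP :=
  X 2 ^ 2 * (C A.lam * A.W + C (conj A.lam) * cj A.W) - C (A.η : ℂ) * X 2 ^ 6
/-- the septic -/
noncomputable def F (s : ℝ) : CP :=
  X 2 * A.φ * A.ψ + C (s : ℂ) * A.G + C ((s : ℂ) ^ 2) * (X 2 * A.R)
noncomputable def φt (s : ℝ) : CP := X 2 * A.φ + C (s : ℂ) * A.W
noncomputable def ψt (s : ℝ) : CP := X 2 * A.ψ + C (s : ℂ) * cj A.W
noncomputable def T : CP := A.W * cj A.W - X 2 ^ 2 * A.R

end Fam

theorem cub_hom (a : Fin 3 → V) : (cub a).IsHomogeneous 3 :=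
  ((((lf_hom _).mul (lf_hom _)).mul (lf_hom _)).add ((lf_hom _).pow 3)).sub ((lf_hom _).pow 3)

theorem Data.φ_hom (D : Data) : D.φ.IsHomogeneous 3 := cub_hom _
theorem Data.ψ_hom (D : Data) : D.ψ.IsHomogeneous 3 := cj_hom (cub_hom _)

namespace Fam

variable (A : Fam)

theorem G_hom : A.G.IsHomogeneous 7 :=
  (A.φ_hom.mul (cj_hom A.W_hom)).add (A.ψ_hom.mul A.W_hom)

theorem R_hom : A.R.IsHomogeneous 6 :=
  (((isHomogeneous_X ℂ 2).pow 2).mul ((A.W_hom.C_mul _).add ((cj_hom A.W_hom).C_mul _))).sub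
    (((isHomogeneous_X ℂ 2).pow 6).C_mul _)

theorem F_hom (s : ℝ) : (A.F s).IsHomogeneous 7 :=
  ((((isHomogeneous_X ℂ 2).mul A.φ_hom).mul A.ψ_hom).add (A.G_hom.C_mul _)).add
    (((isHomogeneous_X ℂ 2).mul A.R_hom).C_mul _)

theorem φt_hom (s : ℝ) : (A.φt s).IsHomogeneous 4 :=
  ((isHomogeneous_X ℂ 2).mul A.φ_hom).add (A.W_hom.C_mul _)

theorem ψt_hom (s : ℝ) : (A.ψt s).IsHomogeneous 4 :=
  ((isHomogeneous_X ℂ 2).mul A.ψ_hom).add ((cj_hom A.W_hom).C_mul _)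

theorem T_hom : A.T.IsHomogeneous 8 :=
  (A.W_hom.mul (cj_hom A.W_hom)).sub (((isHomogeneous_X ℂ 2).pow 2).mul A.R_hom)

@[simp] theorem cj_G : cj A.G = A.G := by simp [G, add_comm]
@[simp] theorem cj_R : cj A.R = A.R := by simp [R, add_comm]
@[simp] theorem cj_T : cj A.T = A.T := by simp [T, mul_comm]
@[simp] theorem cj_φt (s : ℝ) : cj (A.φt s) = A.ψt s := by simp [φt, ψt]
@[simp] theorem cj_ψt (s : ℝ) : cj (A.ψt s) = A.φt s := by simp [φt, ψt]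
@[simp] theorem cj_F (s : ℝ) : cj (A.F s) = A.F s := by
  simp only [F, cj_add, cj_mul, cj_X, cj_cj, cj_C, cj_G, cj_R, map_pow, cj_pow, Complex.conj_ofReal]
  ring

theorem X_mul_F (s : ℝ) : X 2 * A.F s = A.φt s * A.ψt s - C ((s : ℂ) ^ 2) * A.T := by
  simp only [F, φt, ψt, T, G, map_pow]; ring

theorem eval_F (s : ℝ) (p : V) : eval p (A.F s) = p 2 * eval p A.φ * eval p A.ψ +
    s * eval p A.G + (s : ℂ) ^ 2 * (p 2 * eval p A.R) := by
  simp [F]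

theorem eval_φt (s : ℝ) (p : V) : eval p (A.φt s) = p 2 * eval p A.φ + s * eval p A.W := by
  simp [φt]

theorem eval_ψt (s : ℝ) (p : V) : eval p (A.ψt s) = p 2 * eval p A.ψ + s * eval p (cj A.W) := by
  simp [ψt]

theorem eval_G (p : V) :
    eval p A.G = eval p A.φ * eval p (cj A.W) + eval p A.ψ * eval p A.W := by
  simp [G]

theorem mul_eval_F (s : ℝ) (p : V) : p 2 * eval p (A.F s) =
    eval p (A.φt s) * eval p (A.ψt s) - (s : ℂ) ^ 2 * eval p A.T := by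
  simpa using congrArg (eval p) (A.X_mul_F s)

theorem T_P (j : Fin 9) : eval (ofR (A.P j)) A.T = A.η := by
  have h2 : ofR (A.P j) 2 = 1 := by simp [A.P2]
  simp only [T, R, map_sub, map_mul, map_pow, map_add, eval_X, eval_C, h2, eval_cj_ofR]
  by_cases hj : j = 8
  · subst hj; simp only [lam, map_div₀, Complex.conj_conj, map_ofNat]; ring
  · simp [A.WP j hj]

theorem continuous_F : Continuous fun x : ℝ × V => eval x.2 (A.F x.1) := by
  simp only [eval_F]; fun_prop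

end Fam

/-- coefficient arrays of real forms of degree at most five -/
abbrev Arr : Type := Fin 6 → Fin 6 → ℝ

/-- the form with coefficient array `c`, divided by `z ^ w` -/
noncomputable def frm (d w : ℕ) (c : Arr) : CP :=
  ∑ a : Fin 6, ∑ b : Fin 6,
    C (c a b : ℂ) * (X 2 ^ ((a : ℕ) - w) * X 0 ^ (b : ℕ) * X 1 ^ (d - a - b))

def Supp (d w : ℕ) (c : Arr) : Prop := ∀ a b, c a b ≠ 0 → w ≤ (a : ℕ) ∧ (a : ℕ) + b ≤ d

/-- row `a` of the array as a polynomial in one variable -/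
noncomputable def rowP (c : Arr) (a : Fin 6) : Polynomial ℂ :=
  ∑ b : Fin 6, Polynomial.C (c a b : ℂ) * Polynomial.X ^ (b : ℕ)

/-- A net of members of total pencils. -/
structure Seq (A : Fam) (ι : Type) (𝒰 : Ultrafilter ι) where
  d : ℕ
  hd : d ≤ 5
  s : ι → ℝ
  c : ι → Arr
  c0 : Arr
  hs : Tendsto s 𝒰 (𝓝[>] 0)
  hc : Tendsto c 𝒰 (𝓝 c0)
  c0_ne : c0 ≠ 0
  supp : ∀ i, Supp d 0 (c i)
  ns : ∀ᶠ i in 𝒰, NSg (A.F (s i))
  tot : ∀ᶠ i in 𝒰, Tot (A.F (s i)) (frm d 0 (c i))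
  N : Fin 9 → ι → Fin 3 → ℝ
  hN : ∀ j, Tendsto (N j) 𝒰 (𝓝 (A.P j))
  N2 : ∀ j, ∀ᶠ i in 𝒰, N j i 2 = 1 ∧ eval (ofR (N j i)) (A.F (s i)) = 0 ∧
    eval (ofR (N j i)) (frm d 0 (c i)) = 0
  im : (eval (A.e 2) (frm d 0 c0) * conj (eval (A.e 2) A.ψ * eval (ofR (A.P 8)) A.W)).im = 0

/-- affine chart -/
noncomputable def ch (p0 e e' : V) (q : ℂ × ℂ) : V := p0 + q.1 • e + q.2 • e'

end Pool.Agent.MP_42957e_ag
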