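import Pool.Agent.MP_42957e_ag.Data

set_option autoImplicit false

namespace Pool.Agent.MP_42957e_ag

open MvPolynomial Filter Topology Asymptotics
open scoped ComplexConjugate

theorem dataA_lf_add (a p q : V) : eval (p + q) (lf a) = eval p (lf a) + eval q (lf a) := by
  simp only [eval_lf, Pi.add_apply]; ring

theorem dataA_lf_smul (a p : V) (c : ℂ) : eval (c • p) (lf a) = c * eval p (lf a) := by
  simp only [eval_lf, Pi.smul_apply, smul_eq_mul]; ring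

theorem dataA_deriv_prod {ι : Type} [Fintype ι] [DecidableEq ι] {θ : ι → ℂ}
    (h : Function.Injective θ) (j : ι) {c : ℂ} (hc : c ≠ 0) :
    ∃ d : ℂ, d ≠ 0 ∧ HasDerivAt (fun τ : ℂ => c * ∏ k, (τ - θ k)) d (θ j) := by
  have hg : DifferentiableAt ℂ (fun τ : ℂ => ∏ k ∈ Finset.univ.erase j, (τ - θ k)) (θ j) := by
    fun_prop
  have h1 := (((hasDerivAt_id (θ j)).sub_const (θ j)).mul hg.hasDerivAt).const_mul c
  refine ⟨_, ?_, h1.congr_of_eventuallyEq (Eventually.of_forall fun τ => ?_)⟩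
  · simp only [id, sub_self, zero_mul, add_zero, one_mul]
    refine mul_ne_zero hc (Finset.prod_ne_zero_iff.2 fun k hk => sub_ne_zero.2 fun e => ?_)
    exact (Finset.mem_erase.1 hk).1 (h e).symm
  · simp only [Pi.mul_apply, id]
    rw [Finset.mul_prod_erase Finset.univ (fun k => τ - θ k) (Finset.mem_univ j)]

namespace Data

variable (D : Data)

theorem dataA_φ (p : V) : eval p D.φ =
    eval p (lf (D.a 0)) * eval p (lf (D.a 1)) * eval p (lf (D.a 2)) +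
      eval p (lf (D.a 0)) ^ 3 - eval p (lf (D.a 1)) ^ 3 := by
  simp [cub]

theorem dataA_dv (p f : V) : dv D.φ p f =
    (eval p (lf (D.a 1)) * eval p (lf (D.a 2)) + 3 * eval p (lf (D.a 0)) ^ 2) *
        eval f (lf (D.a 0)) +
      (eval p (lf (D.a 0)) * eval p (lf (D.a 2)) - 3 * eval p (lf (D.a 1)) ^ 2) *
        eval f (lf (D.a 1)) +
      eval p (lf (D.a 0)) * eval p (lf (D.a 1)) * eval f (lf (D.a 2)) := by
  simp only [cub, dv_sub, dv_add, dv_mul, dv_pow, dv_lf, map_mul]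
  norm_num
  ring

theorem dataA_comb (i : Fin 3) (c0 c1 c2 : ℂ) :
    eval (c0 • D.e 0 + c1 • D.e 1 + c2 • D.e 2) (lf (D.a i)) = ![c0, c1, c2] i := by
  simp only [dataA_lf_add, dataA_lf_smul, D.dual]
  fin_cases i <;> simp

/-- the derivative of the parametrisation -/
noncomputable def dataA_x' (τ : ℂ) : V := (1 : ℂ) • D.e 0 + (2 * τ) • D.e 1 + (3 * τ ^ 2) • D.e 2

theorem dataA_hasDeriv (τ : ℂ) : HasDerivAt D.x (D.dataA_x' τ) τ := by
  have h0 := (hasDerivAt_id τ).smul_const (D.e 0)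
  have h1 := (hasDerivAt_pow 2 τ).smul_const (D.e 1)
  have h2 := ((hasDerivAt_pow 3 τ).sub_const 1).smul_const (D.e 2)
  have h := (h0.add h1).add h2
  have e : D.dataA_x' τ = (1 : ℂ) • D.e 0 + (((2 : ℕ) : ℂ) * τ ^ (2 - 1)) • D.e 1 +
      (((3 : ℕ) : ℂ) * τ ^ (3 - 1)) • D.e 2 := by
    simp [dataA_x']
  rw [e]
  exact h

theorem expand (p : V) : p = eval p (lf (D.a 0)) • D.e 0 + eval p (lf (D.a 1)) • D.e 1 +
    eval p (lf (D.a 2)) • D.e 2 := by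
  set A : Matrix (Fin 3) (Fin 3) ℂ := Matrix.of fun i k => D.a i k
  set E : Matrix (Fin 3) (Fin 3) ℂ := Matrix.of fun k j => D.e j k
  have h1 : A * E = 1 := by
    ext i j
    have := D.dual i j
    rw [eval_lf] at this
    simp [A, E, Matrix.mul_apply, Fin.sum_univ_three, Matrix.one_apply, this]
  have h2 : E * A = 1 := mul_eq_one_comm.1 h1
  ext k
  have h3 := fun l => congrFun (congrFun h2 k) l
  have a0 := h3 0
  have a1 := h3 1
  have a2 := h3 2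
  simp only [A, E, Matrix.mul_apply, Fin.sum_univ_three, Matrix.of_apply] at a0 a1 a2
  have hp : p k = (1 : Matrix (Fin 3) (Fin 3) ℂ) k 0 * p 0 + (1 : Matrix (Fin 3) (Fin 3) ℂ) k 1 * p 1
      + (1 : Matrix (Fin 3) (Fin 3) ℂ) k 2 * p 2 := by
    fin_cases k <;> simp [Matrix.one_apply]
  rw [hp, ← a0, ← a1, ← a2]
  simp only [eval_lf, Pi.add_apply, Pi.smul_apply, smul_eq_mul]
  ring

theorem x_X (τ : ℂ) : eval (D.x τ) (lf (D.a 0)) = τ := by
  exact D.dataA_comb 0 _ _ _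

theorem x_Y (τ : ℂ) : eval (D.x τ) (lf (D.a 1)) = τ ^ 2 := by
  exact D.dataA_comb 1 _ _ _

theorem x_Z (τ : ℂ) : eval (D.x τ) (lf (D.a 2)) = τ ^ 3 - 1 := by
  exact D.dataA_comb 2 _ _ _

theorem x_zero : D.x 0 = (-1 : ℂ) • D.e 2 := by
  simp [xp]

theorem x_ne_zero (τ : ℂ) : D.x τ ≠ 0 := by
  intro h
  have h0 := D.x_X τ
  have h2 := D.x_Z τ
  rw [h, eval_lf] at h0 h2
  simp only [Pi.zero_apply, mul_zero, add_zero] at h0 h2
  rw [← h0] at h2
  norm_num at h2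

theorem φ_x (τ : ℂ) : eval (D.x τ) D.φ = 0 := by
  rw [dataA_φ, x_X, x_Y, x_Z]; ring

theorem φ_e : eval (D.e 2) D.φ = 0 := by
  rw [dataA_φ]; simp [D.dual]

theorem onto {p : V} (h : eval p D.φ = 0) : ∃ c τ : ℂ, p = c • D.x τ := by
  rw [dataA_φ] at h
  have hp := D.expand p
  generalize eval p (lf (D.a 0)) = X at h hp
  generalize eval p (lf (D.a 1)) = Y at h hp
  generalize eval p (lf (D.a 2)) = Z at h hp
  by_cases hX : X = 0
  · have hY : Y = 0 := by simpa [hX] using h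
    refine ⟨-Z, 0, ?_⟩
    rw [hp, hX, hY, x_zero, smul_smul]; simp
  · have hY : Y ≠ 0 := by
      rintro rfl
      exact hX (by simpa using h)
    refine ⟨X ^ 2 / Y, Y / X, ?_⟩
    have e0 : X = X ^ 2 / Y * (Y / X) := by field_simp
    have e1 : Y = X ^ 2 / Y * (Y / X) ^ 2 := by field_simp
    have e2 : Z = X ^ 2 / Y * ((Y / X) ^ 3 - 1) := by
      field_simp
      linear_combination h
    simp only [xp, smul_add, smul_smul]
    rw [← e0, ← e1, ← e2]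
    exact hp

theorem u_ne (j : Fin 9) : D.u j ≠ 0 := by
  intro h
  exact D.x_ne_zero (D.θ j) (by rw [Data.x, D.xθ, h, zero_smul])

theorem v_ne (i : Fin 3) : D.v i ≠ 0 := by
  intro h
  exact D.x_ne_zero (D.γ i) (by rw [Data.x, D.xγ, h, zero_smul])

theorem prod_θ : ∏ j, D.θ j = 1 := by
  have h := D.ψx 0
  have h0 : xp D.e 0 = (-1 : ℂ) • D.e 2 := D.x_zero
  rw [h0, eval_smul_hom D.ψ_hom] at h
  simp only [zero_sub, Finset.prod_neg, Finset.card_univ, Fintype.card_fin] at h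
  apply mul_left_cancel₀ D.ψe
  linear_combination h

theorem prod_γ : ∏ i, D.γ i = 1 := by
  have h := D.zx 0
  have h0 : xp D.e 0 = (-1 : ℂ) • D.e 2 := D.x_zero
  rw [h0] at h
  simp only [zero_sub, Finset.prod_neg, Finset.card_univ, Fintype.card_fin, Pi.smul_apply,
    smul_eq_mul] at h
  apply mul_left_cancel₀ D.ze
  linear_combination h

theorem θ_ne_zero (j : Fin 9) : D.θ j ≠ 0 := by
  intro h
  have := D.prod_θ
  rw [Finset.prod_eq_zero (Finset.mem_univ j) h] at this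
  exact zero_ne_one this

theorem γ_ne_zero (i : Fin 3) : D.γ i ≠ 0 := by
  intro h
  have := D.prod_γ
  rw [Finset.prod_eq_zero (Finset.mem_univ i) h] at this
  exact zero_ne_one this

theorem θ_ne_γ (j : Fin 9) (i : Fin 3) : D.θ j ≠ D.γ i := by
  intro h
  have h1 := D.xθ j
  rw [h, D.xγ] at h1
  have h2 := congrFun h1 2
  simp [zp, D.P2] at h2
  exact D.u_ne j h2.symm

theorem t_inj : Function.Injective D.t := by
  intro i k h
  have h1 : D.x (D.γ i) = (D.v i / D.v k) • D.x (D.γ k) := by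
    rw [Data.x, Data.x, D.xγ, D.xγ, h, smul_smul, div_mul_cancel₀ _ (D.v_ne k)]
  have a0 := D.x_X (D.γ i)
  have a1 := D.x_Y (D.γ i)
  rw [h1, dataA_lf_smul, x_X] at a0
  rw [h1, dataA_lf_smul, x_Y] at a1
  apply D.γ_inj
  apply mul_left_cancel₀ (D.γ_ne_zero i)
  linear_combination (D.γ k) * a0 - a1

theorem φ_P (j : Fin 9) : eval (ofR (D.P j)) D.φ = 0 := by
  have h := D.φ_x (D.θ j)
  rw [Data.x, D.xθ, eval_smul_hom D.φ_hom] at h
  exact (mul_eq_zero.1 h).resolve_left (pow_ne_zero _ (D.u_ne j))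

theorem ψ_P (j : Fin 9) : eval (ofR (D.P j)) D.ψ = 0 := by
  rw [Data.ψ, eval_cj_ofR, D.φ_P, map_zero]

theorem φ_z (i : Fin 3) : eval (zp (D.t i)) D.φ = 0 := by
  have h := D.φ_x (D.γ i)
  rw [Data.x, D.xγ, eval_smul_hom D.φ_hom] at h
  exact (mul_eq_zero.1 h).resolve_left (pow_ne_zero _ (D.v_ne i))

theorem ψ_z (i : Fin 3) : eval (zp (D.t i)) D.ψ ≠ 0 := by
  intro h0
  have h := D.ψx (D.γ i)
  rw [D.xγ, eval_smul_hom D.ψ_hom, h0, mul_zero] at h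
  refine mul_ne_zero D.ψe (Finset.prod_ne_zero_iff.2 fun j _ => sub_ne_zero.2 ?_) h.symm
  exact (D.θ_ne_γ j i).symm

theorem common {p : V} (h1 : eval p D.φ = 0) (h2 : eval p D.ψ = 0) :
    ∃ j, ∃ c : ℂ, p = c • ofR (D.P j) := by
  obtain ⟨c, τ, rfl⟩ := D.onto h1
  rw [eval_smul_hom D.ψ_hom, Data.x, D.ψx] at h2
  rcases mul_eq_zero.1 h2 with h | h
  · exact ⟨0, 0, by rw [pow_eq_zero_iff (by norm_num)] at h; rw [h, zero_smul, zero_smul]⟩
  · obtain ⟨j, -, hj⟩ := Finset.prod_eq_zero_iff.1 ((mul_eq_zero.1 h).resolve_left D.ψe)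
    exact ⟨j, c * D.u j, by rw [sub_eq_zero.1 hj, Data.x, D.xθ, smul_smul]⟩

theorem onL {p : V} (h1 : eval p D.φ = 0) (h2 : p 2 = 0) :
    ∃ i, ∃ c : ℂ, p = c • zp (D.t i) := by
  obtain ⟨c, τ, rfl⟩ := D.onto h1
  rw [Pi.smul_apply, smul_eq_mul, Data.x, D.zx] at h2
  rcases mul_eq_zero.1 h2 with h | h
  · exact ⟨0, 0, by rw [h, zero_smul, zero_smul]⟩
  · obtain ⟨i, -, hi⟩ := Finset.prod_eq_zero_iff.1 ((mul_eq_zero.1 h).resolve_left D.ze)
    exact ⟨i, c * D.v i, by rw [sub_eq_zero.1 hi, Data.x, D.xγ, smul_smul]⟩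

theorem not_re3 {p : V} (h1 : eval p D.φ = 0) (h2 : eval p D.ψ ≠ 0) : ¬ Re3 p := by
  intro h
  have hp : p ≠ 0 := by
    rintro rfl
    have := eval_smul_hom D.ψ_hom 0 (0 : V)
    rw [zero_smul] at this
    exact h2 (by rw [this]; simp)
  obtain ⟨c, v, hc, rfl⟩ := h.exists_ofR hp
  rw [eval_smul_hom D.φ_hom] at h1
  rw [eval_smul_hom D.ψ_hom, Data.ψ, eval_cj_ofR,
    (mul_eq_zero.1 h1).resolve_left (pow_ne_zero _ hc)] at h2
  simp at h2

theorem exists_ne : ∃ q : V, q 2 * eval q D.φ * eval q D.ψ ≠ 0 := by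
  obtain ⟨r, hr⟩ := Infinite.exists_notMem_finset (Finset.univ.image fun j => D.P j 0)
  have h : eval (ofR ![r, 0, 1]) D.φ ≠ 0 := by
    intro h
    obtain ⟨j, c, hc⟩ := D.common h (by rw [Data.ψ, eval_cj_ofR, h, map_zero])
    have h2 := congrFun hc 2
    have h0 := congrFun hc 0
    simp [D.P2] at h2 h0
    rw [← h2, one_mul] at h0
    exact hr (Finset.mem_image.2 ⟨j, Finset.mem_univ _, by exact_mod_cast h0.symm⟩)
  refine ⟨ofR ![r, 0, 1], mul_ne_zero (mul_ne_zero (by simp) h) ?_⟩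
  rw [Data.ψ, eval_cj_ofR]
  exact (map_ne_zero _).2 h

theorem sing_φ {p : V} (h : ∀ f, dv D.φ p f = 0) : ∃ c : ℂ, p = c • D.e 2 := by
  have h0 := h (D.e 0)
  have h1 := h (D.e 1)
  have h2 := h (D.e 2)
  rw [dataA_dv] at h0 h1 h2
  simp only [D.dual] at h0 h1 h2
  have hp := D.expand p
  generalize eval p (lf (D.a 0)) = X at h0 h1 h2 hp
  generalize eval p (lf (D.a 1)) = Y at h0 h1 h2 hp
  generalize eval p (lf (D.a 2)) = Z at h0 h1 h2 hp
  simp at h0 h1 h2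
  have hX : X = 0 := by
    rcases h2 with h2 | h2
    · exact h2
    · simpa [h2] using h0
  have hY : Y = 0 := by simpa [hX] using h1
  exact ⟨Z, by rw [hp, hX, hY]; simp⟩

theorem dataA_dv_x (τ : ℂ) (f : V) : dv D.φ (D.x τ) f =
    (τ ^ 5 + 2 * τ ^ 2) * eval f (lf (D.a 0)) - (2 * τ ^ 4 + τ) * eval f (lf (D.a 1)) +
      τ ^ 3 * eval f (lf (D.a 2)) := by
  rw [dataA_dv, x_X, x_Y, x_Z]; ring

theorem dataA_dv_x' (τ : ℂ) : dv D.φ (D.x τ) (D.dataA_x' τ) = 0 := by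
  rw [dataA_dv_x]
  simp only [dataA_x', dataA_comb]
  simp
  ring

theorem dataA_tangent {τ : ℂ} (hτ : τ ≠ 0) {f : V} (h : dv D.φ (D.x τ) f = 0) :
    ∃ α β : ℂ, f = α • D.x τ + β • D.dataA_x' τ := by
  rw [dataA_dv_x] at h
  have hp := D.expand f
  generalize eval f (lf (D.a 0)) = X at h hp
  generalize eval f (lf (D.a 1)) = Y at h hp
  generalize eval f (lf (D.a 2)) = Z at h hp
  refine ⟨(2 * τ * X - Y) / τ ^ 2, (Y - τ * X) / τ, ?_⟩
  have e0 : X = (2 * τ * X - Y) / τ ^ 2 * τ + (Y - τ * X) / τ * 1 := by field_simp; ring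
  have e1 : Y = (2 * τ * X - Y) / τ ^ 2 * τ ^ 2 + (Y - τ * X) / τ * (2 * τ) := by
    field_simp; ring
  have e2 : Z = (2 * τ * X - Y) / τ ^ 2 * (τ ^ 3 - 1) + (Y - τ * X) / τ * (3 * τ ^ 2) := by
    apply mul_left_cancel₀ hτ
    field_simp
    apply mul_left_cancel₀ hτ
    linear_combination h
  generalize (2 * τ * X - Y) / τ ^ 2 = α at e0 e1 e2 ⊢
  generalize (Y - τ * X) / τ = β at e0 e1 e2 ⊢
  rw [hp, e0, e1, e2]
  simp only [xp, dataA_x']
  module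

theorem inj_P (j : Fin 9) (f : V) (h0 : f 2 = 0) (h1 : dv D.φ (ofR (D.P j)) f = 0)
    (h2 : dv D.ψ (ofR (D.P j)) f = 0) : f = 0 := by
  have hx : D.x (D.θ j) = D.u j • ofR (D.P j) := D.xθ j
  have a1 : dv D.φ (D.x (D.θ j)) f = 0 := by rw [hx, dv_smul_hom D.φ_hom, h1, mul_zero]
  have a2 : dv D.ψ (D.x (D.θ j)) f = 0 := by rw [hx, dv_smul_hom D.ψ_hom, h2, mul_zero]
  obtain ⟨α, β, rfl⟩ := D.dataA_tangent (D.θ_ne_zero j) a1
  obtain ⟨d, hd, hder⟩ := dataA_deriv_prod D.θ_inj j D.ψe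
  have b1 := hasDerivAt_eval D.ψ (D.dataA_hasDeriv (D.θ j))
  have b2 : (fun t => eval (D.x t) D.ψ) =
      fun τ : ℂ => eval (D.e 2) (cj (cub D.a)) * ∏ k, (τ - D.θ k) := funext D.ψx
  rw [b2] at b1
  have b3 : eval (D.x (D.θ j)) D.ψ = 0 := by
    rw [hx, eval_smul_hom D.ψ_hom, D.ψ_P, mul_zero]
  rw [dv_add_right, dv_smul_right, dv_smul_right, euler D.ψ_hom, b3, b1.unique hder] at a2
  have hβ : β = 0 := by simpa [hd] using a2
  have hα : α = 0 := by simpa [hβ, hx, D.P2, D.u_ne j] using h0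
  rw [hα, hβ]; simp

theorem dual_z (i : Fin 3) : ∃ f f' : V, f 2 = 1 ∧ dv D.φ (zp (D.t i)) f = 0 ∧ f' 2 = 0 ∧
    dv D.φ (zp (D.t i)) f' = 1 := by
  have hx : zp (D.t i) = (D.v i)⁻¹ • D.x (D.γ i) := by
    rw [Data.x, D.xγ, smul_smul, inv_mul_cancel₀ (D.v_ne i), one_smul]
  obtain ⟨d, hd, hder⟩ := dataA_deriv_prod D.γ_inj i D.ze
  have b1 := (hasDerivAt_pi.1 (D.dataA_hasDeriv (D.γ i))) 2
  have b2 : (fun t => D.x t 2) = fun τ : ℂ => D.e 2 2 * ∏ k, (τ - D.γ k) := funext D.zx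
  rw [b2] at b1
  have b3 : D.dataA_x' (D.γ i) 2 = d := b1.unique hder
  have c1 : dv D.φ (zp (D.t i)) (d⁻¹ • D.dataA_x' (D.γ i)) = 0 := by
    rw [hx, dv_smul_hom D.φ_hom, dv_smul_right, dataA_dv_x', mul_zero, mul_zero]
  have c2 : (d⁻¹ • D.dataA_x' (D.γ i)) 2 = 1 := by
    rw [Pi.smul_apply, b3, smul_eq_mul, inv_mul_cancel₀ hd]
  have c3 : dv D.φ (zp (D.t i)) (D.e 2) ≠ 0 := by
    rw [hx, dv_smul_hom D.φ_hom, dataA_dv_x]
    simp [D.dual, D.v_ne i, D.γ_ne_zero i]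
  refine ⟨_, (dv D.φ (zp (D.t i)) (D.e 2))⁻¹ • (D.e 2 - D.e 2 2 • d⁻¹ • D.dataA_x' (D.γ i)),
    c2, c1, ?_, ?_⟩
  · rw [Pi.smul_apply, Pi.sub_apply, Pi.smul_apply (D.e 2 2), c2]; simp
  · rw [dv_smul_right, dv_sub_right, dv_smul_right _ _ _ (D.e 2 2), c1, mul_zero, sub_zero,
      inv_mul_cancel₀ c3]

end Data

end Pool.Agent.MP_42957e_ag
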