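import Pool.Agent.MP_42957e_ag.Data

set_option autoImplicit false

namespace Pool.Agent.MP_42957e_ag

open MvPolynomial Filter Topology Asymptotics
open scoped ComplexConjugate

theorem frm_hom {d w : ℕ} {c : Arr} (h : Supp d w c) : (frm d w c).IsHomogeneous (d - w) := by
  refine IsHomogeneous.sum _ _ _ fun a _ => IsHomogeneous.sum _ _ _ fun b _ => ?_
  by_cases hc : c a b = 0
  · simp [hc, isHomogeneous_zero]
  · obtain ⟨h1, h2⟩ := h a b hc
    have := (isHomogeneous_C (Fin 3) (c a b : ℂ)).mul
      ((((isHomogeneous_X ℂ (2 : Fin 3)).pow ((a : ℕ) - w)).mul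
        ((isHomogeneous_X ℂ (0 : Fin 3)).pow (b : ℕ))).mul
        ((isHomogeneous_X ℂ (1 : Fin 3)).pow (d - a - b)))
    convert this using 1
    omega

theorem cj_frm (d w : ℕ) (c : Arr) : cj (frm d w c) = frm d w c := by
  simp [frm, cj_sum]

theorem Form_eval (d w : ℕ) (c : Arr) (p : V) : eval p (frm d w c) = ∑ a : Fin 6, ∑ b : Fin 6,
    (c a b : ℂ) * (p 2 ^ ((a : ℕ) - w) * p 0 ^ (b : ℕ) * p 1 ^ (d - a - b)) := by
  simp [frm]

theorem continuous_frm (d w : ℕ) : Continuous fun x : Arr × V => eval x.2 (frm d w x.1) := by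
  simp only [Form_eval]
  fun_prop

theorem frm_shift {d w : ℕ} {c : Arr} (h : Supp d w c) : frm d 0 c = X 2 ^ w * frm d w c := by
  simp only [frm, Finset.mul_sum]
  refine Finset.sum_congr rfl fun a _ => Finset.sum_congr rfl fun b _ => ?_
  by_cases hc : c a b = 0
  · simp [hc]
  · obtain ⟨h1, -⟩ := h a b hc
    obtain ⟨k, hk⟩ := Nat.exists_eq_add_of_le h1
    rw [Nat.sub_zero, show (a : ℕ) - w = k by omega]
    generalize d - a - b = m
    rw [hk]
    ring

theorem frm_sub (d w : ℕ) (c c' : Arr) : frm d w (c - c') = frm d w c - frm d w c' := by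
  simp [frm, sub_mul, Finset.sum_sub_distrib]

theorem frm_smul (d w : ℕ) (r : ℝ) (c : Arr) : frm d w (r • c) = C (r : ℂ) * frm d w c := by
  simp [frm, Finset.mul_sum, mul_assoc]

theorem Supp.sub {d w : ℕ} {c c' : Arr} (h : Supp d w c) (h' : Supp d w c') :
    Supp d w (c - c') := by
  intro a b hab
  by_cases h1 : c a b = 0
  · exact h' a b fun h2 => hab (by simp [h1, h2])
  · exact h a b h1

theorem Supp.smul {d w : ℕ} {c : Arr} (h : Supp d w c) (r : ℝ) : Supp d w (r • c) := by
  intro a b hab
  exact h a b fun h2 => hab (by simp [h2])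

theorem isClosed_supp (d w : ℕ) : IsClosed {c : Arr | Supp d w c} := by
  simp only [Supp, Set.ofPred_forall]
  refine isClosed_iInter fun a => isClosed_iInter fun b => ?_
  by_cases h : w ≤ (a : ℕ) ∧ (a : ℕ) + b ≤ d
  · simp [h]
  · convert (isClosed_eq (f := fun c : Arr => c a b) (g := fun _ => 0) (by fun_prop)
      continuous_const) using 1
    ext c
    simp [h]

/-- the exponent vector -/
noncomputable def Form_ex (d a b : ℕ) : Fin 3 →₀ ℕ :=
  Finsupp.single 2 a + Finsupp.single 0 b + Finsupp.single 1 (d - a - b)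

theorem Form_mono (d a b : ℕ) (r : ℂ) : (C r * (X 2 ^ a * X 0 ^ b * X 1 ^ (d - a - b)) : CP) =
    monomial (Form_ex d a b) r := by
  simp only [X_pow_eq_monomial, monomial_mul, C_mul_monomial, mul_one, Form_ex]

theorem exists_frm {Q : CP} {d : ℕ} (hQ : Q.IsHomogeneous d) (hd : d ≤ 5) (hr : cj Q = Q) :
    ∃ c : Arr, Supp d 0 c ∧ frm d 0 c = Q := by
  have hre : ∀ m, ((coeff m Q).re : ℂ) = coeff m Q := fun m => by
    have := congrArg (coeff m) hr
    rw [cj, coeff_map] at this
    exact Complex.conj_eq_iff_re.1 this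
  refine ⟨fun a b => if (a : ℕ) + b ≤ d then (coeff (Form_ex d a b) Q).re else 0, ?_, ?_⟩
  · intro a b hab
    refine ⟨Nat.zero_le _, ?_⟩
    by_contra hn
    simp [hn] at hab
  · ext m
    simp only [frm, Nat.sub_zero, Form_mono, coeff_sum, coeff_monomial]
    by_cases hm : m 2 + m 0 + m 1 = d
    · have e : Form_ex d (m 2) (m 0) = m := by
        ext i
        fin_cases i <;> simp [Form_ex]
        omega
      rw [Finset.sum_eq_single (⟨m 2, by omega⟩ : Fin 6), Finset.sum_eq_single (⟨m 0, by omega⟩ : Fin 6)]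
      · have : m 2 + m 0 ≤ d := by omega
        simp [e, this, hre]
      · intro b _ hb
        rw [if_neg]
        intro h
        apply hb
        have := congrArg (fun f => f 0) h
        simp [Form_ex] at this
        exact Fin.ext this
      · simp
      · intro a _ ha
        refine Finset.sum_eq_zero fun b _ => ?_
        rw [if_neg]
        intro h
        apply ha
        have := congrArg (fun f => f 2) h
        simp [Form_ex] at this
        exact Fin.ext this
      · simp
    · rw [hQ.coeff_eq_zero]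
      · refine Finset.sum_eq_zero fun a _ => Finset.sum_eq_zero fun b _ => ?_
        split_ifs with h1 h2
        · exfalso
          apply hm
          rw [← h1]
          simp [Form_ex]
          omega
        · simp
        · rfl
      · rw [Finsupp.degree_eq_sum, Fin.sum_univ_three]
        omega

theorem exists_min_row {d : ℕ} {c : Arr} (h : Supp d 0 c) (hc : c ≠ 0) :
    ∃ a b : Fin 6, Supp d a c ∧ c a b ≠ 0 := by
  classical
  have hne : (Finset.univ.filter fun a : Fin 6 => ∃ b, c a b ≠ 0).Nonempty := by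
    by_contra hn
    apply hc
    ext a b
    by_contra h1
    exact hn ⟨a, by simpa using ⟨b, h1⟩⟩
  obtain ⟨a, ha, hmin⟩ := Finset.exists_min_image _ (fun a : Fin 6 => (a : ℕ)) hne
  obtain ⟨b, hb⟩ := (Finset.mem_filter.1 ha).2
  exact ⟨a, b, fun a' b' h' => ⟨hmin a' (by simpa using ⟨b', h'⟩), (h a' b' h').2⟩, hb⟩

theorem natDegree_rowP (c : Arr) (a : Fin 6) : (rowP c a).natDegree ≤ 5 := by
  refine Polynomial.natDegree_sum_le_of_forall_le _ _ fun b _ => ?_
  exact (Polynomial.natDegree_C_mul_X_pow_le _ _).trans (by omega)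

theorem eval_rowP (c : Arr) (a : Fin 6) (x : ℂ) :
    (rowP c a).eval x = ∑ b : Fin 6, (c a b : ℂ) * x ^ (b : ℕ) := by
  simp [rowP, Polynomial.eval_finsetSum]

theorem row_eq_zero {t : Fin 3 → ℂ} (ht : Function.Injective t) (hpos : ∀ i, 0 < (t i).im)
    {c : Arr} {a : Fin 6} (h : ∀ i, (rowP c a).eval (t i) = 0) (b : Fin 6) : c a b = 0 := by
  have h0 : rowP c a = 0 := by
    refine Polynomial.eq_zero_of_natDegree_lt_card_of_eval_eq_zero _
      (f := Sum.elim t fun i => conj (t i)) ?_ ?_ ?_
    · rintro (i | i) (j | j) hij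
      · rw [ht hij]
      · have := congrArg Complex.im hij
        simp at this
        linarith [hpos i, hpos j]
      · have := congrArg Complex.im hij
        simp at this
        linarith [hpos i, hpos j]
      · rw [ht (star_injective hij)]
    · rintro (i | i)
      · exact h i
      · have := congrArg conj (h i)
        rw [eval_rowP] at this
        simpa [eval_rowP] using this
    · have := natDegree_rowP c a
      simp
      omega
  have := congrArg (fun p => p.coeff b) h0
  simp only [rowP, Polynomial.finsetSum_coeff, Polynomial.coeff_C_mul_X_pow,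
    Polynomial.coeff_zero] at this
  rw [Finset.sum_eq_single b] at this
  · simpa using this
  · intro b' _ hb'
    rw [if_neg]
    exact fun e => hb' (Fin.ext e.symm)
  · simp

theorem eval_frm_zp {d : ℕ} {c : Arr} {a : Fin 6} (h : Supp d a c) (x : ℂ) :
    eval (zp x) (frm d a c) = (rowP c a).eval x := by
  rw [Form_eval, eval_rowP, Finset.sum_eq_single a]
  · simp [zp]
  · intro a' _ ha'
    refine Finset.sum_eq_zero fun b _ => ?_
    by_cases hc : c a' b = 0
    · simp [hc]
    · have h1 := (h a' b hc).1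
      have h2 : (a' : ℕ) ≠ a := fun e => ha' (Fin.ext e)
      have h3 : (a' : ℕ) - a ≠ 0 := by omega
      simp [zp, h3]
  · simp

theorem eval_frm_chart (d : ℕ) (c : Arr) {p : V} (h : p 1 = 1) :
    eval p (frm d 0 c) = ∑ a : Fin 6, p 2 ^ (a : ℕ) * (rowP c a).eval (p 0) := by
  rw [Form_eval]
  refine Finset.sum_congr rfl fun a _ => ?_
  rw [eval_rowP, Finset.mul_sum]
  refine Finset.sum_congr rfl fun b _ => ?_
  rw [h, Nat.sub_zero]
  ring

theorem exists_zp_poly {K : CP} {n : ℕ} (hK : K.IsHomogeneous n) : ∃ g : Polynomial ℂ,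
    g.natDegree ≤ n ∧ g.coeff n = eval ![1, 0, 0] K ∧ ∀ x, g.eval x = eval (zp x) K := by
  have hdeg : ∀ m ∈ K.support, m 0 + m 1 + m 2 = n := fun m hm => by
    by_contra hn
    refine mem_support_iff.1 hm (hK.coeff_eq_zero ?_)
    rwa [Finsupp.degree_eq_sum, Fin.sum_univ_three]
  refine ⟨∑ m ∈ K.support, Polynomial.C (coeff m K * 0 ^ m 2) * Polynomial.X ^ m 0, ?_, ?_, ?_⟩
  · refine Polynomial.natDegree_sum_le_of_forall_le _ _ fun m hm => ?_
    exact (Polynomial.natDegree_C_mul_X_pow_le _ _).trans (by have := hdeg m hm; omega)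
  · rw [eval_eq', Polynomial.finsetSum_coeff]
    refine Finset.sum_congr rfl fun m hm => ?_
    have := hdeg m hm
    rw [Polynomial.coeff_C_mul_X_pow, Fin.prod_univ_three]
    split_ifs with h
    · have h1 : m 1 = 0 := by omega
      simp [h1]
    · by_cases h1 : m 1 = 0
      · have h2 : m 2 ≠ 0 := by omega
        simp [h2]
      · simp [h1]
  · intro x
    rw [eval_eq', Polynomial.eval_finsetSum]
    refine Finset.sum_congr rfl fun m _ => ?_
    rw [Fin.prod_univ_three]
    simp [zp]
    ring

/-- differences of values of a form whose coefficients tend to zero -/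
theorem frm_diff_isLittleO {ι : Type} {l : Filter ι} {p p' : ι → V} {p0 : V} {c : ι → Arr}
    (h : Tendsto p l (𝓝 p0)) (h' : Tendsto p' l (𝓝 p0)) (hc : Tendsto c l (𝓝 0)) (d w : ℕ) :
    (fun i => eval (p i) (frm d w (c i)) - eval (p' i) (frm d w (c i))) =o[l]
      fun i => p i - p' i := by
  have e : (fun i => eval (p i) (frm d w (c i)) - eval (p' i) (frm d w (c i))) =
      fun i => ∑ a : Fin 6, ∑ b : Fin 6, (c i a b : ℂ) *
        (eval (p i) (X 2 ^ ((a : ℕ) - w) * X 0 ^ (b : ℕ) * X 1 ^ (d - a - b) : CP) -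
          eval (p' i) (X 2 ^ ((a : ℕ) - w) * X 0 ^ (b : ℕ) * X 1 ^ (d - a - b) : CP)) := by
    ext i
    simp only [frm, map_sum, map_mul (eval _) (C _), eval_C, mul_sub, Finset.sum_sub_distrib]
  rw [e]
  refine IsLittleO.fun_sum fun a _ => IsLittleO.fun_sum fun b _ => ?_
  have h1 : (fun i => (c i a b : ℂ)) =o[l] fun _ => (1 : ℝ) := by
    rw [isLittleO_one_iff]
    have h2 : Continuous fun c : Arr => (c a b : ℂ) := by fun_prop
    have := (h2.tendsto 0).comp hc
    simp only [Function.comp_def, Pi.zero_apply, Complex.ofReal_zero] at this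
    exact this
  have h3 := h1.mul_isBigO (diff_isBigO h h' (X 2 ^ ((a : ℕ) - w) * X 0 ^ (b : ℕ) *
    X 1 ^ (d - a - b))).norm_right
  simp only [one_mul] at h3
  exact h3.of_norm_right

end Pool.Agent.MP_42957e_ag
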