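import Pool.Agent.MP_42957e_ag.DataA
import Pool.Agent.MP_42957e_ag.Form

set_option autoImplicit false

namespace Pool.Agent.MP_42957e_ag

open MvPolynomial Filter Topology Asymptotics
open scoped ComplexConjugate

theorem datab_deg {f g : Polynomial ℂ} {n : ℕ} (hf : f.natDegree ≤ n) (hg : g.natDegree ≤ n)
    (h : f.coeff n = g.coeff n) : (f - g).degree < n := by
  rw [Polynomial.degree_lt_iff_coeff_zero]
  intro m hm
  rw [Polynomial.coeff_sub]
  rcases hm.eq_or_lt with rfl | hm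
  · rw [h, sub_self]
  · rw [Polynomial.coeff_eq_zero_of_natDegree_lt (hf.trans_lt hm),
      Polynomial.coeff_eq_zero_of_natDegree_lt (hg.trans_lt hm), sub_self]

theorem datab_nodal {n : ℕ} (c : ℂ) (t : Fin n → ℂ) :
    (Polynomial.C c * Lagrange.nodal Finset.univ t).natDegree ≤ n ∧
    (Polynomial.C c * Lagrange.nodal Finset.univ t).coeff n = c := by
  have h1 : (Lagrange.nodal Finset.univ t).natDegree = n := by
    rw [Lagrange.natDegree_nodal, Finset.card_univ, Fintype.card_fin]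
  refine ⟨(Polynomial.natDegree_C_mul_le _ _).trans h1.le, ?_⟩
  have h2 := (Lagrange.nodal_monic (s := Finset.univ) (v := t)).coeff_natDegree
  rw [h1] at h2
  rw [Polynomial.coeff_C_mul, h2, mul_one]

theorem datab_normSq (x y t : ℂ) : Complex.normSq (x - t * y) -
    Complex.normSq (conj x - t * conj y) = -4 * t.im * (x * conj y).im := by
  simp only [Complex.normSq_apply, Complex.sub_re, Complex.sub_im, Complex.mul_re, Complex.mul_im,
    Complex.conj_re, Complex.conj_im]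
  ring

theorem datab_norm_lt {a b : ℂ} (h : Complex.normSq a < Complex.normSq b) : ‖a‖ < ‖b‖ := by
  rw [Complex.normSq_eq_norm_sq, Complex.normSq_eq_norm_sq] at h
  exact lt_of_pow_lt_pow_left₀ 2 (norm_nonneg _) h

theorem datab_prod_lt {a b : Fin 3 → ℂ} (h : ∀ i, ‖a i‖ < ‖b i‖) : ‖∏ i, a i‖ < ‖∏ i, b i‖ := by
  simp only [Fin.prod_univ_three, norm_mul]
  exact mul_lt_mul'' (mul_lt_mul'' (h 0) (h 1) (norm_nonneg _) (norm_nonneg _)) (h 2)
    (by positivity) (norm_nonneg _)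

namespace Data

variable (D : Data)

theorem φ_L : ∃ c : ℂ, c ≠ 0 ∧ ∀ p : V, p 2 = 0 →
    eval p D.φ = c * ∏ i, (p 0 - D.t i * p 1) := by
  obtain ⟨g, hg1, hg2, hg3⟩ := exists_zp_poly D.φ_hom
  obtain ⟨c, hc⟩ : ∃ c, c = eval ![1, 0, 0] D.φ := ⟨_, rfl⟩
  have hc0 : c ≠ 0 := by
    intro h
    obtain ⟨i, a, ha⟩ := D.onL (hc.symm.trans h) (by simp)
    have h0 := congrFun ha 0
    have h1 := congrFun ha 1
    simp [zp] at h0 h1
    simp [← h1] at h0
  have hg : g = Polynomial.C c * Lagrange.nodal Finset.univ D.t := by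
    refine Polynomial.eq_of_degree_sub_lt_of_eval_index_eq Finset.univ D.t_inj.injOn ?_ ?_
    · rw [Finset.card_univ, Fintype.card_fin]
      exact datab_deg hg1 (datab_nodal c D.t).1 (by rw [hg2, (datab_nodal c D.t).2, hc])
    · intro i hi
      rw [hg3, D.φ_z, Polynomial.eval_mul, Lagrange.eval_nodal_at_node hi, mul_zero]
  refine ⟨c, hc0, fun p hp => ?_⟩
  by_cases h1 : p 1 = 0
  · have e : p = p 0 • ![1, 0, 0] := by
      ext i; fin_cases i <;> simp [h1, hp]
    have e2 : eval p D.φ = p 0 ^ 3 * c := by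
      conv_lhs => rw [e]
      rw [eval_smul_hom D.φ_hom, hc]
    rw [e2, h1, Fin.prod_univ_three]; ring
  · have e : p = p 1 • zp (p 0 / p 1) := by
      ext i; fin_cases i
      · simp [zp]; field_simp
      · simp [zp]
      · simp [zp, hp]
    have e2 : eval p D.φ = p 1 ^ 3 * (c * ∏ i, (p 0 / p 1 - D.t i)) := by
      conv_lhs => rw [e]
      rw [eval_smul_hom D.φ_hom, ← hg3, hg, Polynomial.eval_mul, Polynomial.eval_C,
        Lagrange.eval_nodal]
    rw [e2, Fin.prod_univ_three, Fin.prod_univ_three]; field_simp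

theorem datab_ne {r : Fin 3 → ℝ} (hr : r ≠ 0) (h2 : r 2 = 0) (i : Fin 3) :
    (r 0 : ℂ) - D.t i * r 1 ≠ 0 := by
  intro h
  have hi := congrArg Complex.im h
  have hp := D.t_pos i
  simp only [Complex.sub_im, Complex.ofReal_im, Complex.mul_im, mul_zero, Complex.ofReal_re,
    zero_add, zero_sub, Complex.zero_im, neg_eq_zero, mul_eq_zero] at hi
  have h1 : r 1 = 0 := hi.resolve_left hp.ne'
  have h0 : r 0 = 0 := by simpa [h1] using h
  apply hr
  ext j; fin_cases j <;> simp [h0, h1, h2]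

theorem φ_real_ne {r : Fin 3 → ℝ} (hr : r ≠ 0) (h2 : r 2 = 0) : eval (ofR r) D.φ ≠ 0 := by
  obtain ⟨c, hc, h⟩ := D.φ_L
  rw [h _ (by simp [h2])]
  exact mul_ne_zero hc (Finset.prod_ne_zero_iff.2 fun i _ => D.datab_ne hr h2 i)

theorem re3_of_norm_eq {p : V} (h2 : p 2 = 0) (h : ‖eval p D.φ‖ = ‖eval p D.ψ‖) : Re3 p := by
  obtain ⟨c, hc, hL⟩ := D.φ_L
  rw [eval_cj, Complex.norm_conj, hL _ h2, hL _ (by simp [h2]), norm_mul, norm_mul] at h
  have h' := mul_left_cancel₀ (norm_ne_zero_iff.2 hc) h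
  simp only [Pi.star_apply, Complex.star_def] at h'
  have hm : (p 0 * conj (p 1)).im = 0 := by
    rcases lt_trichotomy (p 0 * conj (p 1)).im 0 with hm | hm | hm
    · refine absurd h'.symm (datab_prod_lt fun i => datab_norm_lt ?_).ne
      have := datab_normSq (p 0) (p 1) (D.t i)
      nlinarith [mul_pos (D.t_pos i) (neg_pos.2 hm)]
    · exact hm
    · refine absurd h' (datab_prod_lt fun i => datab_norm_lt ?_).ne
      have := datab_normSq (p 0) (p 1) (D.t i)
      nlinarith [mul_pos (D.t_pos i) hm]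
  have hm' : (p 1 * conj (p 0)).im = 0 := by
    simp only [Complex.mul_im, Complex.conj_re, Complex.conj_im] at hm ⊢
    linarith
  have hs : ∀ z : ℂ, (z * conj z).im = 0 := fun z => by
    simp only [Complex.mul_im, Complex.conj_re, Complex.conj_im]; ring
  intro i j
  fin_cases i <;> fin_cases j
  all_goals first
    | exact hs _
    | exact hm
    | exact hm'
    | simp [h2]

theorem datab_dv {c : ℂ} (hL : ∀ p : V, p 2 = 0 → eval p D.φ = c * ∏ i, (p 0 - D.t i * p 1))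
    {p f : V} (h2 : p 2 = 0) (f2 : f 2 = 0) : dv D.φ p f = c *
      ((f 0 - D.t 0 * f 1) * (p 0 - D.t 1 * p 1) * (p 0 - D.t 2 * p 1) +
        (p 0 - D.t 0 * p 1) * (f 0 - D.t 1 * f 1) * (p 0 - D.t 2 * p 1) +
        (p 0 - D.t 0 * p 1) * (p 0 - D.t 1 * p 1) * (f 0 - D.t 2 * f 1)) := by
  have hg : HasDerivAt (fun τ : ℂ => p + τ • f) f 0 := by
    simpa using ((hasDerivAt_id (0 : ℂ)).smul_const f).const_add p
  have h1 := hasDerivAt_eval D.φ hg
  have hl : ∀ i, HasDerivAt (fun τ : ℂ => p 0 + τ * f 0 - D.t i * (p 1 + τ * f 1))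
      (f 0 - D.t i * f 1) 0 := fun i => by
    have := (((hasDerivAt_id (0 : ℂ)).mul_const (f 0)).const_add (p 0)).fun_sub
      ((((hasDerivAt_id (0 : ℂ)).mul_const (f 1)).const_add (p 1)).const_mul (D.t i))
    simp only [id, one_mul] at this
    exact this
  have h3 := (((hl 0).mul (hl 1)).mul (hl 2)).const_mul c
  have he : (fun τ : ℂ => eval (p + τ • f) D.φ) = fun τ : ℂ => c *
      ((p 0 + τ * f 0 - D.t 0 * (p 1 + τ * f 1)) * (p 0 + τ * f 0 - D.t 1 * (p 1 + τ * f 1)) *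
        (p 0 + τ * f 0 - D.t 2 * (p 1 + τ * f 1))) := by
    funext τ
    rw [hL _ (by simp [h2, f2]), Fin.prod_univ_three]
    simp only [Pi.add_apply, Pi.smul_apply, smul_eq_mul]
  rw [he] at h1
  have h4 := h1.unique h3
  simp only [zero_smul, add_zero, zero_mul, Pi.mul_apply] at h4
  rw [h4]; ring

theorem simple {r : Fin 3 → ℝ} {k : Fin 3} (h2 : r 2 = 0) (hk : r k ≠ 0) {f : V} (f2 : f 2 = 0)
    (fk : f k = 0)
    (h : eval (ofR r) D.ψ * dv D.φ (ofR r) f - eval (ofR r) D.φ * dv D.ψ (ofR r) f = 0) :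
    f = 0 := by
  obtain ⟨c, hc, hL⟩ := D.φ_L
  have hr : r ≠ 0 := fun h => hk (by simp [h])
  have r2 : ofR r 2 = 0 := by simp [h2]
  have f2' : star f 2 = 0 := by simp [f2]
  rw [eval_cj_ofR, dv_cj, star_ofR, D.datab_dv hL r2 f2, D.datab_dv hL r2 f2', hL _ r2,
    Fin.prod_univ_three] at h
  simp only [ofR_apply, Pi.star_apply, Complex.star_def, map_mul, map_add, map_sub,
    Complex.conj_conj, Complex.conj_ofReal] at h
  obtain ⟨l, hl⟩ : ∃ l : Fin 3 → ℂ, ∀ i, l i = (r 0 : ℂ) - D.t i * r 1 := ⟨_, fun _ => rfl⟩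
  have hl0 : ∀ i, l i ≠ 0 := fun i => by rw [hl]; exact D.datab_ne hr h2 i
  have hcl : ∀ i, conj (l i) = (r 0 : ℂ) - conj (D.t i) * r 1 := fun i => by
    rw [hl]; simp
  have hS : (c * conj c) * ((r 1 : ℂ) * f 0 - r 0 * f 1) *
      ((l 1 * conj (l 1)) * (l 2 * conj (l 2)) * (D.t 0 - conj (D.t 0)) +
        (l 0 * conj (l 0)) * (l 2 * conj (l 2)) * (D.t 1 - conj (D.t 1)) +
        (l 0 * conj (l 0)) * (l 1 * conj (l 1)) * (D.t 2 - conj (D.t 2))) = 0 := by
    simp only [hcl]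
    simp only [hl]
    linear_combination h
  have hpos : ((l 1 * conj (l 1)) * (l 2 * conj (l 2)) * (D.t 0 - conj (D.t 0)) +
        (l 0 * conj (l 0)) * (l 2 * conj (l 2)) * (D.t 1 - conj (D.t 1)) +
        (l 0 * conj (l 0)) * (l 1 * conj (l 1)) * (D.t 2 - conj (D.t 2))) ≠ 0 := by
    simp only [Complex.mul_conj, Complex.sub_conj]
    intro h0
    have h1 := congrArg Complex.im h0
    simp only [Complex.add_im, Complex.mul_im, Complex.mul_re, Complex.ofReal_re,
      Complex.ofReal_im, Complex.I_re, Complex.I_im, Complex.zero_im, mul_zero, mul_one, sub_zero,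
      add_zero, zero_mul] at h1
    have n0 := Complex.normSq_pos.2 (hl0 0)
    have n1 := Complex.normSq_pos.2 (hl0 1)
    have n2 := Complex.normSq_pos.2 (hl0 2)
    have t0 := D.t_pos 0
    have t1 := D.t_pos 1
    have t2 := D.t_pos 2
    have : 0 < Complex.normSq (l 1) * Complex.normSq (l 2) * (2 * (D.t 0).im) +
        Complex.normSq (l 0) * Complex.normSq (l 2) * (2 * (D.t 1).im) +
        Complex.normSq (l 0) * Complex.normSq (l 1) * (2 * (D.t 2).im) := by positivity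
    linarith
  have hcc : c * conj c ≠ 0 := mul_ne_zero hc (by simpa using hc)
  have hd : (r 1 : ℂ) * f 0 - r 0 * f 1 = 0 :=
    (mul_eq_zero.1 ((mul_eq_zero.1 hS).resolve_right hpos)).resolve_left hcc
  have hk' : (r k : ℂ) ≠ 0 := by exact_mod_cast hk
  have h01 : f 0 = 0 ∧ f 1 = 0 := by
    fin_cases k
    · have f0 : f 0 = 0 := fk
      have hk0 : (r 0 : ℂ) ≠ 0 := hk'
      refine ⟨f0, ?_⟩
      rw [f0, mul_zero, zero_sub, neg_eq_zero] at hd
      exact (mul_eq_zero.1 hd).resolve_left hk0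
    · have f1 : f 1 = 0 := fk
      have hk1 : (r 1 : ℂ) ≠ 0 := hk'
      refine ⟨?_, f1⟩
      rw [f1, mul_zero, sub_zero] at hd
      exact (mul_eq_zero.1 hd).resolve_left hk1
    · exact absurd h2 hk
  ext j; fin_cases j <;> simp [h01.1, h01.2, f2]

theorem restr {K : CP} {d : ℕ} (hK : K.IsHomogeneous d) : ∃ κ : Polynomial ℂ,
    (∀ τ, κ.eval τ = eval (D.x τ) K) ∧ κ.natDegree ≤ 3 * d ∧ κ.coeff (3 * d) = eval (D.e 2) K := by
  obtain ⟨q, hq⟩ : ∃ q : Fin 3 → Polynomial ℂ, ∀ i, q i = Polynomial.C (D.e 0 i) * Polynomial.X +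
      Polynomial.C (D.e 1 i) * Polynomial.X ^ 2 +
      Polynomial.C (D.e 2 i) * (Polynomial.X ^ 3 - 1) := ⟨_, fun _ => rfl⟩
  have q1 : ∀ i, (q i).natDegree ≤ 3 := fun i => by rw [hq]; compute_degree
  have q2 : ∀ i, (q i).coeff 3 = D.e 2 i := fun i => by
    rw [hq]; simp [Polynomial.coeff_X_pow, Polynomial.coeff_one]
  have q3 : ∀ i τ, (q i).eval τ = D.x τ i := fun i τ => by
    rw [hq]; simp [xp]; ring
  have hm : ∀ m ∈ K.support, m 0 * 3 + m 1 * 3 + m 2 * 3 = 3 * d := fun m hm => by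
    have := hK (mem_support_iff.1 hm)
    rw [← this, Finsupp.weight_apply, Finsupp.sum_fintype _ _ (by simp)]
    simp only [Fin.sum_univ_three, Pi.one_apply, smul_eq_mul, mul_one]
    ring
  have p1 : ∀ i n, (q i ^ n).natDegree ≤ n * 3 := fun i n =>
    Polynomial.natDegree_pow_le_of_le n (q1 i)
  have p2 : ∀ i n, (q i ^ n).coeff (n * 3) = D.e 2 i ^ n := fun i n => by
    rw [Polynomial.coeff_pow_of_natDegree_le (q1 i), q2]
  refine ⟨∑ m ∈ K.support, Polynomial.C (coeff m K) * (q 0 ^ m 0 * q 1 ^ m 1 * q 2 ^ m 2),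
    fun τ => ?_, ?_, ?_⟩
  · rw [eval_eq', Polynomial.eval_finsetSum]
    refine Finset.sum_congr rfl fun m _ => ?_
    simp only [Polynomial.eval_mul, Polynomial.eval_C, Polynomial.eval_pow, q3,
      Fin.prod_univ_three]
  · refine Polynomial.natDegree_sum_le_of_forall_le _ _ fun m h => ?_
    refine (Polynomial.natDegree_C_mul_le _ _).trans ?_
    rw [← hm m h]
    exact Polynomial.natDegree_mul_le_of_le
      (Polynomial.natDegree_mul_le_of_le (p1 _ _) (p1 _ _)) (p1 _ _)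
  · rw [eval_eq', Polynomial.finsetSum_coeff]
    refine Finset.sum_congr rfl fun m h => ?_
    rw [Polynomial.coeff_C_mul, ← hm m h, Polynomial.coeff_mul_add_eq_of_natDegree_le
      (Polynomial.natDegree_mul_le_of_le (p1 _ _) (p1 _ _)) (p1 _ _),
      Polynomial.coeff_mul_add_eq_of_natDegree_le (p1 _ _) (p1 _ _), p2, p2, p2,
      Fin.prod_univ_three]

theorem exists_cb : ∃ ρ : Fin 9 → ℂ, (∀ j, ρ j ≠ 0) ∧
    ∀ K : CP, K.IsHomogeneous 3 → ∑ j, ρ j * eval (ofR (D.P j)) K = 0 := by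
  refine ⟨fun j => D.u j ^ 3 / (D.θ j * ∏ k ∈ Finset.univ.erase j, (D.θ j - D.θ k)),
    fun j => div_ne_zero (pow_ne_zero _ (D.u_ne j)) (mul_ne_zero (D.θ_ne_zero j)
      (Finset.prod_ne_zero_iff.2 fun k hk => sub_ne_zero.2 fun h =>
        Finset.ne_of_mem_erase hk (D.θ_inj h).symm)), fun K hK => ?_⟩
  obtain ⟨κ, k1, k2, k3⟩ := D.restr hK
  obtain ⟨h, hh⟩ : ∃ h, h = κ - Polynomial.C (eval (D.e 2) K) * Lagrange.nodal Finset.univ D.θ :=
    ⟨_, rfl⟩
  have hdeg : h.degree < (9 : ℕ) := by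
    rw [hh]
    exact datab_deg k2 (datab_nodal _ D.θ).1 (by rw [(datab_nodal _ D.θ).2]; exact k3)
  have h0 : h.coeff 0 = 0 := by
    have hp : ∏ i, (0 - D.θ i) = -1 := by
      simp only [zero_sub]
      rw [Finset.prod_neg, D.prod_θ, Finset.card_univ, Fintype.card_fin]; norm_num
    rw [Polynomial.coeff_zero_eq_eval_zero, hh, Polynomial.eval_sub, Polynomial.eval_mul,
      Polynomial.eval_C, Lagrange.eval_nodal, hp, k1, D.x_zero, eval_smul_hom hK]
    ring
  obtain ⟨q, hq⟩ := Polynomial.X_dvd_iff.2 h0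
  have hq8 : q.coeff 8 = 0 := by
    have := (Polynomial.degree_lt_iff_coeff_zero _ _).1 hdeg 9 le_rfl
    rwa [hq, Polynomial.coeff_X_mul] at this
  have hqd : q.degree < (Finset.univ : Finset (Fin 9)).card := by
    rw [Finset.card_univ, Fintype.card_fin, Polynomial.degree_lt_iff_coeff_zero]
    intro m hm
    have := (Polynomial.degree_lt_iff_coeff_zero _ _).1 hdeg (m + 1) (by omega)
    rwa [hq, Polynomial.coeff_X_mul] at this
  have hs := Lagrange.coeff_eq_sum D.θ_inj.injOn hqd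
  rw [Finset.card_univ, Fintype.card_fin, hq8] at hs
  rw [hs]
  refine Finset.sum_congr rfl fun j hj => ?_
  have e1 : D.θ j * q.eval (D.θ j) = D.u j ^ 3 * eval (ofR (D.P j)) K := by
    have := congrArg (Polynomial.eval (D.θ j)) (hh.symm.trans hq)
    rw [Polynomial.eval_sub, Polynomial.eval_mul, Lagrange.eval_nodal_at_node hj, mul_zero,
      sub_zero, k1, Polynomial.eval_mul, Polynomial.eval_X] at this
    rw [← this, Data.x, D.xθ, eval_smul_hom hK]
  rw [div_mul_eq_mul_div, ← e1, mul_div_mul_left _ _ (D.θ_ne_zero j)]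

end Data

end Pool.Agent.MP_42957e_ag
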