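import Mathlib

set_option autoImplicit false

namespace Pool.Agent.MP_42957e_ag

open MvPolynomial

/-- The complex projective plane. -/
abbrev CP2 : Type := Projectivization ℂ (Fin 3 → ℂ)

/-- The usual (quotient) topology of the complex projective plane. -/
@[reducible] noncomputable def projTop : TopologicalSpace CP2 :=
  TopologicalSpace.coinduced
    (fun v : {v : Fin 3 → ℂ // v ≠ 0} => Projectivization.mk ℂ v.1 v.2) inferInstance

/-- The complex points of the curve given by a real form. -/
def cpts (F : MvPolynomial (Fin 3) ℝ) : Set CP2 := {x | aeval x.rep F = 0}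

/-- The real projective plane inside the complex one. -/
def rpts : Set CP2 :=
  {x | ∃ (v : Fin 3 → ℝ) (h : (fun i => (v i : ℂ)) ≠ 0), x = Projectivization.mk ℂ _ h}

/-- No complex point of the curve is singular. -/
def Nonsingular (F : MvPolynomial (Fin 3) ℝ) : Prop :=
  ∀ v : Fin 3 → ℂ, v ≠ 0 → aeval v F = 0 → ∃ i, aeval v (pderiv i F) ≠ 0

/-- The set of non-real points of the curve is disconnected. -/
def Dividing (F : MvPolynomial (Fin 3) ℝ) : Prop :=
  ¬ @IsPreconnected CP2 projTop (cpts F \ rpts)

/-- Every real member of the pencil spanned by `G, H` meets the curve in real points only. -/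
def IsTotal (F G H : MvPolynomial (Fin 3) ℝ) : Prop :=
  ∀ a b : ℝ, (a, b) ≠ (0, 0) → cpts F ∩ cpts (C a * G + C b * H) ⊆ rpts

end Pool.Agent.MP_42957e_ag
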