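import Pool.Agent.MP_42957e_ag.DataB

set_option autoImplicit false

namespace Pool.Agent.MP_42957e_ag

open MvPolynomial Filter Topology Asymptotics
open scoped ComplexConjugate

namespace Fam

variable (A : Fam)

theorem DivA_lim {l : Filter (ℝ × V)} [l.NeBot] {p0 : V} (hs : Tendsto Prod.fst l (𝓝[>] 0))
    (hp : Tendsto Prod.snd l (𝓝 p0)) (h : ∀ᶠ x in l, eval x.2 (A.F x.1) = 0) :
    p0 2 * eval p0 A.φ * eval p0 A.ψ = 0 := by
  have h1 : Tendsto (fun x : ℝ × V => x) l (𝓝 ((0 : ℝ), p0)) :=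
    (hs.mono_right nhdsWithin_le_nhds).prodMk_nhds hp
  have h2 := (A.continuous_F.tendsto ((0 : ℝ), p0)).comp h1
  simp only [Function.comp_def] at h2
  have h3 : eval p0 (A.F 0) = 0 :=
    tendsto_nhds_unique h2 (tendsto_const_nhds.congr' (h.mono fun x hx => hx.symm))
  rw [eval_F] at h3
  simpa using h3

theorem DivA_notP {δ : ℝ} (hδ : ∀ j, δ * ‖ofR (A.P j)‖ < 1) {p0 : V} (h0 : p0 ≠ 0)
    (h1 : eval p0 A.φ = 0) (h2 : eval p0 A.ψ = 0) (h3 : ‖p0 2‖ ≤ δ * ‖p0‖) : False := by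
  obtain ⟨j, c, rfl⟩ := A.common h1 h2
  have hc : 0 < ‖c‖ := norm_pos_iff.2 fun hc => h0 (by simp [hc])
  have e1 : ‖(c • ofR (A.P j)) 2‖ = ‖c‖ := by simp [A.P2]
  rw [e1, norm_smul] at h3
  have := hδ j
  nlinarith

theorem DivA_small {l : Filter (ℝ × V)} [l.NeBot] {p0 : V} {δ : ℝ}
    (hp : Tendsto Prod.snd l (𝓝 p0)) (h : ∀ᶠ x in l, ‖x.2 2‖ ≤ δ * ‖x.2‖) :
    ‖p0 2‖ ≤ δ * ‖p0‖ :=
  le_of_tendsto_of_tendsto (((continuous_apply 2).tendsto p0).comp hp).norm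
    (hp.norm.const_mul δ) h

theorem DivA_key {ι : Type*} {l : Filter ι} {s : ι → ℝ} {p : ι → V} {r : Fin 3 → ℝ} {k : Fin 3}
    (hs : Tendsto s l (𝓝 0)) (hp : Tendsto p l (𝓝 (ofR r))) (h2 : r 2 = 0) (hk : r k ≠ 0)
    (hpk : ∀ᶠ i in l, p i k = r k) (hF : ∀ᶠ i in l, eval (p i) (A.F (s i)) = 0)
    (hn : ∀ᶠ i in l, ‖eval (p i) A.φ‖ = ‖eval (p i) A.ψ‖) :
    ∀ᶠ i in l, p i - star (p i) = 0 := by
  have hr : r ≠ 0 := fun h => hk (by simp [h])
  have hφ : eval (ofR r) A.φ ≠ 0 := A.φ_real_ne hr h2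
  have hψ : eval (ofR r) A.ψ ≠ 0 := by
    rw [eval_cj_ofR]; simpa using hφ
  have hp' : Tendsto (fun i => star (p i)) l (𝓝 (ofR r)) := by
    have := (continuous_star.tendsto (ofR r)).comp hp
    simp only [Function.comp_def, star_ofR] at this
    exact this
  have hsc : Tendsto (fun i => (s i : ℂ)) l (𝓝 0) := by
    have := (Complex.continuous_ofReal.tendsto 0).comp hs
    simp only [Function.comp_def, Complex.ofReal_zero] at this
    exact this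
  have hs1 : (fun i => (s i : ℂ)) =o[l] fun _ => (1 : ℝ) := (isLittleO_one_iff ℝ).2 hsc
  have hs2 : (fun i => (s i : ℂ) ^ 2) =o[l] fun _ => (1 : ℝ) :=
    (isLittleO_one_iff ℝ).2 (by simpa using hsc.pow 2)
  have small : ∀ {a b : ι → ℂ}, a =o[l] (fun _ => (1 : ℝ)) →
      b =O[l] (fun i => p i - star (p i)) → (fun i => a i * b i) =o[l] fun i => p i - star (p i) := by
    intro a b ha hb
    have h1 := ha.norm_left.mul_isBigO hb.norm_norm
    simp only [one_mul, ← norm_mul] at h1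
    exact h1.of_norm_norm
  refine eventually_eq_zero_of_inj
    (ContinuousLinearMap.proj (R := ℂ) (φ := fun _ : Fin 3 => ℂ) k)
    (dvL (X 2 * A.φ * A.ψ) (ofR r))
    (eval (ofR r) A.ψ • dvL A.φ (ofR r) - eval (ofR r) A.φ • dvL A.ψ (ofR r)) ?_ ?_ ?_ ?_
  · intro x e1 e2 e3
    have x2 : x 2 = 0 := by
      simp only [dvL_apply, dv_mul, dv_X, map_mul, eval_X, ofR_apply, h2, Complex.ofReal_zero,
        zero_mul, add_zero, mul_eq_zero, hφ, hψ, or_false] at e2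
      exact e2
    refine A.simple h2 hk x2 e1 ?_
    simpa only [sub_apply, smul_apply, dvL_apply,
      smul_eq_mul] using e3
  · refine (isLittleO_zero _ _).congr' ?_ EventuallyEq.rfl
    filter_upwards [hpk] with i hi
    simp [hi]
  · have e1 := diff_isLittleO hp hp' (X 2 * A.φ * A.ψ)
    have e2 := small hs1 (diff_isBigO hp hp' A.G)
    have e3 := small hs2 (diff_isBigO hp hp' (X 2 * A.R))
    refine ((e1.add e2).add e3).neg_left.congr' ?_ EventuallyEq.rfl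
    filter_upwards [hF] with i hi
    have hi' : eval (star (p i)) (A.F (s i)) = 0 := by rw [eval_star, cj_F, hi, map_zero]
    rw [eval_F] at hi hi'
    simp only [dvL_apply, map_mul, eval_X]
    linear_combination hi' - hi
  · have e1 := (diff_isLittleO hp hp' A.φ).const_mul_left (eval (ofR r) A.ψ)
    have e2 := (diff_isLittleO hp hp' A.ψ).const_mul_left (eval (ofR r) A.φ)
    have t1 : (fun i => eval (ofR r) A.ψ - eval (star (p i)) A.ψ) =o[l] fun _ => (1 : ℝ) := by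
      refine (isLittleO_one_iff ℝ).2 ?_
      have := (tendsto_eval hp' A.ψ).const_sub (eval (ofR r) A.ψ)
      rwa [sub_self] at this
    have t2 : (fun i => eval (ofR r) A.φ - eval (star (p i)) A.φ) =o[l] fun _ => (1 : ℝ) := by
      refine (isLittleO_one_iff ℝ).2 ?_
      have := (tendsto_eval hp' A.φ).const_sub (eval (ofR r) A.φ)
      rwa [sub_self] at this
    have e3 := small t1 (diff_isBigO hp hp' A.φ)
    have e4 := small t2 (diff_isBigO hp hp' A.ψ)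
    refine (((e2.sub e1).add e3).sub e4).congr' ?_ EventuallyEq.rfl
    filter_upwards [hn] with i hi
    have a1 : eval (star (p i)) A.φ = conj (eval (p i) A.ψ) := eval_star _ _
    have a2 : eval (star (p i)) A.ψ = conj (eval (p i) A.φ) := by rw [eval_star, cj_cj]
    have a3 : eval (p i) A.φ * eval (star (p i)) A.ψ = eval (star (p i)) A.φ * eval (p i) A.ψ := by
      rw [a1, a2, Complex.mul_conj, mul_comm, Complex.mul_conj, Complex.normSq_eq_norm_sq,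
        Complex.normSq_eq_norm_sq, hi]
    simp only [sub_apply, smul_apply, dvL_apply,
      smul_eq_mul]
    linear_combination (-1 : ℂ) * a3

theorem divA {δ : ℝ} (hδ : ∀ j, δ * ‖ofR (A.P j)‖ < 1) : ∀ᶠ s in 𝓝[>] (0 : ℝ), ∀ p : V, p ≠ 0 →
    eval p (A.F s) = 0 → ‖p 2‖ ≤ δ * ‖p‖ → ‖eval p A.φ‖ = ‖eval p A.ψ‖ → Re3 p := by
  have hsc : ∀ (s : ℝ) (p : V) (c : ℂ), c ≠ 0 → (eval p (A.F s) = 0 ∧ ‖p 2‖ ≤ δ * ‖p‖ ∧
      ‖eval p A.φ‖ = ‖eval p A.ψ‖ ∧ ¬ Re3 p) → (eval (c • p) (A.F s) = 0 ∧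
      ‖(c • p) 2‖ ≤ δ * ‖c • p‖ ∧ ‖eval (c • p) A.φ‖ = ‖eval (c • p) A.ψ‖ ∧ ¬ Re3 (c • p)) := by
    rintro s p c hc ⟨h1, h2, h3, h4⟩
    refine ⟨by rw [eval_smul_hom (A.F_hom s), h1, mul_zero], ?_, ?_, by rwa [re3_smul_iff hc]⟩
    · rw [Pi.smul_apply, norm_smul, norm_smul, mul_left_comm]
      exact mul_le_mul_of_nonneg_left h2 (norm_nonneg _)
    · rw [eval_smul_hom A.φ_hom, eval_smul_hom A.ψ_hom, norm_mul, norm_mul, h3]
  have := eventually_forall_of_local (fun s p => eval p (A.F s) = 0 ∧ ‖p 2‖ ≤ δ * ‖p‖ ∧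
      ‖eval p A.φ‖ = ‖eval p A.ψ‖ ∧ ¬ Re3 p) hsc ?_
  · filter_upwards [this] with s h p hp h1 h2 h3
    by_contra h4
    exact h p hp ⟨h1, h2, h3, h4⟩
  intro l _ p0 h0 hs hp hQ
  have l1 := A.DivA_lim hs hp (hQ.mono fun x hx => hx.1)
  have l2 := DivA_small hp (hQ.mono fun x hx => hx.2.1)
  have l3 : ‖eval p0 A.φ‖ = ‖eval p0 A.ψ‖ :=
    tendsto_nhds_unique_of_eventuallyEq (tendsto_eval hp A.φ).norm (tendsto_eval hp A.ψ).norm
      (hQ.mono fun x hx => hx.2.2.1)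
  by_cases hφ : eval p0 A.φ = 0
  · exact A.DivA_notP hδ h0 hφ (by rw [← norm_eq_zero, ← l3, hφ, norm_zero]) l2
  have hψ : eval p0 A.ψ ≠ 0 := fun h => hφ (by rw [← norm_eq_zero, l3, h, norm_zero])
  have z0 : p0 2 = 0 := by simpa [hφ, hψ] using l1
  obtain ⟨c, r, hc, rfl⟩ := (A.re3_of_norm_eq z0 l3).exists_ofR h0
  have r2 : r 2 = 0 := by simpa [hc] using z0
  obtain ⟨k, hk⟩ : ∃ k, r k ≠ 0 := by
    by_contra hn
    push Not at hn
    exact h0 (by ext i; simp [hn])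
  have hk' : (r k : ℂ) ≠ 0 := by exact_mod_cast hk
  have hpk : Tendsto (fun x : ℝ × V => x.2 k) l (𝓝 (c * r k)) :=
    ((continuous_apply k).tendsto _).comp hp
  have hne : ∀ᶠ x in l, x.2 k ≠ 0 := hpk.eventually_ne (mul_ne_zero hc hk')
  have hp' : Tendsto (fun x : ℝ × V => ((r k : ℂ) / x.2 k) • x.2) l (𝓝 (ofR r)) := by
    have h1 := ((tendsto_const_nhds (x := (r k : ℂ))).div hpk (mul_ne_zero hc hk')).smul hp
    have h2 : ((r k : ℂ) / (c * r k)) • c • ofR r = ofR r := by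
      rw [smul_smul, show (r k : ℂ) / (c * r k) * c = 1 by field_simp, one_smul]
    rw [h2] at h1
    exact h1
  have hQ' := (hQ.and hne).mono fun x hx => hsc x.1 x.2 _ (div_ne_zero hk' hx.2) hx.1
  have key := A.DivA_key (hs.mono_right nhdsWithin_le_nhds) hp' r2 hk
    (hne.mono fun x hx => by simp [hx]) (hQ'.mono fun x hx => hx.1)
    (hQ'.mono fun x hx => hx.2.2.1)
  obtain ⟨x, h1, h2⟩ := (key.and hQ').exists
  exact h2.2.2.2 (re3_of_star_eq (sub_eq_zero.1 h1).symm)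

theorem divC {δ : ℝ} (h0 : 0 < δ) (hδ : ∀ j, δ * ‖ofR (A.P j)‖ < 1) :
    ∀ᶠ s in 𝓝[>] (0 : ℝ), ∀ p : V, p ≠ 0 → eval p (A.F s) = 0 → δ / 2 * ‖p‖ ≤ ‖p 2‖ →
      ‖p 2‖ ≤ δ * ‖p‖ → ‖eval p A.φ‖ ≤ ‖eval p A.ψ‖ →
      ‖eval p (A.φt s)‖ < ‖eval p (A.ψt s)‖ := by
  have := eventually_forall_of_local (fun s p => eval p (A.F s) = 0 ∧ δ / 2 * ‖p‖ ≤ ‖p 2‖ ∧
      ‖p 2‖ ≤ δ * ‖p‖ ∧ ‖eval p A.φ‖ ≤ ‖eval p A.ψ‖ ∧
      ‖eval p (A.ψt s)‖ ≤ ‖eval p (A.φt s)‖) ?_ ?_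
  · filter_upwards [this] with s h p hp h1 h2 h3 h4
    by_contra h5
    exact h p hp ⟨h1, h2, h3, h4, not_lt.1 h5⟩
  · rintro s p c hc ⟨h1, h2, h3, h4, h5⟩
    refine ⟨by rw [eval_smul_hom (A.F_hom s), h1, mul_zero], ?_, ?_, ?_, ?_⟩
    · rw [Pi.smul_apply, norm_smul, norm_smul, mul_left_comm]
      exact mul_le_mul_of_nonneg_left h2 (norm_nonneg _)
    · rw [Pi.smul_apply, norm_smul, norm_smul, mul_left_comm]
      exact mul_le_mul_of_nonneg_left h3 (norm_nonneg _)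
    · rw [eval_smul_hom A.φ_hom, eval_smul_hom A.ψ_hom, norm_mul, norm_mul]
      exact mul_le_mul_of_nonneg_left h4 (norm_nonneg _)
    · rw [eval_smul_hom (A.φt_hom s), eval_smul_hom (A.ψt_hom s), norm_mul, norm_mul]
      exact mul_le_mul_of_nonneg_left h5 (norm_nonneg _)
  intro l _ p0 hp0 hs hp hQ
  have l1 := A.DivA_lim hs hp (hQ.mono fun x hx => hx.1)
  have l2 := DivA_small hp (hQ.mono fun x hx => hx.2.2.1)
  have hz : Tendsto (fun x : ℝ × V => x.2 2) l (𝓝 (p0 2)) :=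
    ((continuous_apply 2).tendsto p0).comp hp
  have l3 : δ / 2 * ‖p0‖ ≤ ‖p0 2‖ :=
    le_of_tendsto_of_tendsto (hp.norm.const_mul (δ / 2)) hz.norm (hQ.mono fun x hx => hx.2.1)
  have l4 : ‖eval p0 A.φ‖ ≤ ‖eval p0 A.ψ‖ :=
    le_of_tendsto_of_tendsto (tendsto_eval hp A.φ).norm (tendsto_eval hp A.ψ).norm
      (hQ.mono fun x hx => hx.2.2.2.1)
  have hsc : Tendsto (fun x : ℝ × V => (x.1 : ℂ)) l (𝓝 0) := by
    have := (Complex.continuous_ofReal.tendsto 0).comp (hs.mono_right nhdsWithin_le_nhds)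
    simp only [Function.comp_def, Complex.ofReal_zero] at this
    exact this
  have l5 : ‖p0 2 * eval p0 A.ψ + 0 * eval p0 (cj A.W)‖ ≤ ‖p0 2 * eval p0 A.φ + 0 * eval p0 A.W‖ :=
    le_of_tendsto_of_tendsto
      ((hz.mul (tendsto_eval hp A.ψ)).add (hsc.mul (tendsto_eval hp (cj A.W)))).norm
      ((hz.mul (tendsto_eval hp A.φ)).add (hsc.mul (tendsto_eval hp A.W))).norm
      (hQ.mono fun x hx => by
        have := hx.2.2.2.2
        rw [eval_ψt, eval_φt] at this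
        exact this)
  have z0 : 0 < ‖p0 2‖ := lt_of_lt_of_le (mul_pos (half_pos h0) (norm_pos_iff.2 hp0)) l3
  simp only [zero_mul, add_zero, norm_mul] at l5
  have l6 : ‖eval p0 A.ψ‖ ≤ ‖eval p0 A.φ‖ := le_of_mul_le_mul_left l5 z0
  have hφ : eval p0 A.φ = 0 := by
    rcases mul_eq_zero.1 l1 with h | h
    · exact (mul_eq_zero.1 h).resolve_left (norm_pos_iff.1 z0)
    · rw [h, norm_zero] at l4
      exact norm_le_zero_iff.1 l4
  rw [hφ, norm_zero] at l6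
  exact A.DivA_notP hδ hp0 hφ (norm_le_zero_iff.1 l6) l2

end Fam

end Pool.Agent.MP_42957e_ag
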