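import Pool.Agent.MP_42957e_ag.DivA

set_option autoImplicit false

namespace Pool.Agent.MP_42957e_ag

open MvPolynomial Filter Topology Asymptotics
open scoped ComplexConjugate

theorem divB_alg {a b T : ℂ} {s m : ℝ} (hs : 0 < s) (hm : 0 < m) (h : a * b = (s : ℂ) ^ 2 * T)
    (hn : ‖a‖ = ‖b‖) (hT : m ^ 2 ≤ T.re) : ‖a - conj b‖ ≤ m⁻¹ * (s * ‖T - conj T‖) := by
  have hb2 : ‖b‖ ^ 2 = s ^ 2 * ‖T‖ := by
    have := congrArg norm h
    rw [norm_mul, norm_mul, norm_pow, Complex.norm_real, Real.norm_of_nonneg hs.le, hn] at this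
    rw [← this]; ring
  have hre : T.re ≤ ‖T‖ := Complex.re_le_norm T
  have hb : s * m ≤ ‖b‖ := by
    refine (pow_le_pow_iff_left₀ (by positivity) (norm_nonneg _) two_ne_zero).1 ?_
    rw [hb2, mul_pow]
    exact mul_le_mul_of_nonneg_left (hT.trans hre) (by positivity)
  have e : (a - conj b) * b = (s : ℂ) ^ 2 * (T - (‖T‖ : ℂ)) := by
    have e2 : ((‖b‖ : ℂ)) ^ 2 = (s : ℂ) ^ 2 * (‖T‖ : ℂ) := by exact_mod_cast hb2
    rw [sub_mul, Complex.conj_mul', h, e2]; ring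
  have h3 : ‖T - (‖T‖ : ℂ)‖ ≤ ‖T - conj T‖ := by
    have h0 : 0 ≤ T.re := le_trans (by positivity) hT
    have h1 := Complex.norm_le_abs_re_add_abs_im T
    have h2 := Complex.norm_le_abs_re_add_abs_im (T - (‖T‖ : ℂ))
    rw [abs_of_nonneg h0] at h1
    simp only [Complex.sub_re, Complex.ofReal_re, Complex.sub_im, Complex.ofReal_im,
      sub_zero] at h2
    rw [abs_of_nonpos (sub_nonpos.2 hre)] at h2
    rw [Complex.sub_conj, norm_mul, Complex.norm_I, Complex.norm_real, Real.norm_eq_abs, abs_mul,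
      abs_two]
    linarith
  have h4 : ‖a - conj b‖ * ‖b‖ = s ^ 2 * ‖T - (‖T‖ : ℂ)‖ := by
    rw [← norm_mul, e, norm_mul, norm_pow, Complex.norm_real, Real.norm_of_nonneg hs.le]
  rw [← div_eq_inv_mul, le_div_iff₀ hm]
  refine le_of_mul_le_mul_left ?_ hs
  calc s * (‖a - conj b‖ * m) = ‖a - conj b‖ * (s * m) := by ring
    _ ≤ ‖a - conj b‖ * ‖b‖ := mul_le_mul_of_nonneg_left hb (norm_nonneg _)
    _ ≤ s ^ 2 * ‖T - conj T‖ := by rw [h4]; exact mul_le_mul_of_nonneg_left h3 (by positivity)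
    _ = _ := by ring

theorem divB_small {ι : Type*} {l : Filter ι} {s : ι → ℝ} {v : ι → V} {g : ι → ℂ}
    (hs : Tendsto s l (𝓝 0)) (hg : g =O[l] v) : (fun i => (s i : ℂ) * g i) =o[l] v := by
  have h1 : Tendsto (fun i => (s i : ℂ)) l (𝓝 0) := by
    have := (Complex.continuous_ofReal.tendsto 0).comp hs
    simp only [Function.comp_def, Complex.ofReal_zero] at this
    exact this
  have h2 := ((isLittleO_one_iff ℝ).2 h1).norm_left.mul_isBigO hg.norm_norm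
  simp only [one_mul, ← norm_mul] at h2
  exact h2.of_norm_norm

theorem divB_dv {ι : Type*} {l : Filter ι} {s : ι → ℝ} {q q' : ι → V} {p0 : V}
    (hs : Tendsto s l (𝓝 0)) (hq : Tendsto q l (𝓝 p0)) (hq' : Tendsto q' l (𝓝 p0)) (K W : CP)
    {g : ι → ℂ} (hg : g =o[l] fun i => q i - q' i)
    (he : ∀ᶠ i in l, g i = (eval (q i) K + s i * eval (q i) W) -
      (eval (q' i) K + s i * eval (q' i) W)) :
    (fun i => dvL K p0 (q i - q' i)) =o[l] fun i => q i - q' i := by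
  have h1 := (hg.sub (divB_small hs (diff_isBigO hq hq' W))).sub (diff_isLittleO hq hq' K)
  refine h1.congr' ?_ EventuallyEq.rfl
  filter_upwards [he] with i hi
  rw [hi, dvL_apply]; ring

namespace Fam

variable (A : Fam)

theorem divB_core {ι : Type*} {l : Filter ι} {s : ι → ℝ} {q : ι → V} (j : Fin 9)
    (hs : Tendsto s l (𝓝[>] 0)) (hq : Tendsto q l (𝓝 (ofR (A.P j))))
    (h : ∀ᶠ i in l, q i 2 = 1 ∧ eval (q i) (A.F (s i)) = 0 ∧
      ‖eval (q i) (A.φt (s i))‖ = ‖eval (q i) (A.ψt (s i))‖) : ∀ᶠ i in l, Re3 (q i) := by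
  obtain ⟨hs0, hs1⟩ := tendsto_nhdsWithin_iff.1 hs
  have hq' : Tendsto (fun i => star (q i)) l (𝓝 (ofR (A.P j))) := by
    have := hq.star
    rwa [star_ofR] at this
  have hT := tendsto_eval hq A.T
  rw [A.T_P] at hT
  have hre : ∀ᶠ i in l, A.η / 2 ≤ (eval (q i) A.T).re := by
    have := (Complex.continuous_re.tendsto _).comp hT
    simp only [Function.comp_def, Complex.ofReal_re] at this
    exact this.eventually_const_le (half_lt_self A.η_pos)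
  have hTd := divB_small hs0 (diff_isBigO hq hq' A.T)
  have hm : 0 < √(A.η / 2) := Real.sqrt_pos.2 (half_pos A.η_pos)
  have key : ∀ a b : ι → ℂ, (∀ᶠ i in l, a i * b i = (s i : ℂ) ^ 2 * eval (q i) A.T ∧
      ‖a i‖ = ‖b i‖) → (fun i => a i - conj (b i)) =o[l] fun i => q i - star (q i) := by
    intro a b hab
    refine IsBigO.trans_isLittleO (IsBigO.of_bound (√(A.η / 2))⁻¹ ?_) hTd
    filter_upwards [hab, hre, hs1] with i h1 h2 h3
    have h4 := divB_alg h3 hm h1.1 h1.2 (by rwa [Real.sq_sqrt (half_pos A.η_pos).le])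
    rwa [norm_mul, Complex.norm_real, Real.norm_of_nonneg (le_of_lt h3), eval_star, A.cj_T]
  have hab : ∀ᶠ i in l, eval (q i) (A.φt (s i)) * eval (q i) (A.ψt (s i)) =
      (s i : ℂ) ^ 2 * eval (q i) A.T := by
    filter_upwards [h] with i hi
    have := A.mul_eval_F (s i) (q i)
    rw [hi.2.1, mul_zero] at this
    exact sub_eq_zero.1 this.symm
  have k1 := key (fun i => eval (q i) (A.φt (s i))) (fun i => eval (q i) (A.ψt (s i)))
    (by filter_upwards [hab, h] with i h1 h2 using ⟨h1, h2.2.2⟩)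
  have k2 := key (fun i => eval (q i) (A.ψt (s i))) (fun i => eval (q i) (A.φt (s i)))
    (by filter_upwards [hab, h] with i h1 h2 using ⟨by rw [mul_comm, h1], h2.2.2.symm⟩)
  have d1 := divB_dv hs0 hq hq' A.φ A.W k1 (by
    filter_upwards [h] with i hi
    rw [← A.cj_φt, ← eval_star, A.eval_φt, A.eval_φt, Pi.star_apply, hi.1, star_one, one_mul,
      one_mul])
  have d2 := divB_dv hs0 hq hq' A.ψ (cj A.W) k2 (by
    filter_upwards [h] with i hi
    rw [← A.cj_ψt, ← eval_star, A.eval_ψt, A.eval_ψt, Pi.star_apply, hi.1, star_one, one_mul,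
      one_mul])
  have d3 : (fun i => ContinuousLinearMap.proj (R := ℂ) (φ := fun _ : Fin 3 => ℂ) 2
      (q i - star (q i))) =o[l] fun i => q i - star (q i) := by
    refine (isLittleO_zero _ _).congr' ?_ EventuallyEq.rfl
    filter_upwards [h] with i hi
    simp [hi.1]
  have := eventually_eq_zero_of_inj _ _ _ (fun x h0 h1 h2 => A.inj_P j x h0
    (by rwa [dvL_apply] at h1) (by rwa [dvL_apply] at h2)) d3 d1 d2
  filter_upwards [this] with i hi
  exact re3_of_star_eq (sub_eq_zero.1 hi).symm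

theorem divB {δ : ℝ} (h0 : 0 < δ) : ∀ᶠ s in 𝓝[>] (0 : ℝ), ∀ p : V, p ≠ 0 →
    eval p (A.F s) = 0 → δ / 2 * ‖p‖ ≤ ‖p 2‖ → ‖eval p (A.φt s)‖ = ‖eval p (A.ψt s)‖ →
    Re3 p := by
  have hsc : ∀ (s : ℝ) (p : V) (c : ℂ), c ≠ 0 → (eval p (A.F s) = 0 ∧ δ / 2 * ‖p‖ ≤ ‖p 2‖ ∧
      ‖eval p (A.φt s)‖ = ‖eval p (A.ψt s)‖ ∧ ¬ Re3 p) → (eval (c • p) (A.F s) = 0 ∧
      δ / 2 * ‖c • p‖ ≤ ‖(c • p) 2‖ ∧
      ‖eval (c • p) (A.φt s)‖ = ‖eval (c • p) (A.ψt s)‖ ∧ ¬ Re3 (c • p)) := by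
    rintro s p c hc ⟨h1, h2, h3, h4⟩
    refine ⟨by rw [eval_smul_hom (A.F_hom s), h1, mul_zero], ?_, ?_, by rwa [re3_smul_iff hc]⟩
    · rw [Pi.smul_apply, norm_smul, norm_smul, mul_left_comm]
      exact mul_le_mul_of_nonneg_left h2 (norm_nonneg _)
    · rw [eval_smul_hom (A.φt_hom s), eval_smul_hom (A.ψt_hom s), norm_mul, norm_mul, h3]
  have := eventually_forall_of_local (fun s p => eval p (A.F s) = 0 ∧ δ / 2 * ‖p‖ ≤ ‖p 2‖ ∧
      ‖eval p (A.φt s)‖ = ‖eval p (A.ψt s)‖ ∧ ¬ Re3 p) hsc ?_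
  · filter_upwards [this] with s hs p hp h1 h2 h3
    by_contra h4
    exact hs p hp ⟨h1, h2, h3, h4⟩
  intro l _ p0 hp0 hs hp hQ
  have hs0 : Tendsto Prod.fst l (𝓝 0) := (tendsto_nhdsWithin_iff.1 hs).1
  have hl : Tendsto id l (𝓝 ((0 : ℝ), p0)) := hs0.prodMk_nhds hp
  have lim : ∀ f : ℝ × V → ℝ, Continuous f → (∀ᶠ x in l, 0 ≤ f x) → 0 ≤ f (0, p0) :=
    fun f hf h => ge_of_tendsto ((hf.tendsto _).comp hl) h
  have hz : p0 2 ≠ 0 := by
    have := lim (fun x => ‖x.2 2‖ - δ / 2 * ‖x.2‖) (by fun_prop)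
      (hQ.mono fun x hx => sub_nonneg.2 hx.2.1)
    have h1 : 0 < δ / 2 * ‖p0‖ := mul_pos (half_pos h0) (norm_pos_iff.2 hp0)
    rw [← norm_pos_iff]
    linarith
  have hF : eval p0 A.φ * eval p0 A.ψ = 0 := by
    have := lim (fun x => - ‖eval x.2 (A.F x.1)‖) A.continuous_F.norm.neg
      (hQ.mono fun x hx => by simp [hx.1])
    simp only [eval_F, Complex.ofReal_zero, zero_mul, add_zero, ne_eq, OfNat.ofNat_ne_zero,
      not_false_eq_true, zero_pow, Left.nonneg_neg_iff, norm_le_zero_iff, mul_assoc] at this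
    exact (mul_eq_zero.1 this).resolve_left hz
  have hc : Continuous fun x : ℝ × V => ‖eval x.2 (A.φt x.1)‖ - ‖eval x.2 (A.ψt x.1)‖ := by
    simp only [eval_φt, eval_ψt]; fun_prop
  have hN : ‖eval p0 A.φ‖ = ‖eval p0 A.ψ‖ := by
    have h1 := lim _ hc (hQ.mono fun x hx => (sub_eq_zero.2 hx.2.2.1).ge)
    have h2 := lim _ hc.neg (hQ.mono fun x hx => by simp [hx.2.2.1])
    simp only [Pi.neg_apply, eval_φt, eval_ψt, Complex.ofReal_zero, zero_mul, add_zero,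
      norm_mul] at h1 h2
    exact mul_left_cancel₀ (norm_ne_zero_iff.2 hz) (by linarith)
  have h12 : eval p0 A.φ = 0 ∧ eval p0 A.ψ = 0 := by
    rcases mul_eq_zero.1 hF with h | h
    · exact ⟨h, by rwa [h, norm_zero, eq_comm, norm_eq_zero] at hN⟩
    · exact ⟨by rwa [h, norm_zero, norm_eq_zero] at hN, h⟩
  obtain ⟨j, c, hj⟩ := A.common h12.1 h12.2
  have hc2 : p0 2 = c := by rw [hj]; simp [A.P2]
  have hp2 : Tendsto (fun x : ℝ × V => x.2 2) l (𝓝 (p0 2)) :=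
    ((continuous_apply 2).tendsto p0).comp hp
  have hq : Tendsto (fun x : ℝ × V => (x.2 2)⁻¹ • x.2) l (𝓝 (ofR (A.P j))) := by
    have := (hp2.inv₀ hz).smul hp
    rwa [hc2, hj, smul_smul, inv_mul_cancel₀ (hc2 ▸ hz), one_smul] at this
  have hQ' := (hQ.and (hp2.eventually_ne hz)).mono fun x hx =>
    And.intro hx.2 (hsc _ _ _ (inv_ne_zero hx.2) hx.1)
  have := A.divB_core j hs hq (hQ'.mono fun x hx =>
    ⟨by simp [hx.1], hx.2.1, hx.2.2.2.1⟩)
  obtain ⟨x, h1, h2⟩ := (this.and hQ').exists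
  exact h2.2.2.2.2 h1

theorem div : ∀ᶠ s in 𝓝[>] (0 : ℝ), ∃ U : Set V, IsOpen U ∧
    (∀ c : ℂ, c ≠ 0 → ∀ p ∈ U, c • p ∈ U) ∧
    (∀ p ∈ U, p ≠ 0 → eval p (A.F s) = 0 → star p ∉ U) ∧
    ∀ p : V, p ≠ 0 → eval p (A.F s) = 0 → ¬ Re3 p → p ∈ U ∨ star p ∈ U := by
  obtain ⟨δ, hδ, h0⟩ : ∃ δ : ℝ, (∀ j, δ * ‖ofR (A.P j)‖ < 1) ∧ 0 < δ := by
    have h1 : ∀ᶠ δ in 𝓝 (0 : ℝ), ∀ j, δ * ‖ofR (A.P j)‖ < 1 := eventually_all.2 fun j =>
      ContinuousAt.eventually_lt (by fun_prop) continuousAt_const (by simp)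
    exact ((h1.filter_mono (nhdsWithin_le_nhds (s := Set.Ioi 0))).and self_mem_nhdsWithin).exists
  filter_upwards [A.divA hδ, A.divC h0 hδ, A.divB h0] with s hA hC hB
  have n1 : ∀ p : V, ‖star p 2‖ = ‖p 2‖ := fun p => by rw [Pi.star_apply, norm_star]
  have n2 : ∀ p : V, ‖eval (star p) A.φ‖ = ‖eval p A.ψ‖ := fun p => by
    rw [eval_star, Complex.norm_conj]
  have n3 : ∀ p : V, ‖eval (star p) A.ψ‖ = ‖eval p A.φ‖ := fun p => by
    rw [eval_star, Complex.norm_conj, cj_cj]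
  have n4 : ∀ p : V, ‖eval (star p) (A.φt s)‖ = ‖eval p (A.ψt s)‖ := fun p => by
    rw [eval_star, Complex.norm_conj, A.cj_φt]
  have n5 : ∀ p : V, ‖eval (star p) (A.ψt s)‖ = ‖eval p (A.φt s)‖ := fun p => by
    rw [eval_star, Complex.norm_conj, A.cj_ψt]
  refine ⟨{p | (‖p 2‖ < δ * ‖p‖ ∧ ‖eval p A.φ‖ < ‖eval p A.ψ‖) ∨
    (δ / 2 * ‖p‖ < ‖p 2‖ ∧ ‖eval p (A.φt s)‖ < ‖eval p (A.ψt s)‖)}, ?_, ?_, ?_, ?_⟩
  · simp only [Set.ofPred_or, Set.ofPred_and]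
    refine IsOpen.union (IsOpen.inter ?_ ?_) (IsOpen.inter ?_ ?_) <;>
      exact isOpen_lt (by fun_prop) (by fun_prop)
  · intro c hc p hp
    have c1 : 0 < ‖c‖ := norm_pos_iff.2 hc
    have c2 : ∀ n : ℕ, 0 < ‖c ^ n‖ := fun n => norm_pos_iff.2 (pow_ne_zero n hc)
    simp only [Set.mem_ofPred_eq, Pi.smul_apply, norm_smul, eval_smul_hom A.φ_hom,
      eval_smul_hom A.ψ_hom, eval_smul_hom (A.φt_hom s), eval_smul_hom (A.ψt_hom s), norm_mul,
      mul_left_comm _ ‖c‖, mul_lt_mul_iff_right₀ c1, mul_lt_mul_iff_right₀ (c2 _)]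
    exact hp
  · intro p hp hp0 hF hp'
    simp only [Set.mem_ofPred_eq, n1, n2, n3, n4, n5, norm_star] at hp hp'
    rcases hp with hp | hp <;> rcases hp' with hp' | hp'
    · exact lt_asymm hp.2 hp'.2
    · exact lt_asymm (hC p hp0 hF hp'.1.le hp.1.le hp.2.le) hp'.2
    · have := hC (star p) (star_ne_zero.2 hp0) (by rw [eval_star, A.cj_F, hF, map_zero])
        (by rw [n1, norm_star]; exact hp.1.le) (by rw [n1, norm_star]; exact hp'.1.le)
        (by rw [n2, n3]; exact hp'.2.le)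
      rw [n4, n5] at this
      exact lt_asymm this hp.2
    · exact lt_asymm hp.2 hp'.2
  · intro p hp0 hF hR
    simp only [Set.mem_ofPred_eq, n1, n2, n3, n4, n5, norm_star]
    rcases lt_or_ge ‖p 2‖ (δ * ‖p‖) with h | h
    · rcases lt_trichotomy ‖eval p A.φ‖ ‖eval p A.ψ‖ with h' | h' | h'
      · exact Or.inl (Or.inl ⟨h, h'⟩)
      · exact absurd (hA p hp0 hF h.le h') hR
      · exact Or.inr (Or.inl ⟨h, h'⟩)
    · have h1 : δ / 2 * ‖p‖ < ‖p 2‖ := by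
        have := mul_pos h0 (norm_pos_iff.2 hp0)
        linarith
      rcases lt_trichotomy ‖eval p (A.φt s)‖ ‖eval p (A.ψt s)‖ with h' | h' | h'
      · exact Or.inl (Or.inr ⟨h1, h'⟩)
      · exact absurd (hB p hp0 hF h1.le h') hR
      · exact Or.inr (Or.inr ⟨h1, h'⟩)

end Fam

end Pool.Agent.MP_42957e_ag
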