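import Pool.Agent.MP_42957e_ag.DataB

set_option autoImplicit false

namespace Pool.Agent.MP_42957e_ag

open MvPolynomial Filter Topology Asymptotics
open scoped ComplexConjugate

theorem exFam_prod_le {t0 t1 : ℂ} {B : ℝ} (hB : 0 ≤ B) (S : Multiset ℂ)
    (h : ∀ r ∈ S, ‖t1 - r‖ ≤ B * ‖t0 - r‖) :
    ‖(S.map fun r => t1 - r).prod‖ ≤ B ^ S.card * ‖(S.map fun r => t0 - r).prod‖ := by
  induction S using Multiset.induction_on with
  | empty => simp
  | cons a S ih =>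
    simp only [Multiset.map_cons, Multiset.prod_cons, norm_mul, Multiset.card_cons, pow_succ]
    have h1 := h a (Multiset.mem_cons_self _ _)
    have h2 := ih fun r hr => h r (Multiset.mem_cons_of_mem hr)
    calc _ ≤ (B * ‖t0 - a‖) * (B ^ S.card * ‖(S.map fun r => t0 - r).prod‖) :=
          mul_le_mul h1 h2 (norm_nonneg _) (by positivity)
      _ = _ := by ring

theorem exFam_poly_le {t0 t1 : ℂ} (h0 : 0 < t0.im) (p : Polynomial ℂ)
    (hp : ∀ r, p.eval r = 0 → r.im = 0) (hd : p.natDegree ≤ 19) :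
    ‖p.eval t1‖ ≤ (1 + ‖t1 - t0‖ / t0.im) ^ 19 * ‖p.eval t0‖ := by
  set B := 1 + ‖t1 - t0‖ / t0.im with hB
  have hB1 : 1 ≤ B := by rw [hB]; exact le_add_of_nonneg_right (by positivity)
  have hc : p.roots.card = p.natDegree := IsAlgClosed.card_roots_eq_natDegree
  have he : ∀ t, p.eval t = p.leadingCoeff * (p.roots.map fun r => t - r).prod := by
    intro t
    conv_lhs => rw [← Polynomial.C_leadingCoeff_mul_prod_multiset_X_sub_C hc]
    simp [Polynomial.eval_multiset_prod]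
  have h1 := exFam_prod_le (t0 := t0) (t1 := t1) (zero_le_one.trans hB1) p.roots (by
    intro r hr
    have h2 : r.im = 0 := hp r (Polynomial.isRoot_of_mem_roots hr)
    have h3 : t0.im ≤ ‖t0 - r‖ := by
      have := Complex.im_le_norm (t0 - r)
      simpa [h2] using this
    have h4 : ‖t1 - r‖ ≤ ‖t1 - t0‖ + ‖t0 - r‖ := norm_sub_le_norm_sub_add_norm_sub _ _ _
    have h5 : ‖t1 - t0‖ ≤ ‖t1 - t0‖ / t0.im * ‖t0 - r‖ := by
      calc ‖t1 - t0‖ = ‖t1 - t0‖ / t0.im * t0.im := by field_simp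
        _ ≤ _ := mul_le_mul_of_nonneg_left h3 (by positivity)
    rw [hB]; linarith)
  rw [he, he, norm_mul, norm_mul]
  have h6 : B ^ p.roots.card ≤ B ^ 19 := pow_le_pow_right₀ hB1 (hc ▸ hd)
  calc _ ≤ ‖p.leadingCoeff‖ * (B ^ 19 * ‖(p.roots.map fun r => t0 - r).prod‖) :=
        mul_le_mul_of_nonneg_left
          (h1.trans (mul_le_mul_of_nonneg_right h6 (norm_nonneg _))) (norm_nonneg _)
    _ = _ := by ring

theorem exFam_mu {A1 B1 A2 B2 : ℂ} (h1 : B1 ≠ 0) (h2 : B2 ≠ 0) {M : ℝ} (hM : 0 ≤ M) :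
    ∃ μ : ℂ, M ≤ ‖A1 + μ * B1‖ ∧ A2 + μ * B2 ≠ 0 := by
  by_cases h : A2 + ((M - A1) / B1) * B2 = 0
  · refine ⟨(((M + 1 : ℝ) : ℂ) - A1) / B1, ?_, fun h' => ?_⟩
    · rw [div_mul_cancel₀ _ h1, add_sub_cancel, Complex.norm_real,
        Real.norm_of_nonneg (by linarith)]
      linarith
    · have : B1⁻¹ * B2 = 0 := by
        push_cast at h'
        linear_combination h' - h
      exact mul_ne_zero (inv_ne_zero h1) h2 this
  · refine ⟨_, ?_, h⟩
    rw [div_mul_cancel₀ _ h1, add_sub_cancel, Complex.norm_real, Real.norm_of_nonneg hM]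

/-- the line through the points with parameters `r1`, `r2` -/
noncomputable def Data.exLine (D : Data) (r1 r2 : ℂ) : CP :=
  lf (D.a 2) - C (r1 + r2 + (r1 * r2)⁻¹) * lf (D.a 1) +
    C (r1 * r2 + (r1 + r2) * (r1 * r2)⁻¹) * lf (D.a 0)

theorem Data.exLine_hom (D : Data) (r1 r2 : ℂ) : (D.exLine r1 r2).IsHomogeneous 1 :=
  ((lf_hom _).sub ((lf_hom _).C_mul _)).add ((lf_hom _).C_mul _)

theorem Data.exLine_P (D : Data) {r1 r2 : ℂ} (h1 : r1 ≠ 0) (h2 : r2 ≠ 0) (j : Fin 9) :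
    D.u j * eval (ofR (D.P j)) (D.exLine r1 r2) =
      (D.θ j - r1) * (D.θ j - r2) * (D.θ j - (r1 * r2)⁻¹) := by
  have h := eval_smul_hom (D.exLine_hom r1 r2) (D.u j) (ofR (D.P j))
  rw [← D.xθ, pow_one] at h
  rw [← h]
  have hX := D.x_X (D.θ j)
  have hY := D.x_Y (D.θ j)
  have hZ := D.x_Z (D.θ j)
  simp only [Data.x] at hX hY hZ
  simp only [Data.exLine, map_add, map_sub, map_mul, eval_C, hX, hY, hZ]
  field_simp
  ring

theorem Data.exLine_left (D : Data) (i j : Fin 9) :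
    eval (ofR (D.P i)) (D.exLine (D.θ i) (D.θ j)) = 0 := by
  have h := D.exLine_P (D.θ_ne_zero i) (D.θ_ne_zero j) i
  rw [sub_self, zero_mul, zero_mul] at h
  exact (mul_eq_zero.1 h).resolve_left (D.u_ne i)

theorem Data.exLine_right (D : Data) (i j : Fin 9) :
    eval (ofR (D.P j)) (D.exLine (D.θ i) (D.θ j)) = 0 := by
  have h := D.exLine_P (D.θ_ne_zero i) (D.θ_ne_zero j) j
  rw [sub_self, mul_zero, zero_mul] at h
  exact (mul_eq_zero.1 h).resolve_left (D.u_ne j)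

theorem Data.exLine_ne (D : Data) {i j k : Fin 9} (hi : k ≠ i) (hj : k ≠ j) :
    eval (ofR (D.P k)) (D.exLine (D.θ i) (D.θ j)) ≠ 0 := by
  intro h0
  have h := D.exLine_P (D.θ_ne_zero i) (D.θ_ne_zero j) k
  rw [h0, mul_zero] at h
  have h1 : D.θ k - D.θ i ≠ 0 := sub_ne_zero.2 fun e => hi (D.θ_inj e)
  have h2 : D.θ k - D.θ j ≠ 0 := sub_ne_zero.2 fun e => hj (D.θ_inj e)
  have h3 : D.θ k = (D.θ i * D.θ j)⁻¹ :=
    sub_eq_zero.1 ((mul_eq_zero.1 h.symm).resolve_left (mul_ne_zero h1 h2))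
  have h4 : D.θ k * (D.θ i * D.θ j) = 1 := by
    rw [h3]; exact inv_mul_cancel₀ (mul_ne_zero (D.θ_ne_zero i) (D.θ_ne_zero j))
  have h5 := D.gen {D.θ k, D.θ i, D.θ j, D.θ k, D.θ i, D.θ j} (by
    intro r hr
    simp only [Multiset.insert_eq_cons, Multiset.mem_cons, Multiset.mem_singleton] at hr
    rcases hr with h | h | h | h | h | h <;> exact Or.inl ⟨_, h⟩) (by simp) (by
    simp only [Multiset.insert_eq_cons, Multiset.prod_cons, Multiset.prod_singleton]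
    linear_combination (D.θ k * (D.θ i * D.θ j) + 1) * h4) 0
  simp only [Multiset.insert_eq_cons, Multiset.mem_cons, Multiset.mem_singleton] at h5
  rcases h5 with h | h | h | h | h | h <;> exact D.θ_ne_γ _ _ h.symm

theorem Data.exists_fam (D : Data) : Nonempty Fam := by
  let Wa : CP := D.exLine (D.θ 0) (D.θ 1) * D.exLine (D.θ 2) (D.θ 3) *
    D.exLine (D.θ 4) (D.θ 5) * D.exLine (D.θ 6) (D.θ 7)
  have hWa : Wa.IsHomogeneous 4 :=
    (((D.exLine_hom _ _).mul (D.exLine_hom _ _)).mul (D.exLine_hom _ _)).mul (D.exLine_hom _ _)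
  have hWa0 : ∀ j, j ≠ 8 → eval (ofR (D.P j)) Wa = 0 := by
    intro j hj
    simp only [Wa, map_mul]
    fin_cases j
    · exact mul_eq_zero_of_left (mul_eq_zero_of_left
        (mul_eq_zero_of_left (D.exLine_left 0 1) _) _) _
    · exact mul_eq_zero_of_left (mul_eq_zero_of_left
        (mul_eq_zero_of_left (D.exLine_right 0 1) _) _) _
    · exact mul_eq_zero_of_left (mul_eq_zero_of_left
        (mul_eq_zero_of_right _ (D.exLine_left 2 3)) _) _
    · exact mul_eq_zero_of_left (mul_eq_zero_of_left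
        (mul_eq_zero_of_right _ (D.exLine_right 2 3)) _) _
    · exact mul_eq_zero_of_left (mul_eq_zero_of_right _ (D.exLine_left 4 5)) _
    · exact mul_eq_zero_of_left (mul_eq_zero_of_right _ (D.exLine_right 4 5)) _
    · exact mul_eq_zero_of_right _ (D.exLine_left 6 7)
    · exact mul_eq_zero_of_right _ (D.exLine_right 6 7)
    · exact absurd rfl hj
  have hWa8 : eval (ofR (D.P 8)) Wa ≠ 0 := by
    simp only [Wa, map_mul]
    exact mul_ne_zero (mul_ne_zero (mul_ne_zero (D.exLine_ne (by decide) (by decide))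
      (D.exLine_ne (by decide) (by decide))) (D.exLine_ne (by decide) (by decide)))
      (D.exLine_ne (by decide) (by decide))
  set ψ0 := eval (zp (D.t 0)) D.ψ with hψ0
  set ψ1 := eval (zp (D.t 1)) D.ψ with hψ1
  set B : ℝ := (1 + ‖D.t 1 - D.t 0‖ / (D.t 0).im) ^ 19 with hB
  have hB0 : 0 ≤ B := by have := D.t_pos 0; rw [hB]; positivity
  have hψ0n : 0 < ‖ψ0‖ := norm_pos_iff.2 (D.ψ_z 0)
  have hψ1n : 0 < ‖ψ1‖ := norm_pos_iff.2 (D.ψ_z 1)
  set y : ℝ := ‖ψ0‖ / ‖ψ1‖ with hy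
  have hy0 : 0 < y := by positivity
  set M : ℝ := 1 + B * (y ^ 2 + y ^ 3) with hM
  have hM1 : 1 ≤ M := le_add_of_nonneg_right (by positivity)
  let k1 : ℂ := (1 - eval (zp (D.t 0)) Wa) / ψ0
  have ht : ∀ i, i ≠ 0 → eval (zp (D.t i)) D.ψ * (D.t i - D.t 0) ≠ 0 := fun i hi =>
    mul_ne_zero (D.ψ_z i) (sub_ne_zero.2 fun e => hi (D.t_inj e))
  obtain ⟨μ, hμ1, hμ2⟩ := exFam_mu (A1 := eval (zp (D.t 1)) Wa + eval (zp (D.t 1)) D.ψ * k1)
    (A2 := eval (zp (D.t 2)) Wa + eval (zp (D.t 2)) D.ψ * k1) (ht 1 (by decide)) (ht 2 (by decide))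
    (zero_le_one.trans hM1)
  let k2 : ℂ := ((1 - eval (D.e 2) Wa) / eval (D.e 2) D.ψ -
    (μ * (D.e 2 0 - D.t 0 * D.e 2 1) + k1 * D.e 2 1)) / D.e 2 2
  let W : CP := Wa + D.ψ * (C μ * (X 0 - C (D.t 0) * X 1) + C k1 * X 1 + C k2 * X 2)
  have hW : W.IsHomogeneous 4 :=
    hWa.add (D.ψ_hom.mul (((((isHomogeneous_X ℂ 0).sub ((isHomogeneous_X ℂ 1).C_mul _)).C_mul _).add
      ((isHomogeneous_X ℂ 1).C_mul _)).add ((isHomogeneous_X ℂ 2).C_mul _)))
  have hWP : ∀ j, eval (ofR (D.P j)) W = eval (ofR (D.P j)) Wa := by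
    intro j
    simp only [W, map_add, map_mul, D.ψ_P, zero_mul, add_zero]
  have hWz : ∀ t, eval (zp t) W = eval (zp t) Wa + eval (zp t) D.ψ * k1 +
      μ * (eval (zp t) D.ψ * (t - D.t 0)) := by
    intro t
    simp only [W, map_add, map_mul, map_sub, eval_C, eval_X]
    simp [zp]
    ring
  have hW0 : eval (zp (D.t 0)) W = 1 := by
    rw [hWz, sub_self, ← hψ0]
    have : ψ0 ≠ 0 := D.ψ_z 0
    have h2 : ψ0 * k1 = 1 - eval (zp (D.t 0)) Wa := mul_div_cancel₀ _ this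
    rw [h2]
    ring
  have hW1 : M ≤ ‖eval (zp (D.t 1)) W‖ := by rw [hWz]; exact hμ1
  have hW2 : eval (zp (D.t 2)) W ≠ 0 := by rw [hWz]; exact hμ2
  have hWe : eval (D.e 2) W = 1 := by
    have h1 : eval (D.e 2) D.ψ ≠ 0 := D.ψe
    have h2 := D.ze
    simp only [W, map_add, map_mul, map_sub, eval_C, eval_X, k2]
    field_simp
    ring
  obtain ⟨ρ, hρ, hcb⟩ := D.exists_cb
  set c : ℝ := ‖ρ 8‖ * ‖eval (ofR (D.P 8)) W‖ with hc
  have hc0 : 0 < c := mul_pos (norm_pos_iff.2 (hρ 8)) (norm_pos_iff.2 (by rw [hWP]; exact hWa8))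
  set s : ℝ := ∑ j, ‖ρ j‖ with hs
  have hs0 : 0 ≤ s := Finset.sum_nonneg fun _ _ => norm_nonneg _
  refine ⟨{ D with
    W := W
    W_hom := hW
    WP := fun j hj => by rw [hWP]; exact hWa0 j hj
    Wz := ?_
    We := by rw [hWe]; exact one_ne_zero
    η := (c / (s + 1)) ^ 2
    η_pos := by positivity
    ρ := ρ
    cb := hcb
    η_lt := ?_
    rat := ?_ }⟩
  · intro i
    fin_cases i
    · exact fun h => one_ne_zero (hW0.symm.trans h)
    · exact norm_pos_iff.1 (lt_of_lt_of_le (zero_lt_one.trans_le hM1) hW1)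
    · exact hW2
  · rw [Real.sqrt_sq (by positivity), ← hs, ← hc, div_mul_eq_mul_div, div_lt_iff₀ (by positivity)]
    nlinarith
  · intro p hp hd w hw1 hw2 κ hκ h
    have h1 := exFam_poly_le (t1 := D.t 1) (D.t_pos 0) p hp hd
    have h2 : p.eval (D.t 0) = κ * ψ0 ^ (w + 1) := by rw [h 0, hW0, one_pow, mul_one]
    have h3 : p.eval (D.t 1) = κ * eval (zp (D.t 1)) W ^ w * ψ1 ^ (w + 1) := h 1
    rw [h2, h3, ← hB] at h1
    simp only [norm_mul, norm_pow] at h1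
    have hκ0 : 0 < ‖κ‖ := norm_pos_iff.2 hκ
    have h4 : M ≤ ‖eval (zp (D.t 1)) W‖ ^ w :=
      hW1.trans (le_self_pow₀ (hM1.trans hW1) (by omega))
    have h5 : ‖ψ0‖ = y * ‖ψ1‖ := by rw [hy]; field_simp
    rw [h5, mul_pow] at h1
    have h6 : ‖κ‖ * ‖ψ1‖ ^ (w + 1) * M ≤ ‖κ‖ * ‖ψ1‖ ^ (w + 1) * (B * y ^ (w + 1)) := by
      calc _ ≤ ‖κ‖ * ‖ψ1‖ ^ (w + 1) * ‖eval (zp (D.t 1)) W‖ ^ w :=
            mul_le_mul_of_nonneg_left h4 (by positivity)
        _ = ‖κ‖ * ‖eval (zp (D.t 1)) W‖ ^ w * ‖ψ1‖ ^ (w + 1) := by ring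
        _ ≤ _ := h1
        _ = _ := by ring
    have h7 : M ≤ B * y ^ (w + 1) := le_of_mul_le_mul_left h6 (by positivity)
    have h8 : 0 ≤ B * y ^ 2 := by positivity
    have h9 : 0 ≤ B * y ^ 3 := by positivity
    interval_cases w
    · norm_num at h7; linarith
    · norm_num at h7; linarith

end Pool.Agent.MP_42957e_ag
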