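import Pool.Agent.MP_42957e_ag.Curve

set_option autoImplicit false

namespace Pool.Agent.MP_42957e_ag

open MvPolynomial Filter Topology Asymptotics
open scoped ComplexConjugate

theorem Meet_contDiff (p0 e e' : V) {n : WithTop ℕ∞} : ContDiff ℂ n (ch p0 e e') := by
  unfold ch
  fun_prop

theorem contDiff_ch (F : CP) (p0 e e' : V) :
    ContDiff ℂ 1 fun q : ℂ × ℂ => eval (ch p0 e e' q) F := by
  exact (contDiff_eval F).comp (Meet_contDiff p0 e e')

theorem chart_ns {F : CP} {n : ℕ} (hF : F.IsHomogeneous n) (hns : NSg F) {p0 e e' : V} {q : ℂ × ℂ}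
    (hne : ch p0 e e' q ≠ 0)
    (hspan : ∀ v : V, ∃ a b c : ℂ, v = a • ch p0 e e' q + b • e + c • e')
    (h0 : eval (ch p0 e e' q) F = 0) : fderiv ℂ (fun q => eval (ch p0 e e' q) F) q ≠ 0 := by
  intro hz
  have h1 : HasFDerivAt (ch p0 e e') ((ContinuousLinearMap.fst ℂ ℂ ℂ).smulRight e +
      (ContinuousLinearMap.snd ℂ ℂ ℂ).smulRight e') q := by
    have := ((hasFDerivAt_fst (𝕜 := ℂ) (p := q)).smul_const e).add
      ((hasFDerivAt_snd (𝕜 := ℂ) (p := q)).smul_const e')
    have h2 := this.const_add p0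
    refine h2.congr_of_eventuallyEq (Eventually.of_forall fun x => ?_)
    simp only [ch, Pi.add_apply, add_assoc]
  have h2 := (hasStrictFDerivAt_eval F (ch p0 e e' q)).hasFDerivAt.comp q h1
  simp only [Function.comp_def] at h2
  rw [h2.fderiv] at hz
  have a0 : dv F (ch p0 e e' q) 0 = 0 := by simp [dv]
  have a1 : dv F (ch p0 e e' q) e = 0 := by
    have := congrArg (fun L : ℂ × ℂ →L[ℂ] ℂ => L (1, 0)) hz
    simpa [a0] using this
  have a2 : dv F (ch p0 e e' q) e' = 0 := by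
    have := congrArg (fun L : ℂ × ℂ →L[ℂ] ℂ => L (0, 1)) hz
    simpa [a0] using this
  obtain ⟨v, hv⟩ := hns _ hne h0
  obtain ⟨a, b, c, rfl⟩ := hspan v
  apply hv
  rw [dv_add_right, dv_add_right, dv_smul_right, dv_smul_right, dv_smul_right, euler hF, h0, a1, a2]
  simp

theorem Meet_basis (k : Fin 3) : ∃ e e' : V, e k = 0 ∧ e' k = 0 ∧
    (∀ v : V, v k = 0 → ∃ b c : ℂ, v = b • e + c • e') ∧
    ∀ b c : ℂ, b • e + c • e' = 0 → b = 0 ∧ c = 0 := by
  fin_cases k
  · refine ⟨![0, 1, 0], ![0, 0, 1], rfl, rfl, fun v hv => ⟨v 1, v 2, ?_⟩, fun b c h => ?_⟩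
    · ext i
      fin_cases i
      · simpa using hv
      · simp
      · simp
    · exact ⟨by simpa using congrFun h 1, by simpa using congrFun h 2⟩
  · refine ⟨![1, 0, 0], ![0, 0, 1], rfl, rfl, fun v hv => ⟨v 0, v 2, ?_⟩, fun b c h => ?_⟩
    · ext i
      fin_cases i
      · simp
      · simpa using hv
      · simp
    · exact ⟨by simpa using congrFun h 0, by simpa using congrFun h 2⟩
  · refine ⟨![1, 0, 0], ![0, 1, 0], rfl, rfl, fun v hv => ⟨v 0, v 1, ?_⟩, fun b c h => ?_⟩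
    · ext i
      fin_cases i
      · simp
      · simp
      · simpa using hv
    · exact ⟨by simpa using congrFun h 0, by simpa using congrFun h 1⟩

/-- an isolated non-real intersection point cannot be a limit of totally real intersections -/
theorem persist3 {Θ ι : Type} [TopologicalSpace Θ] {l : Filter ι} [l.NeBot] {F K : Θ → CP} {n : ℕ}
    (hF : ∀ σ, (F σ).IsHomogeneous n) (hFc : Continuous fun x : Θ × V => eval x.2 (F x.1))
    (hKc : Continuous fun x : Θ × V => eval x.2 (K x.1)) {σ : ι → Θ} {σ0 : Θ}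
    (hσ : Tendsto σ l (𝓝 σ0)) (hns : ∀ᶠ i in l, NSg (F (σ i)))
    (htot : ∀ᶠ i in l, Tot (F (σ i)) (K (σ i))) {p : V} (hp : ¬ Re3 p)
    (hF0 : eval p (F σ0) = 0) (hK0 : eval p (K σ0) = 0) (hne : ∃ q, eval q (F σ0) ≠ 0)
    (hiso : ∀ᶠ q in 𝓝 p, eval q (F σ0) = 0 → eval q (K σ0) = 0 → ∃ u : ℂ, q = u • p) : False := by
  have hp0 : p ≠ 0 := by
    rintro rfl
    exact hp fun i j => by simp
  obtain ⟨k, hk⟩ := Function.ne_iff.1 hp0
  have hk' : p k ≠ 0 := hk
  obtain ⟨e, e', he, he', hsp, hind⟩ := Meet_basis k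
  have hck : ∀ q, ch p e e' q k = p k := fun q => by simp [ch, he, he']
  have hc0 : ∀ q, ch p e e' q ≠ 0 := fun q h => hk' (by rw [← hck q, h]; rfl)
  have hz : ch p e e' 0 = p := by simp [ch]
  have hcc : Continuous (ch p e e') := (Meet_contDiff p e e' (n := 0)).continuous
  have hcc' : Continuous fun x : Θ × (ℂ × ℂ) => (x.1, ch p e e' x.2) :=
    continuous_fst.prodMk (hcc.comp continuous_snd)
  have hspan : ∀ q, ∀ v : V, ∃ a b c : ℂ, v = a • ch p e e' q + b • e + c • e' := by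
    intro q v
    obtain ⟨b, c, h⟩ := hsp (v - (v k / p k) • ch p e e' q) (by
      simp only [Pi.sub_apply, Pi.smul_apply, hck, smul_eq_mul]
      field_simp
      ring)
    exact ⟨v k / p k, b, c, by rw [add_assoc, ← h]; abel⟩
  have ht : Tendsto (ch p e e') (𝓝 0) (𝓝 p) := by
    have := hcc.tendsto 0
    rwa [hz] at this
  have hU : {q | ¬ Re3 (ch p e e' q)} ∈ 𝓝 (0 : ℂ × ℂ) :=
    ht.eventually (isClosed_re3.isOpen_compl.mem_nhds hp)
  have c1 := hFc.comp hcc'
  have c2 := hKc.comp hcc'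
  simp only [Function.comp_def] at c1 c2
  have key := persist (l := l) (f := fun s q => eval (ch p e e' q) (F s))
    (k := fun s q => eval (ch p e e' q) (K s)) c1 c2 (fun s => contDiff_ch _ _ _ _)
    (fun s => (contDiff_ch _ _ _ _).differentiable one_ne_zero) hσ
    (hns.mono fun i hi q h0 => chart_ns (hF _) hi (hc0 q) (hspan q) h0) (q0 := 0)
    (by rw [hz]; exact hF0) (by rw [hz]; exact hK0) ?_ ?_ hU
  · obtain ⟨i, ⟨q, hq, h1, h2⟩, h3⟩ := (key.and htot).exists
    exact hq (h3 _ (hc0 q) h1 h2)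
  · by_contra hn
    push Not at hn
    obtain ⟨w, hw⟩ := hne
    have h1 : F σ0 * X k = 0 := by
      refine MvPolynomial.funext fun v => ?_
      rw [map_mul, eval_X, map_zero]
      by_cases hv : v k = 0
      · rw [hv, mul_zero]
      · obtain ⟨b, c, h⟩ := hsp ((p k / v k) • v - p) (by
          simp only [Pi.sub_apply, Pi.smul_apply, smul_eq_mul]
          field_simp
          ring)
        have h2 : ch p e e' (b, c) = (p k / v k) • v := by
          simp only [ch]
          rw [add_assoc, ← h]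
          abel
        have h3 := hn (b, c)
        rw [h2, eval_smul_hom (hF _)] at h3
        rw [(mul_eq_zero.1 h3).resolve_left (pow_ne_zero _ (div_ne_zero hk' hv)), zero_mul]
    rcases mul_eq_zero.1 h1 with h | h
    · exact hw (by rw [h, map_zero])
    · exact X_ne_zero k h
  · filter_upwards [nhdsWithin_le_nhds (ht.eventually hiso), self_mem_nhdsWithin] with q h1 h2 h3 h4
    obtain ⟨u, hu⟩ := h1 h3 h4
    have h5 : u = 1 := by
      have := congrFun hu k
      rw [hck, Pi.smul_apply, smul_eq_mul] at this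
      exact mul_right_cancel₀ hk' (by rw [← this, one_mul])
    rw [h5, one_smul, ch, add_assoc, add_eq_left] at hu
    exact h2 (Prod.ext (hind _ _ hu).1 (hind _ _ hu).2)

theorem Meet_not_im : ¬ ∀ᶠ t in 𝓝 (0 : ℂ), t.im = 0 := by
  intro h
  have h1 : Tendsto (fun s : ℝ => (s : ℂ) * Complex.I) (𝓝[≠] 0) (𝓝 0) := by
    have : Continuous fun s : ℝ => (s : ℂ) * Complex.I := by fun_prop
    have h2 := this.tendsto 0
    simp only [Complex.ofReal_zero, zero_mul] at h2
    exact h2.mono_left nhdsWithin_le_nhds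
  obtain ⟨s, h2, h3⟩ := ((h1.eventually h).and self_mem_nhdsWithin).exists
  exact h3 (by simpa using h2)

/-- every real member of a total pencil meets every oval -/
theorem meet {F K0 K1 : CP} {n : ℕ} (hF : F.IsHomogeneous n) (hns : NSg F) (h0 : cj K0 = K0)
    (h1 : cj K1 = K1) (htot : ∀ μ : ℝ, Tot F (K1 - C (μ : ℂ) * K0)) {P : Fin 3 → ℝ} {ρ : ℝ}
    (hsph : ∀ N : Fin 3 → ℝ, N 2 = 1 → dist N P = ρ → eval (ofR N) F ≠ 0)
    (hex : ∃ N : Fin 3 → ℝ, N 2 = 1 ∧ dist N P ≤ ρ ∧ eval (ofR N) F = 0) :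
    ∃ N : Fin 3 → ℝ, N 2 = 1 ∧ dist N P ≤ ρ ∧ eval (ofR N) F = 0 ∧ eval (ofR N) K0 = 0 := by
  by_contra hn
  push Not at hn
  have hcont : ∀ q : CP, Continuous fun N : Fin 3 → ℝ => eval (ofR N) q := fun q => by
    have := (continuous_evalV q).comp continuous_ofR
    simp only [Function.comp_def] at this
    exact this
  have hO : IsCompact {N : Fin 3 → ℝ | N 2 = 1 ∧ dist N P ≤ ρ ∧ eval (ofR N) F = 0} :=
    (isCompact_closedBall P ρ).of_isClosed_subset
      ((isClosed_eq (continuous_apply 2) continuous_const).inter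
        ((Metric.isClosed_closedBall (x := P) (ε := ρ)).inter
          (isClosed_eq (hcont F) continuous_const))) fun N hN => hN.2.1
  obtain ⟨N0, ⟨a1, a2, a3⟩, hmax⟩ := hO.exists_isMaxOn hex
    (f := fun N => (eval (ofR N) K1 / eval (ofR N) K0).re)
    (Complex.continuous_re.comp_continuousOn ((hcont K1).continuousOn.div (hcont K0).continuousOn
      fun N hN => hn N hN.1 hN.2.1 hN.2.2))
  have a4 : dist N0 P < ρ := lt_of_le_of_ne a2 fun h => hsph N0 a1 h a3
  have a5 : eval (ofR N0) K0 ≠ 0 := hn N0 a1 a2 a3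
  set μ0 : ℝ := (eval (ofR N0) K1 / eval (ofR N0) K0).re with hμ0
  have a6 : eval (ofR N0) K1 / eval (ofR N0) K0 = (μ0 : ℂ) := by
    refine (Complex.conj_eq_iff_re.1 ?_).symm
    rw [map_div₀, ← eval_cj_ofR, ← eval_cj_ofR, h0, h1]
  set c : ℂ × ℂ → V := ch ![0, 0, 1] ![1, 0, 0] ![0, 1, 0] with hc
  have c0 : ∀ q, c q 0 = q.1 := fun q => by simp [hc, ch]
  have c1 : ∀ q, c q 1 = q.2 := fun q => by simp [hc, ch]
  have c2 : ∀ q, c q 2 = 1 := fun q => by simp [hc, ch]
  have cne : ∀ q, c q ≠ 0 := fun q h => by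
    have := c2 q
    rw [h] at this
    exact zero_ne_one this
  have cq : c ((N0 0 : ℂ), (N0 1 : ℂ)) = ofR N0 := by
    ext i
    fin_cases i
    · exact c0 _
    · exact c1 _
    · exact (c2 _).trans (by simp [a1])
  obtain ⟨g, hg, g0, hgF, hgt⟩ := exists_param (contDiff_ch F ![0, 0, 1] ![1, 0, 0] ![0, 1, 0])
    (q := ((N0 0 : ℂ), (N0 1 : ℂ))) (by rw [← hc, cq]; exact a3)
    (chart_ns hF hns (cne _) (fun v => ⟨v 2, v 0 - v 2 * N0 0, v 1 - v 2 * N0 1, by
      ext i
      fin_cases i <;> simp [ch]⟩) (by rw [← hc, cq]; exact a3))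
  rw [← hc] at hgF
  have hG : AnalyticAt ℂ (fun t => c (g t)) 0 :=
    ((Meet_contDiff _ _ _ (n := ⊤)).contDiffAt.analyticAt).comp hg
  have hG0 : c (g 0) = ofR N0 := by rw [g0, cq]
  have hGq : ∀ q : CP, AnalyticAt ℂ (fun t => eval (c (g t)) q) 0 := fun q =>
    ((contDiff_eval q (n := ⊤)).contDiffAt.analyticAt).comp hG
  have hGt : Tendsto (fun t => c (g t)) (𝓝 0) (𝓝 (ofR N0)) := by
    have := hG.continuousAt.tendsto
    rwa [hG0] at this
  have hK : ∀ᶠ t in 𝓝 (0 : ℂ), eval (c (g t)) K0 ≠ 0 := (tendsto_eval hGt K0).eventually_ne a5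
  have hreal : ∀ (q : ℂ × ℂ) (μ : ℝ), eval (c q) F = 0 → eval (c q) K0 ≠ 0 →
      eval (c q) K1 / eval (c q) K0 = (μ : ℂ) → c q = ofR fun i => (c q i).re := by
    intro q μ b1 b2 b3
    refine Re3.eq_ofR (htot μ _ (cne q) b1 ?_) (c2 q)
    rw [map_sub, map_mul, eval_C, ← b3, div_mul_cancel₀ _ b2, sub_self]
  have hh : AnalyticAt ℂ (fun t => eval (c (g t)) K1 / eval (c (g t)) K0) 0 :=
    (hGq K1).div (hGq K0) (by rw [hG0]; exact a5)
  rcases hh.eventually_constant_or_nhds_le_map_nhds with h | h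
  · simp only [hG0, a6] at h
    apply Meet_not_im
    have him : ∀ᶠ t in 𝓝 (0 : ℂ), ∀ i, (c (g t) i).im = 0 := by
      filter_upwards [h, hK, hgF] with t b1 b2 b3 i
      rw [hreal _ _ b3 b2 b1]
      simp
    rcases hgt with h' | h'
    · filter_upwards [him, h'] with t b1 b2
      have := b1 0
      rw [c0, b2] at this
      simpa using this
    · filter_upwards [him, h'] with t b1 b2
      have := b1 1
      rw [c1, b2] at this
      simpa using this
  · simp only [hG0, a6] at h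
    have hd : ∀ᶠ t in 𝓝 (0 : ℂ), dist (fun i => (c (g t) i).re) P < ρ := by
      have b1 : Continuous fun v : V => dist (fun i => (v i).re) P := by fun_prop
      have b2 := (b1.tendsto (ofR N0)).comp hGt
      simp only [Function.comp_def, ofR_apply, Complex.ofReal_re] at b2
      exact b2.eventually (gt_mem_nhds a4)
    have hS := h (image_mem_map (hd.and (hK.and hgF)))
    have hm : Tendsto (fun μ : ℝ => (μ : ℂ)) (𝓝[>] μ0) (𝓝 (μ0 : ℂ)) :=
      (Complex.continuous_ofReal.tendsto μ0).mono_left nhdsWithin_le_nhds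
    obtain ⟨μ, ⟨t, ⟨b1, b2, b3⟩, b4⟩, b5⟩ := ((hm.eventually hS).and self_mem_nhdsWithin).exists
    have b6 := hreal _ _ b3 b2 b4
    have b7 := hmax (a := fun i => (c (g t) i).re) ⟨by simp [c2], b1.le, by rw [← b6]; exact b3⟩
    simp only [Set.mem_ofPred_eq] at b7 b4
    rw [← b6, b4, Complex.ofReal_re] at b7
    exact absurd b5 (not_lt.2 b7)

end Pool.Agent.MP_42957e_ag
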