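import Pool.Agent.MP_42957e_ag.DataB
import Pool.Agent.MP_42957e_ag.Form
import Pool.Agent.MP_42957e_ag.Meet

set_option autoImplicit false

namespace Pool.Agent.MP_42957e_ag

open MvPolynomial Filter Topology Asymptotics
open scoped ComplexConjugate

theorem lim_row (D : Data) {d : ℕ} {c : Arr} {a : Fin 6} (h : Supp d a c)
    (hγ : ∀ i, eval (D.x (D.γ i)) (frm d a c) = 0) (b : Fin 6) : c a b = 0 := by
  refine row_eq_zero D.t_inj D.t_pos (fun i => ?_) b
  have h1 := hγ i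
  rw [Data.x, D.xγ, eval_smul_hom (frm_hom h), eval_frm_zp h] at h1
  exact (mul_eq_zero.1 h1).resolve_left (pow_ne_zero _ (D.v_ne i))

theorem lim_shift {d w : ℕ} {c : Arr} (h : Supp d w c) (p : V) :
    eval p (frm d 0 c) = p 2 ^ w * eval p (frm d w c) := by
  rw [frm_shift h, map_mul, map_pow, eval_X]

theorem lim_z (D : Data) {τ : ℂ} (h : ∀ i, τ ≠ D.γ i) : D.x τ 2 ≠ 0 := by
  rw [Data.x, D.zx]
  exact mul_ne_zero D.ze (Finset.prod_ne_zero_iff.2 fun i _ => sub_ne_zero.2 (h i))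

theorem Data.inj_frm (D : Data) {d : ℕ} {c : Arr} (h : Supp d 0 c)
    (h0 : ∀ τ, eval (D.x τ) (frm d 0 c) = 0) : c = 0 := by
  by_contra hc
  obtain ⟨a, b, ha, hb⟩ := exists_min_row h hc
  obtain ⟨κ, hκ, -, -⟩ := D.restr (frm_hom ha)
  have hz : κ = 0 := by
    refine Polynomial.eq_zero_of_infinite_isRoot κ
      ((Set.finite_range D.γ).infinite_compl.mono fun τ hτ => ?_)
    have h1 := h0 τ
    rw [lim_shift ha, ← hκ] at h1
    exact (mul_eq_zero.1 h1).resolve_left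
      (pow_ne_zero _ (lim_z D fun i hi => hτ ⟨i, hi.symm⟩))
  exact hb (lim_row D ha (fun i => by rw [← hκ, hz, Polynomial.eval_zero]) b)

theorem Seq.supp0 {A : Fam} {ι : Type} {𝒰 : Ultrafilter ι} (S : Seq A ι 𝒰) :
    Supp S.d 0 S.c0 := by
  exact (isClosed_supp S.d 0).mem_of_tendsto S.hc (Eventually.of_forall S.supp)

theorem lim_line {p : V} (hp : p ≠ 0) (y : V) :
    ∀ᶠ q in 𝓝 p, ∀ c : ℂ, q = c • y → ∃ u : ℂ, q = u • p := by
  by_cases h : p ∈ Submodule.span ℂ {y}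
  · obtain ⟨c', rfl⟩ := Submodule.mem_span_singleton.1 h
    have hc : c' ≠ 0 := left_ne_zero_of_smul hp
    exact Eventually.of_forall fun q c hq =>
      ⟨c / c', by rw [hq, smul_smul, div_mul_cancel₀ _ hc]⟩
  · filter_upwards [(Submodule.span ℂ {y}).closed_of_finiteDimensional.isOpen_compl.mem_nhds h]
      with q hq c hc
    exact absurd (Submodule.mem_span_singleton.2 ⟨c, hc.symm⟩) hq

theorem lim_roots {A : Fam} {ι : Type} {𝒰 : Ultrafilter ι} (S : Seq A ι 𝒰) {w : ℕ}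
    (hw : Supp S.d w S.c0) {κ : Polynomial ℂ} (h0 : κ ≠ 0)
    (hκ : ∀ τ, κ.eval τ = eval (A.x τ) (frm S.d w S.c0)) {τ : ℂ} (hτ : κ.eval τ = 0) :
    (∃ j, τ = A.θ j) ∨ ∃ i, τ = A.γ i := by
  by_contra hn
  push Not at hn
  have hψ : eval (A.x τ) A.ψ ≠ 0 := by
    rw [Data.x, Data.ψ, A.ψx]
    exact mul_ne_zero A.ψe (Finset.prod_ne_zero_iff.2 fun j _ => sub_ne_zero.2 (hn.1 j))
  have hz : A.x τ 2 ≠ 0 := lim_z A.toData hn.2
  have hF0 : ∀ q : V, eval q (A.F 0) = q 2 * eval q A.φ * eval q A.ψ := fun q => by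
    simp [A.eval_F]
  have hFc : Continuous fun x : (ℝ × Arr) × V => eval x.2 (A.F x.1.1) := by
    have := A.continuous_F.comp
      (f := fun x : (ℝ × Arr) × V => (x.1.1, x.2)) (continuous_fst.fst.prodMk continuous_snd)
    simp only [Function.comp_def] at this
    exact this
  have hKc : Continuous fun x : (ℝ × Arr) × V => eval x.2 (frm S.d 0 x.1.2) := by
    have := (continuous_frm S.d 0).comp
      (f := fun x : (ℝ × Arr) × V => (x.1.2, x.2)) (continuous_fst.snd.prodMk continuous_snd)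
    simp only [Function.comp_def] at this
    exact this
  refine persist3 (Θ := ℝ × Arr) (l := 𝒰) (F := fun σ => A.F σ.1) (K := fun σ => frm S.d 0 σ.2)
    (σ := fun i => (S.s i, S.c i)) (σ0 := (0, S.c0)) (p := A.x τ) (fun σ => A.F_hom σ.1) hFc hKc
    ((S.hs.mono_right nhdsWithin_le_nhds).prodMk_nhds S.hc) S.ns S.tot
    (A.not_re3 (A.φ_x τ) hψ) ?_ ?_ ?_ ?_
  · rw [hF0, A.φ_x, mul_zero, zero_mul]
  · rw [lim_shift hw, ← hκ, hτ, mul_zero]
  · obtain ⟨q, hq⟩ := A.exists_ne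
    exact ⟨q, by rwa [hF0]⟩
  · have e1 : ∀ᶠ q in 𝓝 (A.x τ), q 2 ≠ 0 := ((continuous_apply 2).tendsto _).eventually_ne hz
    have e2 : ∀ᶠ q in 𝓝 (A.x τ), eval q A.ψ ≠ 0 :=
      ((continuous_evalV A.ψ).tendsto _).eventually_ne hψ
    have e3 := (eventually_all_finset κ.roots.toFinset).2
      fun τ' _ => lim_line (A.x_ne_zero τ) (A.x τ')
    filter_upwards [e1, e2, e3] with q h1 h2 h3 hF hK
    rw [hF0] at hF
    obtain ⟨c, τ', hq⟩ := A.onto
      ((mul_eq_zero.1 ((mul_eq_zero.1 hF).resolve_right h2)).resolve_left h1)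
    by_cases hc : c = 0
    · exact ⟨0, by rw [hq, hc, zero_smul, zero_smul]⟩
    refine h3 τ' ?_ c hq
    rw [lim_shift hw] at hK
    have h4 := (mul_eq_zero.1 hK).resolve_left (pow_ne_zero _ h1)
    rw [hq, eval_smul_hom (frm_hom hw), ← hκ] at h4
    exact Multiset.mem_toFinset.2 ((Polynomial.mem_roots h0).2
      ((mul_eq_zero.1 h4).resolve_left (pow_ne_zero _ hc)))

theorem lim_theta {A : Fam} {ι : Type} {𝒰 : Ultrafilter ι} (S : Seq A ι 𝒰) {w : ℕ}
    (hw : Supp S.d w S.c0) (j : Fin 9) : eval (A.x (A.θ j)) (frm S.d w S.c0) = 0 := by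
  have h1 := ((continuous_frm S.d 0).tendsto (S.c0, ofR (A.P j))).comp
    (S.hc.prodMk_nhds ((continuous_ofR.tendsto _).comp (S.hN j)))
  simp only [Function.comp_def] at h1
  have h2 : eval (ofR (A.P j)) (frm S.d 0 S.c0) = 0 :=
    tendsto_nhds_unique h1 (tendsto_const_nhds.congr' ((S.N2 j).mono fun i hi => hi.2.2.symm))
  rw [lim_shift hw, ofR_apply, A.P2, Complex.ofReal_one, one_pow, one_mul] at h2
  rw [Data.x, A.xθ, eval_smul_hom (frm_hom hw), h2, mul_zero]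

theorem Seq.lim {A : Fam} {ι : Type} {𝒰 : Ultrafilter ι} (S : Seq A ι 𝒰) :
    ∃ (w : ℕ) (κ : ℂ), w ≤ 2 ∧ S.d = w + 3 ∧ Supp S.d w S.c0 ∧ κ ≠ 0 ∧
      ∀ τ, eval (A.x τ) (frm S.d w S.c0) = κ * eval (A.x τ) A.ψ := by
  obtain ⟨w, b, hw, hb⟩ := exists_min_row S.supp0 S.c0_ne
  obtain ⟨κ, hκ, hdeg, hco⟩ := A.restr (frm_hom hw)
  have hγ : ¬ ∀ i, κ.eval (A.γ i) = 0 := fun h =>
    hb (lim_row A.toData hw (fun i => by rw [← hκ, h]) b)
  have h0 : κ ≠ 0 := fun h => hγ fun i => by rw [h, Polynomial.eval_zero]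
  have hr := fun τ => lim_roots S hw h0 hκ (τ := τ)
  set L := eval (A.e 2) (frm S.d w S.c0)
  have e0 : κ.eval 0 = (-1) ^ (S.d - w) * L := by
    rw [hκ, A.x_zero, eval_smul_hom (frm_hom hw)]
  have hL : L ≠ 0 := fun h => by
    rcases hr 0 (by rw [e0, h, mul_zero]) with ⟨j, hj⟩ | ⟨i, hi⟩
    · exact A.θ_ne_zero j hj.symm
    · exact A.γ_ne_zero i hi.symm
  have hnd : κ.natDegree = 3 * (S.d - w) :=
    Polynomial.natDegree_eq_of_le_of_coeff_ne_zero hdeg (hco ▸ hL)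
  have hcard : κ.roots.card = κ.natDegree := IsAlgClosed.card_roots_eq_natDegree
  have hev : ∀ τ, κ.eval τ = L * (κ.roots.map fun a => τ - a).prod := fun τ => by
    conv_lhs => rw [← Polynomial.C_leadingCoeff_mul_prod_multiset_X_sub_C hcard]
    rw [Polynomial.eval_mul, Polynomial.eval_C, Polynomial.leadingCoeff, hnd, hco,
      Polynomial.eval_multiset_prod, Multiset.map_map]
    simp
  have hprod : κ.roots.prod = 1 := by
    have h1 := hev 0
    simp only [zero_sub] at h1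
    rw [Multiset.prod_map_neg, hcard, hnd, e0, pow_mul, show (-1 : ℂ) ^ 3 = -1 by norm_num] at h1
    have h2 : ((-1 : ℂ) ^ (S.d - w) * L) * (κ.roots.prod - 1) = 0 := by
      linear_combination -h1
    exact sub_eq_zero.1 ((mul_eq_zero.1 h2).resolve_left
      (mul_ne_zero (pow_ne_zero _ (by norm_num)) hL))
  obtain ⟨S', hS'⟩ := Multiset.le_iff_exists_add.1
    ((Multiset.le_iff_subset (t := κ.roots) (Finset.univ.nodup.map A.θ_inj)).2 fun τ hτ => by
      obtain ⟨j, -, rfl⟩ := Multiset.mem_map.1 hτ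
      exact (Polynomial.mem_roots h0).2 ((hκ _).trans (lim_theta S hw j)))
  have hroot : ∀ r ∈ S', κ.eval r = 0 := fun r h =>
    (Polynomial.mem_roots h0).1 (hS' ▸ Multiset.mem_add.2 (Or.inr h))
  have hc : 9 + S'.card = 3 * (S.d - w) := by
    rw [← hnd, ← hcard, hS']
    simp
  have hp : S'.prod = 1 := by
    rw [hS', Multiset.prod_add, ← Finset.prod_eq_multiset_prod, A.prod_θ, one_mul] at hprod
    exact hprod
  have hd := S.hd
  have h5 : S'.card ≠ 6 := fun h =>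
    hγ fun i => hroot _ (A.gen S' (fun r h' => hr r (hroot r h')) h hp i)
  have h4 : S'.card ≠ 3 := fun h => hγ fun i => hroot _ (by
    simpa using A.gen (S' + S') (fun r h' => hr r (hroot r (by simpa using h')))
      (by rw [Multiset.card_add, h]) (by rw [Multiset.prod_add, hp, one_mul]) i)
  have h3 : S' = 0 := Multiset.card_eq_zero.1 (by omega)
  refine ⟨w, L / eval (A.e 2) A.ψ, by omega, by omega, hw, div_ne_zero hL A.ψe, fun τ => ?_⟩
  rw [← hκ, hev, hS', h3, add_zero, Multiset.map_map, ← Finset.prod_eq_multiset_prod, Data.x,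
    Data.ψ, A.ψx, ← mul_assoc, div_mul_cancel₀ _ A.ψe]
  rfl

end Pool.Agent.MP_42957e_ag
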