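import Pool.Agent.MP_42957e_ag.NumB

set_option autoImplicit false

namespace Pool.Agent.MP_42957e_ag

open MvPolynomial
open scoped ComplexConjugate

noncomputable def ve : Fin 3 → V := fun k i => (nE k i : ℂ)
noncomputable def va : Fin 3 → V := fun k i => (nA k i : ℂ) / nD

theorem nD_ne : (nD : ℂ) ≠ 0 := by rw [Ne, GaussianInt.toComplex_eq_zero]; decide
theorem nL_ne : (nL : ℂ) ≠ 0 := by rw [Ne, GaussianInt.toComplex_eq_zero]; decide +kernel
theorem nE_ne : (nE 2 2 : ℂ) ≠ 0 := by rw [Ne, GaussianInt.toComplex_eq_zero]; decide +kernel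
theorem cD_ne : conj (nD : ℂ) ≠ 0 := by simpa using nD_ne

theorem n_dual' : ∀ i j, nE 0 i * nA 0 j + nE 1 i * nA 1 j + nE 2 i * nA 2 j =
    if i = j then nD else 0 := by decide +kernel

theorem v_dual (i j : Fin 3) : eval (ve j) (lf (va i)) = if i = j then 1 else 0 := by
  have h := congrArg GaussianInt.toComplex (n_dual i j)
  have := nD_ne
  simp only [map_add, map_mul] at h
  rw [eval_lf]
  simp only [ve, va]
  split_ifs at h ⊢
  · field_simp; linear_combination h
  · field_simp; rw [map_zero] at h; linear_combination h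

theorem v_expand (q : V) : q = eval q (lf (va 0)) • ve 0 + eval q (lf (va 1)) • ve 1 +
    eval q (lf (va 2)) • ve 2 := by
  have := nD_ne
  have h : ∀ i j, (nE 0 i : ℂ) * nA 0 j + nE 1 i * nA 1 j + nE 2 i * nA 2 j =
      if i = j then (nD : ℂ) else 0 := fun i j => by
    have h := congrArg GaussianInt.toComplex (n_dual' i j)
    simp only [map_add, map_mul] at h
    rw [h]; split_ifs <;> simp
  ext i
  have h0 := h i 0
  have h1 := h i 1
  have h2 := h i 2
  simp only [eval_lf, ve, va, Pi.add_apply, Pi.smul_apply, smul_eq_mul]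
  field_simp
  fin_cases i <;> simp at h0 h1 h2 ⊢ <;> linear_combination -(q 0 * h0 + q 1 * h1 + q 2 * h2)

theorem v_conj (i j : Fin 3) : eval (ve j) (lf (star (va i))) = nN i j / conj (nD : ℂ) := by
  have h := congrArg GaussianInt.toComplex (n_conj i j)
  have := cD_ne
  simp only [map_add, map_mul, GaussianInt.toComplex_star] at h
  rw [eval_lf, ← h]
  simp only [ve, va, Pi.star_apply, Complex.star_def, map_div₀]
  field_simp

theorem eval_xp_lf (e : Fin 3 → V) (τ : ℂ) (b : V) : eval (xp e τ) (lf b) =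
    τ * eval (e 0) (lf b) + τ ^ 2 * eval (e 1) (lf b) + (τ ^ 3 - 1) * eval (e 2) (lf b) := by
  simp only [eval_lf, xp, Pi.add_apply, Pi.smul_apply, smul_eq_mul]; ring

theorem x_conj (k : Fin 3) (τ : ℂ) :
    eval (xp ve τ) (lf (star (va k))) = cc (nN k) τ / conj (nD : ℂ) := by
  rw [eval_xp_lf, v_conj, v_conj, v_conj, cc]; ring

theorem x_φ (τ : ℂ) : eval (xp ve τ) (cub va) = 0 := by
  simp only [cub, map_sub, map_add, map_mul, map_pow, eval_xp_lf, v_dual]
  simp
  ring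

theorem x_col (τ : ℂ) (i : Fin 3) : xp ve τ i = cc (col i) τ := by
  simp [xp, ve, cc, col]

noncomputable def pΨ : Polynomial ℂ :=
  pc (nN 0) * pc (nN 1) * pc (nN 2) + pc (nN 0) ^ 3 - pc (nN 1) ^ 3

theorem pΨ_deg : pΨ.natDegree ≤ 9 :=
  Polynomial.natDegree_sub_le_of_le (m := 9) (n := 9) (Polynomial.natDegree_add_le_of_degree_le
    (Polynomial.natDegree_mul_le_of_le (Polynomial.natDegree_mul_le_of_le (natDegree_pc _)
      (natDegree_pc _)) (natDegree_pc _)) (Polynomial.natDegree_pow_le_of_le 3 (natDegree_pc _)))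
    (Polynomial.natDegree_pow_le_of_le 3 (natDegree_pc _))

theorem pΨ_coeff : pΨ.coeff 9 = nL := by
  have h1 := Polynomial.coeff_mul_add_eq_of_natDegree_le (Polynomial.natDegree_mul_le_of_le
    (natDegree_pc (nN 0)) (natDegree_pc (nN 1))) (natDegree_pc (nN 2))
  rw [Polynomial.coeff_mul_add_eq_of_natDegree_le (natDegree_pc _) (natDegree_pc _)] at h1
  have h2 := fun k => Polynomial.coeff_pow_of_natDegree_le (m := 3) (natDegree_pc (nN k))
  simp only [coeff_pc] at h1 h2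
  rw [pΨ, Polynomial.coeff_sub, Polynomial.coeff_add, h1, h2, h2]
  simp only [nL, cb3, map_add, map_sub, map_mul]
  ring

theorem pΨ_eval (τ : ℂ) : pΨ.eval τ =
    cc (nN 0) τ * cc (nN 1) τ * cc (nN 2) τ + cc (nN 0) τ ^ 3 - cc (nN 1) τ ^ 3 := by
  simp only [pΨ, Polynomial.eval_sub, Polynomial.eval_add, Polynomial.eval_mul,
    Polynomial.eval_pow, eval_pc]

theorem x_ψ (τ : ℂ) : eval (xp ve τ) (cj (cub va)) = pΨ.eval τ / conj (nD : ℂ) ^ 3 := by
  simp only [cub, cj_sub, cj_add, cj_mul, cj_pow, cj_lf, map_sub, map_add, map_mul, map_pow,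
    x_conj, pΨ_eval]
  ring

theorem e_ψ : eval (ve 2) (cj (cub va)) = nL / conj (nD : ℂ) ^ 3 := by
  simp only [cub, cj_sub, cj_add, cj_mul, cj_pow, cj_lf, map_sub, map_add, map_mul, map_pow,
    v_conj, nL, cb3]
  ring

theorem ex_θ (j : Fin 9) : ∃ r, pΨ.eval r = 0 ∧ ‖r - nθ j / nS‖ < 1 / 10 ^ 12 := by
  refine root_near pΨ_deg (by norm_num) ?_
  have h := gi_lt (n_rootθ j)
  have e : pΨ.eval ((nθ j : ℂ) / nS) =
      (cb3 (cu (nN 0) (nθ j)) (cu (nN 1) (nθ j)) (cu (nN 2) (nθ j)) : GI) / (nS : ℂ) ^ 9 := by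
    simp only [pΨ_eval, cc_div, cb3, map_add, map_sub, map_mul]; ring
  rw [e, pΨ_coeff]
  simp only [map_mul, map_pow, norm_mul, norm_pow, nT_eq, Complex.norm_ofNat] at h
  rw [norm_div, norm_pow, div_lt_iff₀ (pow_pos (norm_pos_iff.2 nS_ne) _)]
  nlinarith

theorem ex_γ (i : Fin 3) : ∃ r, (pc (col 2)).eval r = 0 ∧ ‖r - nγ i / nS‖ < 1 / 10 ^ 12 := by
  refine root_near (natDegree_pc _) (by norm_num) ?_
  have h := gi_lt (n_rootγ i)
  rw [eval_pc, cc_div, coeff_pc]
  simp only [map_mul, map_pow, norm_mul, norm_pow, nT_eq, Complex.norm_ofNat] at h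
  rw [norm_div, norm_pow, div_lt_iff₀ (pow_pos (norm_pos_iff.2 nS_ne) _)]
  simp only [col] at h ⊢
  nlinarith

noncomputable def vθ (j : Fin 9) : ℂ := (ex_θ j).choose
noncomputable def vγ (i : Fin 3) : ℂ := (ex_γ i).choose
noncomputable def vP : Fin 9 ⊕ Fin 3 → ℂ := Sum.elim vθ vγ
/-- the approximate roots -/
noncomputable def ct (k : Fin 9 ⊕ Fin 3) : ℂ := nP k / nS

theorem vP_near : ∀ k, ‖vP k - ct k‖ < 1 / 10 ^ 12
  | .inl j => (ex_θ j).choose_spec.2
  | .inr i => (ex_γ i).choose_spec.2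

theorem nS_pos : 0 < ‖(nS : ℂ)‖ := norm_pos_iff.2 nS_ne

theorem ct_sep {k l : Fin 9 ⊕ Fin 3} (h : ‖ct k - ct l‖ < 1 / 7) : k = l := by
  by_contra hkl
  have := gi_le (n_sep k l hkl)
  simp only [map_mul, map_sub, norm_mul, map_ofNat, Complex.norm_ofNat] at this
  rw [ct, ct, ← sub_div, norm_div, div_lt_iff₀ nS_pos] at h
  linarith

theorem ct_le (k : Fin 9 ⊕ Fin 3) : ‖ct k‖ ≤ 15 / 2 := by
  have := gi_le (n_size k).1
  simp only [map_mul, norm_mul, map_ofNat, Complex.norm_ofNat] at this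
  rw [ct, norm_div, div_le_iff₀ nS_pos]
  linarith

theorem vP_le (k : Fin 9 ⊕ Fin 3) : ‖vP k‖ ≤ 8 := by
  have := norm_le_norm_add_norm_sub' (vP k) (ct k)
  linarith [ct_le k, vP_near k]

theorem vP_inj : Function.Injective vP := fun k l h => ct_sep (by
  have := norm_sub_le_norm_sub_add_norm_sub (ct k) (vP k) (ct l)
  rw [norm_sub_rev (ct k) (vP k)] at this
  have h2 := vP_near l
  rw [← h] at h2
  linarith [vP_near k])

theorem vθ_inj : Function.Injective vθ := fun j k h =>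
  Sum.inl_injective (vP_inj (a₁ := .inl j) (a₂ := .inl k) h)

theorem vγ_inj : Function.Injective vγ := fun j k h =>
  Sum.inr_injective (vP_inj (a₁ := .inr j) (a₂ := .inr k) h)

theorem v_ψx (τ : ℂ) :
    eval (xp ve τ) (cj (cub va)) = eval (ve 2) (cj (cub va)) * ∏ j, (τ - vθ j) := by
  rw [x_ψ, e_ψ, factor_roots pΨ_deg (pΨ_coeff ▸ nL_ne) vθ_inj fun j => (ex_θ j).choose_spec.1,
    pΨ_coeff]
  ring

theorem v_zx (τ : ℂ) : xp ve τ 2 = ve 2 2 * ∏ i, (τ - vγ i) := by
  rw [x_col, ← eval_pc, factor_roots (natDegree_pc _) (by rw [coeff_pc]; exact nE_ne) vγ_inj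
    fun j => (ex_γ j).choose_spec.1, coeff_pc]
  rfl

theorem v_ψe : eval (ve 2) (cj (cub va)) ≠ 0 := by
  rw [e_ψ]; exact div_ne_zero nL_ne (pow_ne_zero _ cD_ne)

theorem lipN (i : Fin 3) (k : Fin 9 ⊕ Fin 3) :
    ‖cc (nN i) (vP k) - cc (nN i) (ct k)‖ ≤ 1 / 10 ^ 6 :=
  cc_lip (fun l => by simpa [map_ofNat] using gi_le (n_coef i l).1) (vP_le k)
    ((ct_le k).trans (by norm_num)) (vP_near k).le

theorem lipE (i : Fin 3) (k : Fin 9 ⊕ Fin 3) :
    ‖cc (col i) (vP k) - cc (col i) (ct k)‖ ≤ 1 / 10 ^ 6 :=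
  cc_lip (fun l => by simpa [map_ofNat] using gi_le (n_coef i l).2) (vP_le k)
    ((ct_le k).trans (by norm_num)) (vP_near k).le

theorem ratio_near (j : Fin 9) : cc (nN 0) (vθ j) ≠ 0 ∧
    ‖conj (cc (nN 1) (vθ j) / cc (nN 0) (vθ j)) - ct (.inl j)‖ ≤ 1 / 50 := by
  have h0 := lipN 0 (.inl j)
  have h1 := lipN 1 (.inl j)
  have hc := ct_le (.inl j)
  have r0 := gi_le (n_real j).1
  have r1 := gi_le (n_real j).2
  have hS := nS_pos
  have hS' := nS_ne
  have hcS : conj (nS : ℂ) = nS := by rw [nS_eq, map_pow, map_ofNat]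
  simp only [map_mul, map_pow, map_sub, norm_mul, norm_pow, map_ofNat, Complex.norm_ofNat,
    GaussianInt.toComplex_star] at r0 r1
  have a0 : 100 ≤ ‖cc (nN 0) (ct (.inl j))‖ := by
    change 100 ≤ ‖cc (nN 0) (nθ j / nS)‖
    rw [cc_div, norm_div, norm_pow, le_div_iff₀ (by positivity)]
    linarith
  have a1 : ‖cc (nN 1) (ct (.inl j)) - conj (ct (.inl j)) * cc (nN 0) (ct (.inl j))‖ ≤ 1 := by
    have e : cc (nN 1) (ct (.inl j)) - conj (ct (.inl j)) * cc (nN 0) (ct (.inl j)) =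
        (cu (nN 1) (nθ j) * nS - conj (nθ j : ℂ) * cu (nN 0) (nθ j)) / (nS : ℂ) ^ 4 := by
      change cc (nN 1) (nθ j / nS) - conj ((nθ j : ℂ) / nS) * cc (nN 0) (nθ j / nS) = _
      rw [cc_div, cc_div, map_div₀, hcS]
      field_simp
    rw [e, norm_div, norm_pow, div_le_one (by positivity)]
    exact r1
  change ‖cc (nN 0) (vθ j) - _‖ ≤ _ at h0
  change ‖cc (nN 1) (vθ j) - _‖ ≤ _ at h1
  generalize cc (nN 0) (vθ j) = x at *
  generalize cc (nN 1) (vθ j) = y at *
  generalize cc (nN 0) (ct (.inl j)) = x' at *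
  generalize cc (nN 1) (ct (.inl j)) = y' at *
  generalize ct (.inl j) = c at *
  have b0 : 99 ≤ ‖x‖ := by
    have := norm_le_norm_add_norm_sub' x' x
    rw [norm_sub_rev] at this
    linarith
  have hx : x ≠ 0 := norm_pos_iff.1 (by linarith)
  refine ⟨hx, ?_⟩
  have e : conj (y / x) - c = conj (((y - y') - conj c * (x - x') + (y' - conj c * x')) / x) := by
    rw [← Complex.conj_conj c, ← map_sub, Complex.conj_conj]
    congr 1
    field_simp
    ring
  rw [e, Complex.norm_conj, norm_div, div_le_iff₀ (by linarith)]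
  refine (norm_add_le _ _).trans ?_
  have := norm_sub_le (y - y') (conj c * (x - x'))
  rw [norm_mul, Complex.norm_conj] at this
  nlinarith [mul_le_mul hc h0 (norm_nonneg _) (by norm_num)]

theorem v_real (j : Fin 9) : Re3 (xp ve (vθ j)) := by
  obtain ⟨h0, hn⟩ := ratio_near j
  set p := xp ve (vθ j) with hp
  have hψ : eval p (cj (cub va)) = 0 := by
    rw [v_ψx, Finset.prod_eq_zero (Finset.mem_univ j) (sub_self _), mul_zero]
  have hφq : eval (star p) (cub va) = 0 := by rw [eval_star, hψ, map_zero]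
  have hψq : eval (star p) (cj (cub va)) = 0 := by rw [eval_star, cj_cj, x_φ, map_zero]
  have hA : ∀ k, eval (star p) (lf (va k)) = conj (cc (nN k) (vθ j) / conj (nD : ℂ)) := fun k => by
    rw [eval_star, cj_lf, x_conj]
  have hτ : conj (cc (nN 1) (vθ j) / cc (nN 0) (vθ j)) =
      eval (star p) (lf (va 1)) / eval (star p) (lf (va 0)) := by
    rw [hA, hA, ← map_div₀, div_div_div_cancel_right₀ cD_ne]
  have hA0 : eval (star p) (lf (va 0)) ≠ 0 := by
    rw [hA, map_ne_zero]; exact div_ne_zero h0 cD_ne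
  have hex := v_expand (star p)
  simp only [cub, map_sub, map_add, map_mul, map_pow] at hφq
  rw [hτ] at hn
  generalize eval (star p) (lf (va 0)) = A at *
  generalize eval (star p) (lf (va 1)) = B at *
  generalize eval (star p) (lf (va 2)) = D at *
  have hB : B ≠ 0 := by rintro rfl; simp [hA0] at hφq
  have hq : star p = (A ^ 2 / B) • xp ve (B / A) := by
    have : D = A ^ 2 / B * ((B / A) ^ 3 - 1) := by field_simp; linear_combination hφq
    rw [hex, this, xp, smul_add, smul_add, smul_smul, smul_smul, smul_smul]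
    congr 3 <;> field_simp
  rw [hq, eval_smul_hom (cj_hom (cub_hom _)), v_ψx] at hψq
  obtain ⟨k, -, hk⟩ := Finset.prod_eq_zero_iff.1 ((mul_eq_zero.1 ((mul_eq_zero.1 hψq).resolve_left
    (pow_ne_zero _ (div_ne_zero (pow_ne_zero _ hA0) hB)))).resolve_left v_ψe)
  rw [sub_eq_zero] at hk
  have hjk : Sum.inl j = Sum.inl k := ct_sep (by
    have h1 := norm_sub_le_norm_sub_add_norm_sub (ct (.inl j)) (vθ k) (ct (.inl k))
    have h2 : ‖vθ k - _‖ < _ := vP_near (.inl k)
    rw [hk, norm_sub_rev] at hn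
    linarith)
  rw [hk, ← Sum.inl_injective hjk, ← hp] at hq
  intro a b
  have ha : conj (p a) = A ^ 2 / B * p a := congrFun hq a
  have hb : conj (p b) = A ^ 2 / B * p b := congrFun hq b
  rw [← Complex.conj_eq_iff_im, map_mul, Complex.conj_conj, ha, hb]
  ring

theorem v_two (j : Fin 9) : xp ve (vθ j) 2 ≠ 0 := by
  rw [v_zx]
  refine mul_ne_zero nE_ne (Finset.prod_ne_zero_iff.2 fun i _ h => ?_)
  simpa using vP_inj (a₁ := .inl j) (a₂ := .inr i) (sub_eq_zero.1 h)

theorem v_im (i : Fin 3) : 0 < (xp ve (vγ i) 0 * conj (xp ve (vγ i) 1)).im := by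
  have h0 := lipE 0 (.inr i)
  have h1 := lipE 1 (.inr i)
  have r0 : ((4 * 10 ^ 720 : ℤ) : ℝ) ≤ _ := Int.cast_le.2 (n_im i).1
  have r1 := gi_le (n_im i).2.1
  have r2 := gi_le (n_im i).2.2
  have hS := nS_pos
  rw [GaussianInt.intCast_im] at r0
  simp only [map_mul, map_pow, norm_mul, norm_pow, map_ofNat, Complex.norm_ofNat,
    GaussianInt.toComplex_star] at r0 r1 r2
  have a0 : ∀ l, ‖(cu (col l) (nγ i) : ℂ)‖ ≤ ‖(nS : ℂ)‖ ^ 3 * 3000 →
      ‖cc (col l) (ct (.inr i))‖ ≤ 3000 := fun l h => by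
    change ‖cc (col l) (nγ i / nS)‖ ≤ _
    rw [cc_div, norm_div, norm_pow, div_le_iff₀ (by positivity)]
    linarith
  have a1 := a0 0 r1
  have a2 := a0 1 r2
  have a3 : 4 ≤ (cc (col 0) (ct (.inr i)) * conj (cc (col 1) (ct (.inr i)))).im := by
    have e : cc (col 0) (ct (.inr i)) * conj (cc (col 1) (ct (.inr i))) =
        (cu (col 0) (nγ i) * conj (cu (col 1) (nγ i) : ℂ)) / ((10 ^ 720 : ℝ) : ℂ) := by
      change cc (col 0) (nγ i / nS) * conj (cc (col 1) (nγ i / nS)) = _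
      rw [cc_div, cc_div, map_div₀, nS_eq, div_mul_div_comm]
      congr 1
      simp only [map_pow, map_ofNat]
      push_cast
      rw [← pow_mul, ← pow_add]
    rw [e, Complex.div_ofReal_im, le_div_iff₀ (by positivity)]
    exact_mod_cast r0
  rw [x_col, x_col]
  change ‖cc (col 0) (vγ i) - _‖ ≤ _ at h0
  change ‖cc (col 1) (vγ i) - _‖ ≤ _ at h1
  generalize cc (col 0) (vγ i) = x at *
  generalize cc (col 1) (vγ i) = y at *
  generalize cc (col 0) (ct (.inr i)) = x' at *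
  generalize cc (col 1) (ct (.inr i)) = y' at *
  have e : x * conj y = x' * conj y' +
      ((x - x') * conj (y - y') + (x - x') * conj y' + x' * conj (y - y')) := by
    rw [map_sub]; ring
  have b : ‖(x - x') * conj (y - y') + (x - x') * conj y' + x' * conj (y - y')‖ ≤ 1 := by
    refine norm_add₃_le.trans ?_
    simp only [norm_mul, Complex.norm_conj]
    nlinarith [mul_le_mul h0 h1 (norm_nonneg _) (by norm_num),
      mul_le_mul h0 a2 (norm_nonneg _) (by norm_num), mul_le_mul a1 h1 (norm_nonneg _) (by norm_num)]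
  rw [e, Complex.add_im]
  linarith [abs_le.1 ((Complex.abs_im_le_norm _).trans b)]

theorem v_one (i : Fin 3) : xp ve (vγ i) 1 ≠ 0 := fun h => by simpa [h] using v_im i

theorem n_gen : ∀ i, gchk 6 (gl i) 1 = true
  | 0 => n_gen0
  | 1 => n_gen1
  | 2 => n_gen2

theorem vP_rel (k : Fin 9 ⊕ Fin 3) : ‖vP k * nS - nP k‖ ≤ 1 / 10 ^ 6 * ‖(nP k : ℂ)‖ := by
  have h := gi_le (n_size k).2
  have hS := nS_ne
  simp only [map_mul, norm_mul, map_ofNat, Complex.norm_ofNat] at h
  have e : vP k * nS - nP k = (vP k - ct k) * nS := by rw [ct]; field_simp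
  rw [e, norm_mul]
  nlinarith [mul_le_mul (vP_near k).le h (norm_nonneg _) (by norm_num), norm_nonneg (nP k : ℂ)]

theorem exists_data : Nonempty Data := ⟨{
  e := ve
  a := va
  dual := v_dual
  θ := vθ
  P := fun j i => (((xp ve (vθ j) 2)⁻¹ • xp ve (vθ j)) i).re
  u := fun j => xp ve (vθ j) 2
  γ := vγ
  t := fun i => xp ve (vγ i) 0 / xp ve (vγ i) 1
  v := fun i => xp ve (vγ i) 1
  θ_inj := vθ_inj
  γ_inj := vγ_inj
  xθ := fun j => by
    rw [← ((v_real j).smul _).eq_ofR (k := 2) (by simp [v_two j]), smul_smul,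
      mul_inv_cancel₀ (v_two j), one_smul]
  P2 := fun j => by simp [v_two j]
  ψe := v_ψe
  ψx := v_ψx
  ze := nE_ne
  zx := v_zx
  xγ := fun i => by
    have := v_one i
    ext k
    fin_cases k
    · simp [zp]; field_simp
    · simp [zp]
    · have h := v_zx (vγ i)
      rw [Finset.prod_eq_zero (Finset.mem_univ i) (sub_self _), mul_zero] at h
      simp [zp, h]
  t_pos := fun i => by
    have h := v_im i
    have := Complex.normSq_pos.2 (v_one i)
    rw [div_eq_mul_inv, Complex.inv_def, ← mul_assoc, Complex.mul_im, Complex.ofReal_im,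
      Complex.ofReal_re, mul_zero, zero_add]
    positivity
  gen := fun S hS hc hp i => by
    by_contra hi
    refine gen_aux (n_gen i) (fun r hr => ?_) hc hp
    rcases hS r hr with ⟨j, rfl⟩ | ⟨k, rfl⟩
    · exact ⟨nθ j, List.mem_append_left _ (List.mem_ofFn.2 ⟨j, rfl⟩), vP_rel (.inl j)⟩
    · refine ⟨nγ k, List.mem_append_right _ ?_, vP_rel (.inr k)⟩
      rcases (by decide : ∀ i k : Fin 3, k ≠ i → k = i + 1 ∨ k = i + 2) i k
        fun e => hi (e ▸ hr) with rfl | rfl <;> simp }⟩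

end Pool.Agent.MP_42957e_ag
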