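import Pool.Agent.MP_42957e_ag.DataA

set_option autoImplicit false

namespace Pool.Agent.MP_42957e_ag

open MvPolynomial Filter Topology Asymptotics
open scoped ComplexConjugate

theorem oval_real (A : Fam) (s : ℝ) (N : Fin 3 → ℝ) (h : (eval (ofR N) (A.F s)).re = 0) :
    eval (ofR N) (A.F s) = 0 := by
  have h1 := eval_cj_ofR (A.F s) N
  rw [A.cj_F] at h1
  exact Complex.ext h (Complex.conj_eq_iff_im.1 h1.symm)

theorem oval_dir (A : Fam) (j : Fin 9) : ∃ f : Fin 3 → ℝ, f 2 = 0 ∧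
    dv A.φ (ofR (A.P j)) (ofR f) = -eval (ofR (A.P j)) A.W := by
  obtain ⟨f, h0, h1, h2⟩ := exists_dual
    (ContinuousLinearMap.proj (R := ℂ) (φ := fun _ : Fin 3 => ℂ) 2) (dvL A.φ (ofR (A.P j)))
    (dvL A.ψ (ofR (A.P j)))
    (fun x e0 e1 e2 => A.inj_P j x e0 (by rwa [dvL_apply] at e1) (by rwa [dvL_apply] at e2))
    0 (-eval (ofR (A.P j)) A.W) (conj (-eval (ofR (A.P j)) A.W))
  rw [dvL_apply] at h1 h2
  have h0' : f 2 = 0 := h0
  have h3 : dv A.φ (ofR (A.P j)) (star f) = -eval (ofR (A.P j)) A.W := by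
    rw [dv_cj, star_ofR] at h2
    exact (starRingEnd ℂ).injective h2
  have h4 : dv A.ψ (ofR (A.P j)) (star f) = conj (-eval (ofR (A.P j)) A.W) := by
    rw [dv_cj, star_ofR, star_star, h1]
  have h5 : star f - f = 0 := A.inj_P j _ (by simp [h0'])
    (by rw [dv_sub_right, h1, h3, sub_self]) (by rw [dv_sub_right, h2, h4, sub_self])
  have h6 : ofR (fun i => (f i).re) = f := funext fun i =>
    Complex.conj_eq_iff_re.1 (congrFun (sub_eq_zero.1 h5) i)
  exact ⟨fun i => (f i).re, by simp [h0'], by rw [h6, h1]⟩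

theorem oval_neg (A : Fam) (j : Fin 9) {ρ : ℝ} (hρ : 0 < ρ) : ∀ᶠ s in 𝓝[>] (0 : ℝ),
    ∃ N : Fin 3 → ℝ, N 2 = 1 ∧ dist N (A.P j) ≤ ρ ∧ (eval (ofR N) (A.F s)).re < 0 := by
  obtain ⟨f, h0, h1⟩ := oval_dir A j
  have hq : Tendsto (fun s : ℝ => A.P j + s • f) (𝓝[>] 0) (𝓝 (A.P j)) := by
    refine Tendsto.mono_left (Continuous.tendsto' (by fun_prop) _ _ (by simp)) nhdsWithin_le_nhds
  have hq' : Tendsto (fun s : ℝ => ofR (A.P j + s • f)) (𝓝[>] 0) (𝓝 (ofR (A.P j))) :=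
    (continuous_ofR.tendsto _).comp hq
  have e1 : ∀ s : ℝ, ofR (A.P j + s • f) = ofR (A.P j) + (s : ℂ) • ofR f := fun s => by
    funext i
    simp
  have e2 : ∀ s : ℝ, (A.P j + s • f) 2 = 1 := fun s => by simp [h0, A.P2]
  have hd : HasDerivAt (fun t : ℂ => ofR (A.P j) + t • ofR f) (ofR f) 0 := by
    simpa using ((hasDerivAt_id (0 : ℂ)).smul_const (ofR f)).const_add (ofR (A.P j))
  have hs : Tendsto (fun s : ℝ => (s : ℂ)) (𝓝[>] 0) (𝓝[≠] 0) :=
    tendsto_nhdsWithin_iff.2 ⟨(Complex.continuous_ofReal.tendsto' 0 0 rfl).mono_left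
      nhdsWithin_le_nhds, eventually_mem_nhdsWithin.mono fun s hs =>
        Complex.ofReal_ne_zero.2 (ne_of_gt hs)⟩
  have h2 := (hasDerivAt_iff_tendsto_slope_zero.1 (hasDerivAt_eval A.φ hd)).comp hs
  simp only [Function.comp_def, zero_smul, add_zero, zero_add, A.φ_P, sub_zero, h1, ← e1,
    smul_eq_mul] at h2
  have h3 := h2.add (tendsto_eval hq' A.W)
  rw [neg_add_cancel] at h3
  have h4 := (Complex.continuous_re.tendsto _).comp ((h3.mul
    ((Complex.continuous_conj.tendsto _).comp h3)).sub (tendsto_eval hq' A.T))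
  rw [zero_mul, zero_sub, A.T_P, Complex.neg_re, Complex.ofReal_re] at h4
  filter_upwards [h4.eventually (gt_mem_nhds (neg_lt_zero.2 A.η_pos)), self_mem_nhdsWithin,
    hq.eventually (Metric.closedBall_mem_nhds _ hρ)] with s h5 h6 h7
  refine ⟨_, e2 s, h7, ?_⟩
  have h8 : (s : ℂ) ≠ 0 := Complex.ofReal_ne_zero.2 (ne_of_gt h6)
  obtain ⟨N, hN⟩ : ∃ N, N = A.P j + s • f := ⟨_, rfl⟩
  have hN2 : ofR N 2 = 1 := by rw [ofR_apply, hN, e2, Complex.ofReal_one]
  simp only [Function.comp_def, ← hN] at h5 ⊢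
  have h9 := A.mul_eval_F s (ofR N)
  rw [A.eval_φt, A.eval_ψt, hN2, eval_cj_ofR, eval_cj_ofR] at h9
  have h10 : eval (ofR N) (A.F s) = ((s ^ 2 : ℝ) : ℂ) *
      (((s : ℂ)⁻¹ * eval (ofR N) A.φ + eval (ofR N) A.W) *
        conj ((s : ℂ)⁻¹ * eval (ofR N) A.φ + eval (ofR N) A.W) - eval (ofR N) A.T) := by
    rw [map_add, map_mul, map_inv₀, Complex.conj_ofReal, ← one_mul (eval (ofR N) (A.F s)), h9]
    push_cast
    field_simp
  rw [h10, Complex.re_ofReal_mul]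
  exact mul_neg_of_pos_of_neg (pow_pos h6 2) h5

theorem Fam.oval (A : Fam) (j : Fin 9) : ∃ ρ : ℝ, 0 < ρ ∧
    (∀ N : Fin 3 → ℝ, N 2 = 1 → dist N (A.P j) ≤ ρ → eval (ofR N) A.φ = 0 → N = A.P j) ∧
    ∀ᶠ s in 𝓝[>] (0 : ℝ),
      (∀ N : Fin 3 → ℝ, N 2 = 1 → dist N (A.P j) = ρ → eval (ofR N) (A.F s) ≠ 0) ∧
      ∃ N : Fin 3 → ℝ, N 2 = 1 ∧ dist N (A.P j) ≤ ρ ∧ eval (ofR N) (A.F s) = 0 := by
  have h0 : ∀ᶠ ρ in 𝓝[>] (0 : ℝ), ∀ k, A.P k ≠ A.P j → ρ < dist (A.P k) (A.P j) := by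
    refine eventually_all.2 fun k => ?_
    by_cases h : A.P k = A.P j
    · exact Eventually.of_forall fun _ h' => absurd h h'
    · exact ((eventually_lt_nhds (dist_pos.2 h)).filter_mono nhdsWithin_le_nhds).mono
        fun _ h1 _ => h1
  obtain ⟨ρ, h1, hρ⟩ := (h0.and self_mem_nhdsWithin).exists
  have hρ' : 0 < ρ := hρ
  have h2 : ∀ N : Fin 3 → ℝ, N 2 = 1 → dist N (A.P j) ≤ ρ → eval (ofR N) A.φ = 0 →
      N = A.P j := fun N hN hd h => by
    obtain ⟨k, c, hc⟩ := A.common h (by rw [eval_cj_ofR, h, map_zero])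
    have hc1 : c = 1 := by simpa [hN, A.P2] using (congrFun hc 2).symm
    have e : N = A.P k := funext fun i => by simpa [hc1] using congrFun hc i
    by_contra hne
    rw [e] at hne hd
    exact (h1 k hne).not_ge hd
  have hc : Continuous fun x : ℝ × (Fin 3 → ℝ) => (eval (ofR x.2) (A.F x.1)).re := by
    have := Complex.continuous_re.comp (A.continuous_F.comp
      (continuous_fst.prodMk (continuous_ofR.comp continuous_snd)))
    simp only [Function.comp_def] at this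
    exact this
  have h3 : ∀ᶠ s in 𝓝 (0 : ℝ), ∀ N ∈ Metric.sphere (A.P j) ρ ∩ {N | N 2 = 1},
      0 < (eval (ofR N) (A.F s)).re := by
    refine ((isCompact_sphere _ _).inter_right (isClosed_eq (continuous_apply 2)
      continuous_const)).eventually_forall_of_forall_eventually fun N hN => ?_
    refine (hc.tendsto (0, N)).eventually (lt_mem_nhds ?_)
    have hN2 : N 2 = 1 := hN.2
    have hne : eval (ofR N) A.φ ≠ 0 := fun h => by
      have := hN.1
      rw [h2 N hN2 (Metric.mem_sphere.1 hN.1).le h, Metric.mem_sphere, dist_self] at this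
      exact hρ'.ne this
    change 0 < (eval (ofR N) (A.F 0)).re
    rw [A.eval_F, eval_cj_ofR, ofR_apply, hN2, Complex.ofReal_one, one_mul, Complex.mul_conj,
      Complex.ofReal_zero, zero_mul, add_zero, zero_pow two_ne_zero, zero_mul, add_zero,
      Complex.ofReal_re]
    exact Complex.normSq_pos.2 hne
  refine ⟨ρ, hρ', h2, ?_⟩
  filter_upwards [nhdsWithin_le_nhds h3, oval_neg A j hρ'] with s h4 ⟨N, hN, hd, h5⟩
  refine ⟨fun M hM hM' h => ?_, ?_⟩
  · have := h4 M ⟨hM', hM⟩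
    rw [h, Complex.zero_re] at this
    exact lt_irrefl _ this
  have hC : Convex ℝ (Metric.closedBall (A.P j) ρ ∩ {N | N 2 = 1}) :=
    (convex_closedBall _ _).inter fun x hx y hy a b _ _ hab => by
      have hx' : x 2 = 1 := hx
      have hy' : y 2 = 1 := hy
      simp [hx', hy', hab]
  have hM : A.P j + Pi.single 0 ρ ∈ Metric.sphere (A.P j) ρ ∩ {N : Fin 3 → ℝ | N 2 = 1} :=
    ⟨by simp [Pi.norm_single, hρ'.le], by simp [A.P2]⟩
  obtain ⟨M, hM1, hM2⟩ := hC.isPreconnected.intermediate_value ⟨hd, hN⟩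
    ⟨Metric.sphere_subset_closedBall hM.1, hM.2⟩
    (hc.comp (continuous_const.prodMk continuous_id : Continuous fun M => (s, M))).continuousOn
    ⟨h5.le, (h4 _ hM).le⟩
  exact ⟨M, hM1.2, hM1.1, oval_real A s M hM2⟩

end Pool.Agent.MP_42957e_ag
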