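import Pool.Agent.MP_42957e_ag.Lim

set_option autoImplicit false

namespace Pool.Agent.MP_42957e_ag

open MvPolynomial Filter Topology Asymptotics
open scoped ComplexConjugate

theorem resc_iso {p : Polynomial ℂ} (hp : p ≠ 0) (x0 : ℂ) :
    ∀ᶠ x in 𝓝 x0, p.eval x = 0 → x = x0 := by
  have hf : ({x | p.IsRoot x} \ {x0}).Finite := (Polynomial.finite_setOfPred_isRoot hp).sdiff
  filter_upwards [hf.isClosed.isOpen_compl.mem_nhds (show x0 ∈ _ by simp)] with x hx h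
  by_contra hne
  exact hx ⟨h, hne⟩

theorem resc_root {p : Polynomial ℂ} {a b : ℕ} (hab : a ≠ b) (ha : p.coeff a ≠ 0)
    (hb : p.coeff b ≠ 0) : ∃ z, z ≠ 0 ∧ p.eval z = 0 := by
  by_contra hn
  push Not at hn
  have h1 : p.roots = Multiset.replicate p.roots.card 0 :=
    Multiset.eq_replicate_card.2 fun z hz => by
      by_contra hz0
      exact hn z hz0 (Polynomial.mem_roots'.1 hz).2
  have h2 := (IsAlgClosed.splits p).eq_prod_roots
  rw [h1, Multiset.map_replicate, Multiset.prod_replicate, map_zero, sub_zero] at h2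
  rw [h2, Polynomial.coeff_C_mul_X_pow] at ha hb
  split_ifs at ha hb with e1 e2
  · exact hab (e1.trans e2.symm)
  all_goals simp at ha hb

theorem resc_A {Φ g p : Polynomial ℂ} {τ : ℂ} {k : ℂ × ℂ → ℂ} {w : ℕ} (hp : p ≠ 0)
    (hk : ∀ q : ℂ × ℂ, q.1 * Φ.eval q.2 + τ * g.eval q.2 = 0 → Φ.eval q.2 ^ w * k q = p.eval q.2)
    {x : ℂ} (hx : p.eval x = 0) (hΦ : Φ.eval x ≠ 0) :
    ∃ q0 : ℂ × ℂ, q0.2 = x ∧ q0.1 * Φ.eval q0.2 + τ * g.eval q0.2 = 0 ∧ k q0 = 0 ∧
      ∀ᶠ q in 𝓝[≠] q0, q.1 * Φ.eval q.2 + τ * g.eval q.2 = 0 → k q ≠ 0 := by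
  have h0 : -τ * g.eval x / Φ.eval x * Φ.eval x + τ * g.eval x = 0 := by
    field_simp
    ring
  refine ⟨(-τ * g.eval x / Φ.eval x, x), rfl, h0, ?_, ?_⟩
  · have := hk (_, x) h0
    rw [hx] at this
    exact (mul_eq_zero.1 this).resolve_left (pow_ne_zero _ hΦ)
  · have h1 := (continuous_snd.tendsto (-τ * g.eval x / Φ.eval x, x)).eventually (resc_iso hp x)
    filter_upwards [nhdsWithin_le_nhds h1, self_mem_nhdsWithin] with q hq hne hf hkq
    have h2 := hk q hf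
    rw [hkq, mul_zero] at h2
    have h3 := hq h2.symm
    refine hne (Prod.ext ?_ h3)
    rw [h3] at hf
    show q.1 = _
    rw [eq_div_iff hΦ]
    linear_combination hf

theorem resc_B {Φ p : Polynomial ℂ} {k : ℂ × ℂ → ℂ} (hΦ : Φ ≠ 0) (hp : p ≠ 0) {t z : ℂ}
    (hk : ∀ ζ, k (ζ, t) = p.eval ζ) (hz : z ≠ 0) :
    ∀ᶠ q in 𝓝[≠] (z, t), q.1 * Φ.eval q.2 = 0 → k q ≠ 0 := by
  have h1 := (continuous_snd.tendsto (z, t)).eventually (resc_iso hΦ t)
  have h2 := (continuous_fst.tendsto (z, t)).eventually (resc_iso hp z)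
  have h3 := (continuous_fst.tendsto (z, t)).eventually_ne hz
  filter_upwards [nhdsWithin_le_nhds h1, nhdsWithin_le_nhds h2, nhdsWithin_le_nhds h3,
    self_mem_nhdsWithin] with q a b c hne hf hkq
  have e := a ((mul_eq_zero.1 hf).resolve_left c)
  refine hne (Prod.ext (b ?_) e)
  rw [← hk, ← e]
  exact hkq

theorem resc_delta {ι : Type} {l : Filter ι} {s : ι → ℝ} {m : Fin 6 → ι → ℝ} {w : ℕ}
    (h1 : 1 ≤ w) (h2 : w ≤ 2) (hs : Tendsto s l (𝓝 0)) (hm0 : ∀ a i, 0 ≤ m a i)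
    (hm : ∀ a : Fin 6, (a : ℕ) < w → Tendsto (m a) l (𝓝 0)) :
    ∃ δ : ι → ℝ, Tendsto δ l (𝓝 0) ∧ (∀ i, s i ≤ δ i) ∧
      (∀ i (a : Fin 6), (a : ℕ) < w → m a i ≤ δ i ^ (w - a)) ∧
      ∀ i, s i = δ i ∨ ∃ a : Fin 6, (a : ℕ) < w ∧ m a i = δ i ^ (w - a) := by
  obtain rfl | rfl : w = 1 ∨ w = 2 := by omega
  · refine ⟨fun i => max (s i) (m 0 i), by simpa using hs.max (hm 0 (by simp)),
      fun i => le_max_left _ _, fun i a ha => ?_, fun i => ?_⟩
    · obtain rfl : a = 0 := Fin.ext (by simpa using ha)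
      simp
    · rcases max_cases (s i) (m 0 i) with h | h
      · exact Or.inl h.1.symm
      · exact Or.inr ⟨0, by simp, by simp [h.1]⟩
  · refine ⟨fun i => max (s i) (max (m 1 i) √(m 0 i)),
      by simpa using hs.max ((hm 1 (by simp)).max (hm 0 (by simp)).sqrt),
      fun i => le_max_left _ _, fun i a ha => ?_, fun i => ?_⟩
    · obtain rfl | rfl : a = 0 ∨ a = 1 := by
        rcases a with ⟨a, _⟩
        simp only [Fin.ext_iff] at ha ⊢
        simp only [Fin.val_zero, Fin.val_one]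
        omega
      · exact (Real.sqrt_le_left ((Real.sqrt_nonneg _).trans
          ((le_max_right _ _).trans (le_max_right _ _)))).1
          ((le_max_right _ _).trans (le_max_right _ _))
      · simp
    · rcases max_cases (s i) (max (m 1 i) √(m 0 i)) with h | h
      · exact Or.inl h.1.symm
      · rcases max_cases (m 1 i) √(m 0 i) with h' | h'
        · refine Or.inr ⟨1, by simp, ?_⟩
          show m 1 i = (max _ _) ^ 1
          rw [h.1, h'.1, pow_one]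
        · refine Or.inr ⟨0, by simp, ?_⟩
          show m 0 i = (max _ _) ^ 2
          rw [h.1, h'.1, Real.sq_sqrt (hm0 _ _)]

theorem resc_lim {ι : Type} {𝒰 : Ultrafilter ι} {E : Type} [NormedAddCommGroup E]
    [ProperSpace E] {f : ι → E} (h : ∀ᶠ i in 𝒰, ‖f i‖ ≤ 1) : ∃ x, Tendsto f 𝒰 (𝓝 x) := by
  obtain ⟨x, -, hx⟩ := (isCompact_closedBall (0 : E) 1).ultrafilter_le_nhds' (𝒰.map f)
    (Ultrafilter.mem_map.2 (h.mono fun i hi => by simpa using hi))
  exact ⟨x, hx⟩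

/-- chart point -/
noncomputable def rescPt (δ : ℝ) (q : ℂ × ℂ) : V :=
  ch ![0, 1, 0] ((δ : ℂ) • ![0, 0, 1]) ![1, 0, 0] q

theorem resc_pt0 (δ : ℝ) (q : ℂ × ℂ) : rescPt δ q 0 = q.2 := by simp [rescPt, ch]
theorem resc_pt1 (δ : ℝ) (q : ℂ × ℂ) : rescPt δ q 1 = 1 := by simp [rescPt, ch]
theorem resc_pt2 (δ : ℝ) (q : ℂ × ℂ) : rescPt δ q 2 = δ * q.1 := by simp [rescPt, ch, mul_comm]

theorem resc_pt_zero (q : ℂ × ℂ) : rescPt 0 q = zp q.2 := by
  ext i
  fin_cases i <;> simp [rescPt, ch, zp]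

noncomputable def rescF (A : Fam) (σ : ℝ × ℝ × ℝ × Arr) (q : ℂ × ℂ) : ℂ :=
  q.1 * eval (rescPt σ.1 q) (A.φ * A.ψ) + σ.2.1 * eval (rescPt σ.1 q) A.G +
    (σ.2.2.1 : ℂ) ^ 2 * (q.1 * eval (rescPt σ.1 q) A.R)

noncomputable def rescK (σ : ℝ × ℝ × ℝ × Arr) (q : ℂ × ℂ) : ℂ :=
  ∑ a : Fin 6, q.1 ^ (a : ℕ) * (rowP σ.2.2.2 a).eval q.2

theorem resc_persist {A : Fam} {ι : Type} {𝒰 : Ultrafilter ι} (S : Seq A ι 𝒰) {w : ℕ}
    {δ : ι → ℝ} (hδ : Tendsto δ 𝒰 (𝓝 0)) (hsδ : ∀ i, S.s i ≤ δ i) {τ0 : ℝ}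
    (hτ : Tendsto (fun i => S.s i / δ i) 𝒰 (𝓝 τ0)) {r0 : Arr}
    (hr : Tendsto (fun i (a : Fin 6) => (δ i ^ (a : ℕ) / δ i ^ w) • S.c i a) 𝒰 (𝓝 r0))
    (hne : ∃ q, rescF A (0, τ0, 0, r0) q ≠ 0) {q0 : ℂ × ℂ} (him : q0.2.im ≠ 0)
    (hf : rescF A (0, τ0, 0, r0) q0 = 0) (hk : rescK (0, τ0, 0, r0) q0 = 0)
    (hiso : ∀ᶠ q in 𝓝[≠] q0, rescF A (0, τ0, 0, r0) q = 0 → rescK (0, τ0, 0, r0) q ≠ 0) :
    False := by
  have hpos : ∀ᶠ i in 𝒰, 0 < δ i :=
    (S.hs.eventually self_mem_nhdsWithin).mono fun i hi => lt_of_lt_of_le hi (hsδ i)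
  have hs0 : Tendsto S.s 𝒰 (𝓝 0) := S.hs.mono_right nhdsWithin_le_nhds
  have hc : ∀ K : CP, Continuous fun x : (ℝ × ℝ × ℝ × Arr) × (ℂ × ℂ) =>
      eval (rescPt x.1.1 x.2) K := fun K =>
    (continuous_evalV K).comp (by unfold rescPt ch; fun_prop)
  have hd : ∀ (K : CP) (t : ℝ), ContDiff ℂ 1 fun q => eval (rescPt t q) K := fun K t =>
    contDiff_ch K _ _ _
  have hfd : ∀ σ, ContDiff ℂ 1 (rescF A σ) := fun σ =>
    ((contDiff_fst.mul (hd _ _)).add (contDiff_const.mul (hd _ _))).add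
      (contDiff_const.mul (contDiff_fst.mul (hd _ _)))
  have hF : ∀ i r, 0 < δ i → ∀ q, eval (rescPt (δ i) q) (A.F (S.s i)) =
      δ i * rescF A (δ i, S.s i / δ i, S.s i, r) q := fun i r hi q => by
    have : (δ i : ℂ) ≠ 0 := by exact_mod_cast hi.ne'
    simp only [Fam.eval_F, rescF, resc_pt2, map_mul]
    push_cast
    field_simp
  have hne0 : ∀ t q, rescPt t q ≠ 0 := fun t q h => by
    have := resc_pt1 t q
    rw [h] at this
    simp at this
  have key := persist (l := (𝒰 : Filter ι)) (f := rescF A) (k := rescK)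
    (((continuous_snd.fst.mul (hc _)).add ((by fun_prop : Continuous _).mul (hc _))).add
      ((by fun_prop : Continuous _).mul (continuous_snd.fst.mul (hc _))))
    (by simp only [rescK, eval_rowP]; fun_prop) hfd
    (fun σ => by unfold rescK; simp only [eval_rowP]; fun_prop)
    (hδ.prodMk_nhds (hτ.prodMk_nhds (hs0.prodMk_nhds hr))) ?_ hf hk hne hiso
    (U := {q | q.2.im ≠ 0})
    ((isOpen_ne_fun (by fun_prop) continuous_const).mem_nhds him)
  · obtain ⟨i, ⟨q, hq, e1, e2⟩, hi, ht⟩ := (key.and (hpos.and S.tot)).exists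
    have h3 := ht _ (hne0 (δ i) q) (by rw [hF i _ hi, e1, mul_zero]) (by
      have hδ0 : (δ i : ℂ) ≠ 0 := by exact_mod_cast hi.ne'
      have e3 := congrArg ((δ i : ℂ) ^ w * ·) e2
      simp only [rescK, mul_zero, Finset.mul_sum, eval_rowP] at e3
      rw [eval_frm_chart _ _ (resc_pt1 _ _), ← e3]
      simp only [eval_rowP, Finset.mul_sum, resc_pt0, resc_pt2]
      refine Finset.sum_congr rfl fun a _ => Finset.sum_congr rfl fun b _ => ?_
      simp only [Pi.smul_apply, smul_eq_mul]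
      push_cast
      field_simp
      ring) 0 1
    rw [resc_pt0, resc_pt1, map_one, mul_one] at h3
    exact hq h3
  · filter_upwards [hpos, S.ns] with i hi hns q hq h0
    have hδ0 : (δ i : ℂ) ≠ 0 := by exact_mod_cast hi.ne'
    refine chart_ns (A.F_hom (S.s i)) hns (hne0 (δ i) q) (fun v => ?_)
      ((hF i _ hi q).trans (by rw [hq, mul_zero])) ?_
    · refine ⟨v 1, (v 2 - v 1 * (δ i * q.1)) / δ i, v 0 - v 1 * q.2, ?_⟩
      ext j
      fin_cases j <;> simp [ch]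
      field_simp
      ring
    · have e := funext (hF i (fun a : Fin 6 => (δ i ^ (a : ℕ) / δ i ^ w) • S.c i a) hi)
      unfold rescPt at e
      rw [e, fderiv_const_mul ((hfd _).differentiable one_ne_zero q), h0]
      ext <;> simp

theorem resc_star (x : ℂ) : star (zp x) = zp (conj x) := by
  ext i
  fin_cases i <;> simp [zp]

theorem resc_onL (D : Data) {x : ℂ} (h : eval (zp x) D.φ = 0) : ∃ i, x = D.t i := by
  obtain ⟨i, c, hc⟩ := D.onL h rfl
  have h1 : (1 : ℂ) = c := by simpa [zp] using congrFun hc 1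
  exact ⟨i, by simpa [zp, ← h1] using congrFun hc 0⟩

theorem Seq.resc {A : Fam} {ι : Type} {𝒰 : Ultrafilter ι} (S : Seq A ι 𝒰) {w : ℕ} (h1 : 1 ≤ w)
    (h2 : w ≤ 2) (hd : S.d = w + 3) (hs : Supp S.d w S.c0) {κ : ℂ} (h0 : κ ≠ 0)
    (hκ : ∀ τ, eval (A.x τ) (frm S.d w S.c0) = κ * eval (A.x τ) A.ψ) : False := by
  obtain ⟨w, rfl⟩ : ∃ a : Fin 6, (a : ℕ) = w := ⟨⟨w, by omega⟩, rfl⟩
  have hrow : ∀ a, Tendsto (fun i => S.c i a) 𝒰 (𝓝 (S.c0 a)) := tendsto_pi_nhds.1 S.hc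
  obtain ⟨δ, hδ, hsδ, hle, heq⟩ := resc_delta (l := (𝒰 : Filter ι)) (s := S.s)
    (m := fun a i => ‖S.c i a‖) h1 h2 (S.hs.mono_right nhdsWithin_le_nhds)
    (fun _ _ => norm_nonneg _) fun a ha => by
      have : S.c0 a = 0 := funext fun b => by
        by_contra hb
        have := (hs a b hb).1
        omega
      simpa [this] using (hrow a).norm
  have hs0 : ∀ᶠ i in 𝒰, 0 < S.s i := S.hs.eventually self_mem_nhdsWithin
  have hpos : ∀ᶠ i in 𝒰, 0 < δ i := hs0.mono fun i hi => lt_of_lt_of_le hi (hsδ i)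
  obtain ⟨τ0, hτ⟩ := resc_lim (𝒰 := 𝒰) (f := fun i => S.s i / δ i) (by
    filter_upwards [hs0, hpos] with i a b
    rw [Real.norm_eq_abs, abs_of_pos (div_pos a b)]
    exact (div_le_one b).2 (hsδ i))
  have hnorm : ∀ i (a : Fin 6), 0 < δ i → (a : ℕ) < w →
      ‖(δ i ^ (a : ℕ) / δ i ^ (w : ℕ)) • S.c i a‖ = ‖S.c i a‖ / δ i ^ ((w : ℕ) - a) := by
    intro i a hi ha
    rw [norm_smul, Real.norm_eq_abs, abs_of_pos (by positivity), pow_sub₀ _ hi.ne' ha.le]
    field_simp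
  have hex : ∀ a : Fin 6, ∃ ρ, Tendsto (fun i => (δ i ^ (a : ℕ) / δ i ^ (w : ℕ)) • S.c i a) 𝒰
      (𝓝 ρ) ∧ (a = w → ρ = S.c0 a) ∧ ((w : ℕ) < a → ρ = 0) := by
    intro a
    rcases lt_trichotomy (a : ℕ) w with h | h | h
    · obtain ⟨ρ, hρ⟩ := resc_lim (𝒰 := 𝒰)
        (f := fun i => (δ i ^ (a : ℕ) / δ i ^ (w : ℕ)) • S.c i a) (hpos.mono fun i hi => by
          rw [hnorm i a hi h]
          exact (div_le_one (by positivity)).2 (hle i a h))
      exact ⟨ρ, hρ, fun e => by omega, fun e => by omega⟩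
    · refine ⟨S.c0 a, (hrow a).congr' (hpos.mono fun i hi => ?_), fun _ => rfl, fun e => by omega⟩
      simp only [h]
      rw [div_self (by positivity), one_smul]
    · refine ⟨0, ?_, fun e => by omega, fun _ => rfl⟩
      have := (hδ.pow ((a : ℕ) - w)).smul (hrow a)
      rw [zero_pow (by omega), zero_smul] at this
      refine this.congr' (hpos.mono fun i hi => ?_)
      simp only
      rw [pow_sub₀ _ hi.ne' h.le, div_eq_mul_inv]
  choose r0 hr hrw hr0 using hex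
  have hcase : τ0 ≠ 0 ∨ ∃ a : Fin 6, (a : ℕ) < w ∧ r0 a ≠ 0 := by
    rcases Ultrafilter.eventually_or.1 (Eventually.of_forall (f := (𝒰 : Filter ι)) heq) with h | h
    · have : Tendsto (fun i => S.s i / δ i) 𝒰 (𝓝 1) :=
        tendsto_const_nhds.congr' ((h.and hpos).mono fun i hi => by
          simp only [hi.1]
          rw [div_self hi.2.ne'])
      exact Or.inl (by rw [tendsto_nhds_unique hτ this]; exact one_ne_zero)
    · obtain ⟨a, ha⟩ := Ultrafilter.eventually_exists_iff.1 h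
      have hlt := ha.exists.choose_spec.1
      have : Tendsto (fun i => ‖(δ i ^ (a : ℕ) / δ i ^ (w : ℕ)) • S.c i a‖) 𝒰 (𝓝 1) :=
        tendsto_const_nhds.congr' ((ha.and hpos).mono fun i hi => by
          have := hi.2
          simp only
          rw [hnorm i a hi.2 hlt, hi.1.2, div_self (by positivity)])
      refine Or.inr ⟨a, hlt, fun e => ?_⟩
      have := tendsto_nhds_unique (hr a).norm this
      rw [e, norm_zero] at this
      exact zero_ne_one this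
  obtain ⟨Φ, dΦ, -, hΦ⟩ := exists_zp_poly (A.φ_hom.mul A.ψ_hom)
  obtain ⟨g, dg, -, hg⟩ := exists_zp_poly A.G_hom
  have hf : ∀ q, rescF A (0, τ0, 0, r0) q = q.1 * Φ.eval q.2 + τ0 * g.eval q.2 := fun q => by
    simp [rescF, resc_pt_zero, hΦ, hg]
  have hroot : ∀ x, Φ.eval x = 0 → ∃ i, x = A.t i ∨ x = conj (A.t i) := fun x hx => by
    rw [hΦ, map_mul, mul_eq_zero] at hx
    rcases hx with hx | hx
    · obtain ⟨i, hi⟩ := resc_onL A.toData hx
      exact ⟨i, Or.inl hi⟩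
    · rw [eval_cj, map_eq_zero, resc_star] at hx
      obtain ⟨i, hi⟩ := resc_onL A.toData hx
      exact ⟨i, Or.inr (by rw [← hi, Complex.conj_conj])⟩
  have hΦ0 : Φ.eval 0 ≠ 0 := fun h => by
    obtain ⟨i, hi | hi⟩ := hroot 0 h
    · have := A.t_pos i
      rw [← hi] at this
      simp at this
    · have := A.t_pos i
      rw [(map_eq_zero _).1 hi.symm] at this
      simp at this
  have H : ∀ q0 : ℂ × ℂ, q0.2.im ≠ 0 → q0.1 * Φ.eval q0.2 + τ0 * g.eval q0.2 = 0 →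
      rescK (0, τ0, 0, r0) q0 = 0 → (∀ᶠ q in 𝓝[≠] q0, q.1 * Φ.eval q.2 + τ0 * g.eval q.2 = 0 →
        rescK (0, τ0, 0, r0) q ≠ 0) → False := fun q0 a b c d =>
    resc_persist S hδ hsδ hτ (tendsto_pi_nhds.2 hr)
      ⟨((1 - τ0 * g.eval 0) / Φ.eval 0, 0), by
        rw [hf, div_mul_cancel₀ _ hΦ0, sub_add_cancel]; exact one_ne_zero⟩
      a (by rw [hf]; exact b) c (by simp only [hf]; exact d)
  have hR0 : ∀ a : Fin 6, (w : ℕ) < a → rowP r0 a = 0 := fun a ha => by simp [rowP, hr0 a ha]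
  have hΦt : ∀ i, Φ.eval (A.t i) = 0 := fun i => by rw [hΦ, map_mul, A.φ_z, zero_mul]
  have hgt : ∀ i, g.eval (A.t i) = eval (zp (A.t i)) A.ψ * eval (zp (A.t i)) A.W := fun i => by
    rw [hg, A.eval_G, A.φ_z, zero_mul, zero_add]
  have hRt : ∀ i, (rowP r0 w).eval (A.t i) = κ * eval (zp (A.t i)) A.ψ := fun i => by
    have e := hκ (A.γ i)
    have e1 : rowP r0 w = rowP S.c0 w := by simp only [rowP, hrw w rfl]
    rw [Data.x, A.xγ, eval_smul_hom (frm_hom hs), eval_smul_hom A.ψ_hom, eval_frm_zp hs,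
      show S.d - w = 3 by omega, mul_left_comm] at e
    rw [e1]
    exact mul_left_cancel₀ (pow_ne_zero 3 (A.v_ne i)) e
  by_cases hτ0 : τ0 = 0
  · obtain ⟨a, ha, hra⟩ := hcase.resolve_left (not_not.2 hτ0)
    obtain ⟨i, hi⟩ : ∃ i, (rowP r0 a).eval (A.t i) ≠ 0 := by
      by_contra hn
      push Not at hn
      exact hra (funext (row_eq_zero A.t_inj A.t_pos hn))
    set p : Polynomial ℂ :=
      ∑ b : Fin 6, Polynomial.C ((rowP r0 b).eval (A.t i)) * Polynomial.X ^ (b : ℕ) with hp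
    have hco : ∀ b : Fin 6, p.coeff b = (rowP r0 b).eval (A.t i) := fun b => by
      simp [hp, Polynomial.coeff_X_pow, Fin.val_inj]
    have hev : ∀ ζ, rescK (0, τ0, 0, r0) (ζ, A.t i) = p.eval ζ := fun ζ => by
      rw [hp, Polynomial.eval_finsetSum, rescK]
      refine Finset.sum_congr rfl fun a _ => ?_
      rw [Polynomial.eval_mul, Polynomial.eval_C, Polynomial.eval_pow, Polynomial.eval_X, mul_comm]
    obtain ⟨z, hz, hpz⟩ := resc_root (p := p) ha.ne (by rw [hco]; exact hi)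
      (by rw [hco, hRt]; exact mul_ne_zero h0 (A.ψ_z i))
    refine H (z, A.t i) (A.t_pos i).ne' (by simp [hΦt, hτ0]) ((hev z).trans hpz) ?_
    have := resc_B (Φ := Φ) (fun e => hΦ0 (by simp [e]))
      (fun e => hi (by rw [← hco, e, Polynomial.coeff_zero])) hev hz
    simpa [hτ0] using this
  · have hτ1 : (τ0 : ℂ) ≠ 0 := by exact_mod_cast hτ0
    set p : Polynomial ℂ :=
      ∑ a : Fin 6, (Polynomial.C (-τ0 : ℂ) * g) ^ (a : ℕ) * Φ ^ ((w : ℕ) - a) * rowP r0 a with hp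
    have hpz : ∀ x, Φ.eval x = 0 →
        p.eval x = (-τ0 * g.eval x) ^ (w : ℕ) * (rowP r0 w).eval x := fun x hx => by
      rw [hp, Polynomial.eval_finsetSum, Finset.sum_eq_single w]
      · simp
      · intro a _ ha
        rcases lt_or_gt_of_ne (Fin.val_injective.ne ha) with h | h
        · simp [hx, Nat.sub_ne_zero_of_lt h]
        · simp [hR0 a h]
      · simp
    have hpt : ∀ i, (-τ0 * g.eval (A.t i)) ^ (w : ℕ) * (rowP r0 w).eval (A.t i) ≠ 0 := fun i => by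
      rw [hgt, hRt]
      exact mul_ne_zero (pow_ne_zero _ (mul_ne_zero (neg_ne_zero.2 hτ1)
        (mul_ne_zero (A.ψ_z i) (A.Wz i)))) (mul_ne_zero h0 (A.ψ_z i))
    refine A.rat p (fun x hx => ?_) ?_ w h1 h2 ((-τ0) ^ (w : ℕ) * κ)
      (mul_ne_zero (pow_ne_zero _ (neg_ne_zero.2 hτ1)) h0) fun i => ?_
    · by_contra him
      have hx0 : Φ.eval x ≠ 0 := fun e => by
        rw [hpz x e] at hx
        obtain ⟨i, rfl | rfl⟩ := hroot x e
        · exact hpt i hx
        · refine hpt i ((map_eq_zero (starRingEnd ℂ)).1 (Eq.trans ?_ hx))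
          rw [hg, hg, ← resc_star, eval_star, A.cj_G]
          simp [eval_rowP]
      obtain ⟨q0, rfl, b, c, d⟩ := resc_A (Φ := Φ) (g := g) (τ := τ0) (w := w)
        (k := rescK (0, τ0, 0, r0)) (p := p)
        (fun e => hpt 0 (by rw [← hpz _ (hΦt 0), e, Polynomial.eval_zero])) (fun q hq => by
          rw [hp, Polynomial.eval_finsetSum, rescK, Finset.mul_sum]
          refine Finset.sum_congr rfl fun a _ => ?_
          rcases le_or_gt (a : ℕ) w with h | h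
          · have e : -(τ0 : ℂ) * g.eval q.2 = q.1 * Φ.eval q.2 := by linear_combination -hq
            obtain ⟨n, hn⟩ := Nat.exists_eq_add_of_le h
            simp only [Polynomial.eval_mul, Polynomial.eval_pow, Polynomial.eval_C, e, hn,
              Nat.add_sub_cancel_left]
            ring
          · simp [hR0 a h]) hx hx0
      exact H q0 him b c d
    · refine Polynomial.natDegree_sum_le_of_forall_le _ _ fun a _ => ?_
      rcases le_or_gt (a : ℕ) w with h | h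
      · have e1 := Polynomial.natDegree_pow_le_of_le (a : ℕ)
          ((Polynomial.natDegree_C_mul_le (-τ0 : ℂ) g).trans dg)
        have e2 := Polynomial.natDegree_pow_le_of_le ((w : ℕ) - a) dΦ
        refine (Polynomial.natDegree_mul_le_of_le (Polynomial.natDegree_mul_le_of_le e1 e2)
          (natDegree_rowP r0 a)).trans ?_
        omega
      · simp [hR0 a h]
    · rw [hpz _ (hΦt i), hgt, hRt]
      ring

end Pool.Agent.MP_42957e_ag
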