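import Pool.Agent.MP_42957e_ag.NS
import Pool.Agent.MP_42957e_ag.DivB
import Pool.Agent.MP_42957e_ag.Oval
import Pool.Agent.MP_42957e_ag.CB
import Pool.Agent.MP_42957e_ag.Resc
import Pool.Agent.MP_42957e_ag.ExFam
import Pool.Agent.MP_42957e_ag.Num

set_option autoImplicit false

namespace Pool.Agent.MP_42957e_ag

open MvPolynomial Filter Topology Asymptotics
open scoped ComplexConjugate

theorem Seq.false {A : Fam} {ι : Type} {𝒰 : Ultrafilter ι} (S : Seq A ι 𝒰) : False := by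
  obtain ⟨w, κ, h2, hd, hs, h0, hκ⟩ := S.lim
  rcases Nat.eq_zero_or_pos w with rfl | hw
  · exact S.cb (by simpa using hd) h0 hκ
  · exact S.resc hw h2 hd hs h0 hκ

theorem re3_zero : Re3 0 := fun i j => by simp

namespace Fam

variable (A : Fam)

theorem exists_nonreal : ∀ᶠ s in 𝓝[>] (0 : ℝ), ∃ p, ¬ Re3 p ∧ eval p (A.F s) = 0 := by
  refine nhdsWithin_le_nhds (exists_zero_near (f := fun s p => eval p (A.F s)) A.continuous_F
    (fun _ => differentiable_evalV _) (q0 := A.e 2) ?_ ?_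
    (isClosed_re3.isOpen_compl.mem_nhds (A.not_re3 A.φ_e A.ψe)))
  · simp [eval_F, A.φ_e]
  · simpa [eval_F] using A.exists_ne

/-- a normalised member of a total pencil -/
def Pk (d : ℕ) (ρ : Fin 9 → ℝ) (x : ℝ × Arr × (Fin 9 → Fin 3 → ℝ)) : Prop :=
  ‖x.2.1‖ = 1 ∧ Supp d 0 x.2.1 ∧ NSg (A.F x.1) ∧ Tot (A.F x.1) (frm d 0 x.2.1) ∧
  (eval (A.e 2) (frm d 0 x.2.1) * conj (eval (A.e 2) A.ψ * eval (ofR (A.P 8)) A.W)).im = 0 ∧
  ∀ j, x.2.2 j 2 = 1 ∧ dist (x.2.2 j) (A.P j) ≤ ρ j ∧ eval (ofR (x.2.2 j)) (A.F x.1) = 0 ∧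
    eval (ofR (x.2.2 j)) (frm d 0 x.2.1) = 0

theorem exists_pk {d : ℕ} (hd : d ≤ 5) {ρ : Fin 9 → ℝ} {s : ℝ} (hns : NSg (A.F s))
    (hp : ∃ p, ¬ Re3 p ∧ eval p (A.F s) = 0)
    (hov : ∀ j, (∀ N : Fin 3 → ℝ, N 2 = 1 → dist N (A.P j) = ρ j → eval (ofR N) (A.F s) ≠ 0) ∧
      ∃ N : Fin 3 → ℝ, N 2 = 1 ∧ dist N (A.P j) ≤ ρ j ∧ eval (ofR N) (A.F s) = 0)
    {G H : CP} (hG : G.IsHomogeneous d) (hH : H.IsHomogeneous d) (rG : cj G = G) (rH : cj H = H)
    (ht : ∀ a b : ℝ, (a, b) ≠ (0, 0) → Tot (A.F s) (C (a : ℂ) * G + C (b : ℂ) * H)) :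
    ∃ c N, A.Pk d ρ (s, c, N) := by
  set β := conj (eval (A.e 2) A.ψ * eval (ofR (A.P 8)) A.W)
  obtain ⟨a, b, hab, him⟩ : ∃ a b : ℝ, (a, b) ≠ (0, 0) ∧
      a * (eval (A.e 2) G * β).im + b * (eval (A.e 2) H * β).im = 0 := by
    by_cases h : (eval (A.e 2) G * β).im = 0
    · exact ⟨1, 0, by simp, by rw [h]; ring⟩
    · exact ⟨(eval (A.e 2) H * β).im, -(eval (A.e 2) G * β).im,
        fun h' => h (neg_eq_zero.1 (Prod.ext_iff.1 h').2), by ring⟩
  obtain ⟨c, hc, ec⟩ := exists_frm ((hG.C_mul (a : ℂ)).add (hH.C_mul (b : ℂ))) hd (by simp [rG, rH])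
  have hc0 : c ≠ 0 := by
    rintro rfl
    obtain ⟨p, h1, h2⟩ := hp
    refine h1 (ht a b hab p (fun h => h1 (h ▸ re3_zero)) h2 ?_)
    rw [← ec]; simp [frm]
  have hn : ‖c‖⁻¹ ≠ 0 := by simpa using hc0
  set r := ‖c‖⁻¹
  have e1 : frm d 0 (r • c) = C ((r * a : ℝ) : ℂ) * G + C ((r * b : ℝ) : ℂ) * H := by
    rw [frm_smul, ec]; simp only [Complex.ofReal_mul, map_mul]; ring
  have hab' : (r * a, r * b) ≠ (0, 0) := by simpa [hn] using hab
  have key : ∀ j, ∃ N : Fin 3 → ℝ, N 2 = 1 ∧ dist N (A.P j) ≤ ρ j ∧ eval (ofR N) (A.F s) = 0 ∧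
      eval (ofR N) (frm d 0 (r • c)) = 0 := fun j => by
    refine meet (K1 := C ((-(r * b) : ℝ) : ℂ) * G + C ((r * a : ℝ) : ℂ) * H) (A.F_hom s) hns
      (cj_frm _ _ _) (by simp only [cj_add, cj_mul, cj_C, rG, rH, Complex.conj_ofReal])
      (fun μ => ?_) (hov j).1 (hov j).2
    have := ht (-(r * b) - μ * (r * a)) (r * a - μ * (r * b)) fun h => by
      obtain ⟨h1, h2⟩ := Prod.ext_iff.1 h
      simp only at h1 h2
      have ha : r * a = 0 := by
        have : (1 + μ ^ 2) * (r * a) = 0 := by linear_combination h2 - μ * h1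
        exact (mul_eq_zero.1 this).resolve_left (by positivity)
      exact hab' (Prod.ext ha (by rw [ha] at h1; simpa using h1))
    convert this using 1
    rw [e1]; simp only [Complex.ofReal_sub, Complex.ofReal_mul, Complex.ofReal_neg, map_sub,
      map_mul, map_neg]; ring
  choose N hN using key
  refine ⟨r • c, N, ?_, hc.smul r, hns, e1 ▸ ht _ _ hab', ?_, hN⟩
  · simp only [norm_smul, r, norm_inv, norm_norm]
    exact inv_mul_cancel₀ (by simpa using hc0)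
  · change (eval (A.e 2) (frm d 0 (r • c)) * β).im = 0
    rw [e1]
    simp only [map_add, map_mul, eval_C, add_mul, mul_assoc, Complex.add_im, Complex.im_ofReal_mul]
    linear_combination r * him

theorem no_pencil {d : ℕ} (hd : d ≤ 5) : ∀ᶠ s in 𝓝[>] (0 : ℝ), ∀ G H : CP, G.IsHomogeneous d →
    H.IsHomogeneous d → cj G = G → cj H = H →
    ¬ ∀ a b : ℝ, (a, b) ≠ (0, 0) → Tot (A.F s) (C (a : ℂ) * G + C (b : ℂ) * H) := by
  choose ρ hρ0 hρ1 hρ2 using A.oval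
  by_contra hcon
  have hfr : ∃ᶠ s in 𝓝[>] (0 : ℝ), ∃ c N, A.Pk d ρ (s, c, N) := by
    refine ((not_eventually.1 hcon).and_eventually
      (A.ns.and (A.exists_nonreal.and (eventually_all.2 hρ2)))).mono ?_
    rintro s ⟨h, h1, h2, h3⟩
    push Not at h
    obtain ⟨G, H, hG, hH, rG, rH, ht⟩ := h
    exact A.exists_pk hd h1 h2 h3 hG hH rG rH ht
  have hne : (comap (fun x : {x // A.Pk d ρ x} => x.1.1) (𝓝[>] (0 : ℝ))).NeBot := by
    refine comap_neBot fun U hU => ?_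
    obtain ⟨s, ⟨c, N, h⟩, hs⟩ := (hfr.and_eventually hU).exists
    exact ⟨⟨_, h⟩, hs⟩
  set 𝒰 := Ultrafilter.of (comap (fun x : {x // A.Pk d ρ x} => x.1.1) (𝓝[>] (0 : ℝ)))
  have hs : Tendsto (fun x : {x // A.Pk d ρ x} => x.1.1) 𝒰 (𝓝[>] 0) :=
    tendsto_comap.mono_left (Ultrafilter.of_le _)
  obtain ⟨c0, hc0, hc⟩ := (isCompact_sphere (0 : Arr) 1).ultrafilter_le_nhds
    (𝒰.map fun x => x.1.2.1) (by
      rw [le_principal_iff, Ultrafilter.coe_map, mem_map]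
      exact univ_mem' fun x => by simpa using x.2.1)
  have hc' : Tendsto (fun x : {x // A.Pk d ρ x} => x.1.2.1) 𝒰 (𝓝 c0) := hc
  refine Seq.false (A := A) (𝒰 := 𝒰)
    { d := d, hd := hd, s := _, c := _, c0 := c0, hs := hs, hc := hc', c0_ne := ?_
      supp := fun x => x.2.2.1, ns := .of_forall fun x => x.2.2.2.1
      tot := .of_forall fun x => x.2.2.2.2.1, N := fun j x => x.1.2.2 j, hN := fun j => ?_
      N2 := fun j => .of_forall fun x => ⟨(x.2.2.2.2.2.2 j).1, (x.2.2.2.2.2.2 j).2.2⟩, im := ?_ }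
  · rintro rfl; simp at hc0
  · obtain ⟨N0, h0, hN⟩ := (isCompact_closedBall (A.P j) (ρ j)).ultrafilter_le_nhds
      (𝒰.map fun x => x.1.2.2 j) (by
        rw [le_principal_iff, Ultrafilter.coe_map, mem_map]
        exact univ_mem' fun x => (x.2.2.2.2.2.2 j).2.1)
    have hN' : Tendsto (fun x : {x // A.Pk d ρ x} => x.1.2.2 j) 𝒰 (𝓝 N0) := hN
    have h2 : N0 2 = 1 := tendsto_nhds_unique (((continuous_apply 2).tendsto _).comp hN')
      (tendsto_const_nhds.congr fun x => (x.2.2.2.2.2.2 j).1.symm)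
    have h3 : eval (ofR N0) (A.F 0) = 0 := tendsto_nhds_unique
      ((A.continuous_F.tendsto (0, ofR N0)).comp ((hs.mono_right nhdsWithin_le_nhds).prodMk_nhds
        ((continuous_ofR.tendsto _).comp hN')))
      (tendsto_const_nhds.congr fun x => (x.2.2.2.2.2.2 j).2.2.1.symm)
    rw [hρ1 j N0 h2 h0 (by simpa [eval_F, h2, eval_cj_ofR] using h3)] at hN'
    exact hN'
  · exact tendsto_nhds_unique ((Complex.continuous_im.tendsto _).comp
      ((((continuous_frm d 0).tendsto (c0, A.e 2)).comp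
        (hc'.prodMk_nhds tendsto_const_nhds)).mul_const _))
      (tendsto_const_nhds.congr fun x => x.2.2.2.2.2.1.symm)

end Fam

theorem exists_real {Q : CP} (h : cj Q = Q) :
    ∃ F : MvPolynomial (Fin 3) ℝ, map (algebraMap ℝ ℂ) F = Q := by
  refine ⟨∑ m ∈ Q.support, monomial m (coeff m Q).re, ?_⟩
  conv_rhs => rw [Q.as_sum]
  rw [map_sum]
  refine Finset.sum_congr rfl fun m _ => ?_
  have := congrArg (coeff m) h
  rw [cj, coeff_map] at this
  rw [map_monomial]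
  exact congrArg _ (Complex.conj_eq_iff_re.1 this)

theorem aeval_eq (F : MvPolynomial (Fin 3) ℝ) (p : V) :
    aeval p F = eval p (map (algebraMap ℝ ℂ) F) := by
  rw [aeval_def, eval_map]

theorem cj_map (F : MvPolynomial (Fin 3) ℝ) :
    cj (map (algebraMap ℝ ℂ) F) = map (algebraMap ℝ ℂ) F := by
  ext m; simp [cj, coeff_map]

theorem mem_rpts {x : CP2} : x ∈ rpts ↔ Re3 x.rep := by
  constructor
  · rintro ⟨v, h, rfl⟩
    obtain ⟨a, ha⟩ := Projectivization.exists_smul_eq_mk_rep ℂ _ h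
    rw [← ha]
    exact (re3_ofR v).smul a
  · intro h
    obtain ⟨c, v, hc, e⟩ := h.exists_ofR x.rep_nonzero
    have hv : ofR v ≠ 0 := fun h0 => x.rep_nonzero (by rw [e, h0, smul_zero])
    refine ⟨v, hv, ?_⟩
    conv_lhs => rw [← x.mk_rep]
    exact (Projectivization.mk_eq_mk_iff' ℂ _ _ _ _).2 ⟨c, e.symm⟩

theorem isOpen_rep {U : Set V} (hU : IsOpen U) (hs : ∀ c : ℂ, c ≠ 0 → ∀ p ∈ U, c • p ∈ U) :
    IsOpen[projTop] {x : CP2 | x.rep ∈ U} := by
  rw [isOpen_coinduced]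
  convert hU.preimage (continuous_subtype_val (p := fun v : V => v ≠ 0)) using 1
  ext v
  obtain ⟨a, ha⟩ := Projectivization.exists_smul_eq_mk_rep ℂ v.1 v.2
  simp only [Set.mem_preimage, Set.mem_ofPred_eq, ← ha]
  exact ⟨fun h => by simpa [Units.smul_def] using hs (a : ℂ)⁻¹ (by simp) _ h,
    fun h => hs a a.ne_zero _ h⟩

theorem main : ∃ F : MvPolynomial (Fin 3) ℝ, F.IsHomogeneous 7 ∧ Nonsingular F ∧ Dividing F ∧
    ∀ d ≤ 5, ∀ G H : MvPolynomial (Fin 3) ℝ, G.IsHomogeneous d → H.IsHomogeneous d →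
      ¬ IsTotal F G H := by
  obtain ⟨D⟩ := exists_data
  obtain ⟨A⟩ := D.exists_fam
  obtain ⟨s, hns, ⟨U, hU, hs, hdis, hcov⟩, ⟨p, hp, hp0⟩, hpen⟩ := (A.ns.and (A.div.and
    (A.exists_nonreal.and (((Set.finite_Iic 5).eventually_all).2
      fun d hd => A.no_pencil hd)))).exists
  obtain ⟨F, hF⟩ := exists_real (A.cj_F s)
  have hmk : ∀ (K : MvPolynomial (Fin 3) ℝ) {n : ℕ}, K.IsHomogeneous n → ∀ (q : V) (h : q ≠ 0),
      aeval q K = 0 → Projectivization.mk ℂ q h ∈ cpts K := fun K n hK q h h0 => by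
    obtain ⟨a, ha⟩ := Projectivization.exists_smul_eq_mk_rep ℂ q h
    change aeval _ K = 0
    rw [← ha, aeval_eq, Units.smul_def, eval_smul_hom (hK.map _), ← aeval_eq, h0, mul_zero]
  have hre : ∀ (q : V) (h : q ≠ 0), Projectivization.mk ℂ q h ∈ rpts ↔ Re3 q := fun q h => by
    obtain ⟨a, ha⟩ := Projectivization.exists_smul_eq_mk_rep ℂ q h
    rw [mem_rpts, ← ha, Units.smul_def, re3_smul_iff a.ne_zero]
  have h7 : F.IsHomogeneous 7 :=
    IsHomogeneous.of_map (algebraMap ℝ ℂ).injective (hF ▸ A.F_hom s)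
  refine ⟨F, h7, fun v hv h0 => ?_, fun hpre => ?_, fun d hd G H hG hH ht => ?_⟩
  · obtain ⟨e, he⟩ := hns v hv (by rwa [aeval_eq, hF] at h0)
    obtain ⟨i, -, hi⟩ := Finset.exists_ne_zero_of_sum_ne_zero he
    exact ⟨i, by rw [aeval_eq, ← pderiv_map, hF]; exact left_ne_zero_of_mul hi⟩
  · have hs' : ∀ c : ℂ, c ≠ 0 → ∀ p ∈ star ⁻¹' U, c • p ∈ star ⁻¹' U := fun c hc p hp => by
      simpa using hs (conj c) (by simpa using hc) _ hp
    have hne : ∀ q : V, q ∈ U → ¬ Re3 q → eval q (A.F s) = 0 →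
        ((cpts F \ rpts) ∩ {x : CP2 | x.rep ∈ U}).Nonempty ∧
        ((cpts F \ rpts) ∩ {x : CP2 | x.rep ∈ star ⁻¹' U}).Nonempty := fun q hq h1 h2 => by
      have q0 : q ≠ 0 := fun h => h1 (h ▸ re3_zero)
      have q1 : star q ≠ 0 := by simpa using q0
      obtain ⟨a, ha⟩ := Projectivization.exists_smul_eq_mk_rep ℂ q q0
      obtain ⟨b, hb⟩ := Projectivization.exists_smul_eq_mk_rep ℂ _ q1
      refine ⟨⟨_, ⟨hmk F h7 q q0 (by rw [aeval_eq, hF, h2]), fun h => h1 ((hre _ _).1 h)⟩, ?_⟩,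
        ⟨_, ⟨hmk F h7 _ q1 (by rw [aeval_eq, hF, eval_star, A.cj_F, h2, map_zero]),
          fun h => h1 (by simpa using ((hre _ _).1 h).star)⟩, ?_⟩⟩
      · change _ ∈ U
        rw [← ha]; exact hs a a.ne_zero _ hq
      · change _ ∈ star ⁻¹' U
        rw [← hb]; exact hs' b b.ne_zero _ (by simpa using hq)
    have q0 : p ≠ 0 := fun h => hp (h ▸ re3_zero)
    obtain ⟨n1, n2⟩ := (hcov p q0 hp0 hp).elim (fun h => hne p h hp hp0) fun h =>
      hne _ h (fun h' => hp (by simpa using h'.star)) (by rw [eval_star, A.cj_F, hp0, map_zero])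
    obtain ⟨x, ⟨x1, -⟩, x2, x3⟩ := hpre _ _ (isOpen_rep hU hs)
      (isOpen_rep (hU.preimage continuous_star) hs') (fun x hx => hcov _ x.rep_nonzero
        (by rw [← hF, ← aeval_eq]; exact hx.1) fun h => hx.2 (mem_rpts.2 h)) n1 n2
    exact hdis _ x2 x.rep_nonzero (by rw [← hF, ← aeval_eq]; exact x1) x3
  · refine hpen d hd _ _ (hG.map _) (hH.map _) (cj_map G) (cj_map H) fun a b hab q q0 h1 h2 => ?_
    refine (hre q q0).1 (ht a b hab ⟨hmk F h7 q q0 (by rw [aeval_eq, hF, h1]),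
      hmk _ ((hG.C_mul a).add (hH.C_mul b)) q q0 ?_⟩)
    rw [aeval_eq]; simpa using h2

end Pool.Agent.MP_42957e_ag
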