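import Pool.Agent.MP_42957e_ag.DataA

set_option autoImplicit false

namespace Pool.Agent.MP_42957e_ag

open MvPolynomial Filter Topology Asymptotics
open scoped ComplexConjugate

/-- `p` is a singular point of the member `s` of the family -/
def NSQ (A : Fam) (s : ℝ) (p : V) : Prop := eval p (A.F s) = 0 ∧ ∀ e, dv (A.F s) p e = 0

theorem NSQ.smul {A : Fam} {s : ℝ} {p : V} (h : NSQ A s p) (c : ℂ) : NSQ A s (c • p) :=
  ⟨by rw [eval_smul_hom (A.F_hom s), h.1, mul_zero],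
    fun e => by rw [dv_smul_hom (A.F_hom s), h.2, mul_zero]⟩

theorem NSQ.star {A : Fam} {s : ℝ} {p : V} (h : NSQ A s p) : NSQ A s (star p) := by
  refine ⟨by rw [eval_star, A.cj_F, h.1, map_zero], fun e => ?_⟩
  rw [← A.cj_F, dv_cj, star_star, h.2, map_zero]

theorem NS_dvF (A : Fam) (s : ℝ) (p e : V) : dv (A.F s) p e =
    e 2 * eval p A.φ * eval p A.ψ + p 2 * dv A.φ p e * eval p A.ψ +
      p 2 * eval p A.φ * dv A.ψ p e + s * dv A.G p e +
      (s : ℂ) ^ 2 * (e 2 * eval p A.R + p 2 * dv A.R p e) := by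
  simp only [Fam.F, dv_add, dv_mul, dv_X, dv_C, map_mul, eval_X, eval_C]
  ring

theorem NS_dvφt (A : Fam) (s : ℝ) (p e : V) : dv (A.φt s) p e =
    e 2 * eval p A.φ + p 2 * dv A.φ p e + s * dv A.W p e := by
  simp only [Fam.φt, dv_add, dv_mul, dv_X, dv_C, eval_X, eval_C]
  ring

theorem NS_dvψt (A : Fam) (s : ℝ) (p e : V) : dv (A.ψt s) p e =
    e 2 * eval p A.ψ + p 2 * dv A.ψ p e + s * dv (cj A.W) p e := by
  simp only [Fam.ψt, dv_add, dv_mul, dv_X, dv_C, eval_X, eval_C]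
  ring

theorem NS_dvXF (A : Fam) {s : ℝ} {p : V} (h : NSQ A s p) (e : V) :
    dv (A.φt s) p e * eval p (A.ψt s) + eval p (A.φt s) * dv (A.ψt s) p e =
      (s : ℂ) ^ 2 * dv A.T p e := by
  have h1 := congrArg (fun q => dv q p e) (A.X_mul_F s)
  simp only [dv_mul, dv_sub, dv_X, dv_C, eval_X, eval_C, h.1, h.2] at h1
  linear_combination -h1

section Local

variable {ι : Type*} {l : Filter ι} {s : ι → ℝ} {p : ι → V}

theorem NS_s (hs : Tendsto s l (𝓝[>] 0)) : Tendsto (fun i => (s i : ℂ)) l (𝓝 0) := by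
  have := (Complex.continuous_ofReal.tendsto 0).comp (tendsto_nhds_of_tendsto_nhdsWithin hs)
  simp only [Function.comp_def, Complex.ofReal_zero] at this
  exact this

theorem NS_s_ne (hs : Tendsto s l (𝓝[>] 0)) : ∀ᶠ i in l, (s i : ℂ) ≠ 0 := by
  filter_upwards [hs.eventually self_mem_nhdsWithin] with i hi
  have : 0 < s i := hi
  exact_mod_cast this.ne'

theorem NS_co {p0 : V} (hp : Tendsto p l (𝓝 p0)) (k : Fin 3) :
    Tendsto (fun i => p i k) l (𝓝 (p0 k)) :=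
  tendsto_pi_nhds.1 hp k

theorem NS_P (A : Fam) [l.NeBot] (j : Fin 9) (hs : Tendsto s l (𝓝[>] 0))
    (hp : Tendsto p l (𝓝 (ofR (A.P j)))) (hQ : ∀ᶠ i in l, NSQ A (s i) (p i)) : False := by
  have hs0 := NS_s hs
  have h2 : ofR (A.P j) 2 = 1 := by simp [A.P2]
  have hinj : ∀ x : V, (ContinuousLinearMap.proj (R := ℂ) (φ := fun _ : Fin 3 => ℂ) 2) x = 0 →
      dvL A.φ (ofR (A.P j)) x = 0 → dvL A.ψ (ofR (A.P j)) x = 0 → x = 0 :=
    fun x h0 h1 h2 => A.inj_P j x h0 (by simpa using h1) (by simpa using h2)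
  obtain ⟨f, hf0, hf1, hf2⟩ := exists_dual _ _ _ hinj 0 1 0
  obtain ⟨g, hg0, hg1, hg2⟩ := exists_dual _ _ _ hinj 0 0 1
  simp only [ContinuousLinearMap.proj_apply, dvL_apply] at hf0 hf1 hf2 hg0 hg1 hg2
  have tφ : ∀ e : V, e 2 = 0 → Tendsto (fun i => dv (A.φt (s i)) (p i) e) l
      (𝓝 (dv A.φ (ofR (A.P j)) e)) := fun e he => by
    have := (((tendsto_eval hp A.φ).const_mul (e 2)).add
      ((NS_co hp 2).mul (tendsto_dv hp A.φ e))).add (hs0.mul (tendsto_dv hp A.W e))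
    simp only [he, h2, zero_mul, one_mul, zero_add, add_zero] at this
    refine this.congr fun i => ?_
    rw [NS_dvφt, he]; ring
  have tψ : ∀ e : V, e 2 = 0 → Tendsto (fun i => dv (A.ψt (s i)) (p i) e) l
      (𝓝 (dv A.ψ (ofR (A.P j)) e)) := fun e he => by
    have := (((tendsto_eval hp A.ψ).const_mul (e 2)).add
      ((NS_co hp 2).mul (tendsto_dv hp A.ψ e))).add (hs0.mul (tendsto_dv hp (cj A.W) e))
    simp only [he, h2, zero_mul, one_mul, zero_add, add_zero] at this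
    refine this.congr fun i => ?_
    rw [NS_dvψt, he]; ring
  have key : ∀ e : V, ∀ᶠ i in l,
      dv (A.ψt (s i)) (p i) e * (eval (p i) (A.φt (s i)) / (s i : ℂ) ^ 2) +
      dv (A.φt (s i)) (p i) e * (eval (p i) (A.ψt (s i)) / (s i : ℂ) ^ 2) =
        dv A.T (p i) e := fun e => by
    filter_upwards [hQ, NS_s_ne hs] with i hi hn
    have := NS_dvXF A hi e
    field_simp
    linear_combination this
  obtain ⟨a0, b0, ha, hb⟩ := tendsto_solve (tψ f hf0) (tφ f hf0) (tψ g hg0) (tφ g hg0)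
    (tendsto_dv hp A.T f) (tendsto_dv hp A.T g) (by rw [hf1, hf2, hg1, hg2]; norm_num)
    (key f) (key g)
  have h3 := ((hs0.pow 2).mul ha).mul hb
  have h4 : Tendsto (fun i => eval (p i) A.T) l (𝓝 (0 ^ 2 * a0 * b0)) := by
    refine h3.congr' ?_
    filter_upwards [hQ, NS_s_ne hs] with i hi hn
    have := A.mul_eval_F (s i) (p i)
    rw [hi.1] at this
    field_simp
    linear_combination -this
  have h5 := tendsto_nhds_unique h4 (tendsto_eval hp A.T)
  rw [A.T_P] at h5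
  have h6 : (A.η : ℂ) = 0 := by rw [← h5]; ring
  exact A.η_pos.ne' (by exact_mod_cast h6)

/-- the right hand side of the linear systems -/
theorem NS_rhs (A : Fam) {p0 : V} (hs : Tendsto s l (𝓝[>] 0)) (hp : Tendsto p l (𝓝 p0)) (e : V) :
    Tendsto (fun i => -dv A.G (p i) e -
      (s i : ℂ) * (e 2 * eval (p i) A.R + p i 2 * dv A.R (p i) e)) l
      (𝓝 (-dv A.G p0 e - 0 * (e 2 * eval p0 A.R + p0 2 * dv A.R p0 e))) :=
  (tendsto_dv hp A.G e).neg.sub ((NS_s hs).mul (((tendsto_eval hp A.R).const_mul (e 2)).add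
    ((NS_co hp 2).mul (tendsto_dv hp A.R e))))

/-- if `z φ / s` tends to zero then `G` vanishes in the limit -/
theorem NS_G (A : Fam) [l.NeBot] {p0 : V} (hs : Tendsto s l (𝓝[>] 0)) (hp : Tendsto p l (𝓝 p0))
    (hQ : ∀ᶠ i in l, NSQ A (s i) (p i))
    (h : Tendsto (fun i => p i 2 * eval (p i) A.φ / (s i : ℂ)) l (𝓝 0)) : eval p0 A.G = 0 := by
  have h3 := (h.mul (tendsto_eval hp A.ψ)).neg.sub
    ((NS_s hs).mul ((NS_co hp 2).mul (tendsto_eval hp A.R)))
  have h4 : Tendsto (fun i => eval (p i) A.G) l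
      (𝓝 (-(0 * eval p0 A.ψ) - 0 * (p0 2 * eval p0 A.R))) := by
    refine h3.congr' ?_
    filter_upwards [hQ, NS_s_ne hs] with i hi hn
    have := A.eval_F (s i) (p i)
    rw [hi.1] at this
    field_simp
    linear_combination this
  rw [← tendsto_nhds_unique h4 (tendsto_eval hp A.G)]
  ring

theorem NS_z (A : Fam) [l.NeBot] (j : Fin 3) (hs : Tendsto s l (𝓝[>] 0))
    (hp : Tendsto p l (𝓝 (zp (A.t j)))) (hQ : ∀ᶠ i in l, NSQ A (s i) (p i)) : False := by
  have hs0 := NS_s hs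
  obtain ⟨f, g, hf0, hf1, hg0, hg1⟩ := A.dual_z j
  have tα : ∀ e : V, Tendsto (fun i => dv A.φ (p i) e * eval (p i) A.ψ +
      eval (p i) A.φ * dv A.ψ (p i) e) l _ := fun e =>
    ((tendsto_dv hp A.φ e).mul (tendsto_eval hp A.ψ)).add
      ((tendsto_eval hp A.φ).mul (tendsto_dv hp A.ψ e))
  have tβ : ∀ e : V, Tendsto (fun i => e 2 * eval (p i) A.ψ) l _ := fun e =>
    (tendsto_eval hp A.ψ).const_mul (e 2)
  have key : ∀ e : V, ∀ᶠ i in l,
      (dv A.φ (p i) e * eval (p i) A.ψ + eval (p i) A.φ * dv A.ψ (p i) e) * (p i 2 / (s i : ℂ)) +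
      (e 2 * eval (p i) A.ψ) * (eval (p i) A.φ / (s i : ℂ)) =
      -dv A.G (p i) e - (s i : ℂ) * (e 2 * eval (p i) A.R + p i 2 * dv A.R (p i) e) := fun e => by
    filter_upwards [hQ, NS_s_ne hs] with i hi hn
    have := NS_dvF A (s i) (p i) e
    rw [hi.2] at this
    field_simp
    linear_combination -this
  obtain ⟨a0, b0, ha, -⟩ := tendsto_solve (tα f) (tβ f) (tα g) (tβ g)
    (NS_rhs A hs hp f) (NS_rhs A hs hp g)
    (by
      rw [hf0, hf1, hg0, hg1, A.φ_z j]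
      have := A.ψ_z j
      simpa using this)
    (key f) (key g)
  have h3 := ha.mul (tendsto_eval hp A.φ)
  rw [A.φ_z j, mul_zero] at h3
  have h4 := NS_G A hs hp hQ (h3.congr fun i => by ring)
  rw [A.eval_G, A.φ_z j, zero_mul, zero_add] at h4
  exact mul_ne_zero (A.ψ_z j) (A.Wz j) h4

theorem NS_evφ (A : Fam) (q : V) : eval q A.φ =
    eval q (lf (A.a 0)) * eval q (lf (A.a 1)) * eval q (lf (A.a 2)) +
      eval q (lf (A.a 0)) ^ 3 - eval q (lf (A.a 1)) ^ 3 := by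
  simp only [Data.φ, cub, map_sub, map_add, map_mul, map_pow]

theorem NS_dv0 (A : Fam) (q : V) : dv A.φ q (A.e 0) =
    eval q (lf (A.a 1)) * eval q (lf (A.a 2)) + 3 * eval q (lf (A.a 0)) ^ 2 := by
  simp only [Data.φ, cub, dv_sub, dv_add, dv_mul, dv_pow, dv_lf, A.dual, map_mul]
  simp

theorem NS_dv1 (A : Fam) (q : V) : dv A.φ q (A.e 1) =
    eval q (lf (A.a 0)) * eval q (lf (A.a 2)) - 3 * eval q (lf (A.a 1)) ^ 2 := by
  simp only [Data.φ, cub, dv_sub, dv_add, dv_mul, dv_pow, dv_lf, A.dual, map_mul]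
  simp

theorem NS_e (A : Fam) [l.NeBot] (hs : Tendsto s l (𝓝[>] 0))
    (hp : Tendsto p l (𝓝 (A.e 2))) (hQ : ∀ᶠ i in l, NSQ A (s i) (p i)) : False := by
  have hX : Tendsto (fun i => eval (p i) (lf (A.a 0))) l (𝓝 0) := by
    have := tendsto_eval hp (lf (A.a 0))
    rwa [A.dual, if_neg (by decide)] at this
  have hY : Tendsto (fun i => eval (p i) (lf (A.a 1))) l (𝓝 0) := by
    have := tendsto_eval hp (lf (A.a 1))
    rwa [A.dual, if_neg (by decide)] at this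
  have hZ : Tendsto (fun i => eval (p i) (lf (A.a 2))) l (𝓝 1) := by
    have := tendsto_eval hp (lf (A.a 2))
    rwa [A.dual, if_pos rfl] at this
  have hκ : ∀ e : V, Tendsto (fun i => e 2 * eval (p i) A.ψ + p i 2 * dv A.ψ (p i) e) l _ :=
    fun e => ((tendsto_eval hp A.ψ).const_mul (e 2)).add ((NS_co hp 2).mul (tendsto_dv hp A.ψ e))
  have hw := (NS_co hp 2).mul (tendsto_eval hp A.ψ)
  have hu := (hY.mul hZ).add (hX.pow 2)
  have hα := (hu.mul (hκ (A.e 0))).add ((hX.const_mul 3).mul hw)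
  have hβ := ((hY.pow 2).mul (hκ (A.e 0))).neg.add (hZ.mul hw)
  have hγ := (hu.mul (hκ (A.e 1))).add (hZ.mul hw)
  have hδ := ((hY.pow 2).mul (hκ (A.e 1))).neg.sub ((hY.const_mul 3).mul hw)
  obtain ⟨a0, b0, ha, hb⟩ := tendsto_solve (a := fun i => eval (p i) (lf (A.a 0)) / (s i : ℂ))
    (b := fun i => eval (p i) (lf (A.a 1)) / (s i : ℂ)) hα hβ hγ hδ
    (NS_rhs A hs hp (A.e 0)) (NS_rhs A hs hp (A.e 1))
    (by
      have := mul_ne_zero A.ze A.ψe
      simpa using this)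
    (by
      filter_upwards [hQ, NS_s_ne hs] with i hi hn
      have := NS_dvF A (s i) (p i) (A.e 0)
      rw [hi.2, NS_dv0, NS_evφ] at this
      field_simp
      linear_combination -this)
    (by
      filter_upwards [hQ, NS_s_ne hs] with i hi hn
      have := NS_dvF A (s i) (p i) (A.e 1)
      rw [hi.2, NS_dv1, NS_evφ] at this
      field_simp
      linear_combination -this)
  have h3 := (NS_co hp 2).mul ((ha.mul hu).sub (hb.mul (hY.pow 2)))
  have h4 := NS_G A hs hp hQ (by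
    convert h3 using 2
    · rw [NS_evφ]; ring
    · ring)
  rw [A.eval_G, A.φ_e, zero_mul, zero_add] at h4
  exact mul_ne_zero A.ψe A.We h4

theorem NS_resc {A : Fam} {p0 q : V} {c : ℂ} (h0 : p0 ≠ 0) (hc : p0 = c • q)
    (hp : Tendsto p l (𝓝 p0)) (hQ : ∀ᶠ i in l, NSQ A (s i) (p i)) :
    Tendsto (fun i => c⁻¹ • p i) l (𝓝 q) ∧ ∀ᶠ i in l, NSQ A (s i) (c⁻¹ • p i) := by
  have hc0 : c ≠ 0 := by rintro rfl; exact h0 (by simpa using hc)
  refine ⟨?_, hQ.mono fun i hi => hi.smul _⟩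
  have := hp.const_smul c⁻¹
  rwa [hc, smul_smul, inv_mul_cancel₀ hc0, one_smul] at this

theorem NS_lim (A : Fam) [l.NeBot] {p0 : V} (hs : Tendsto s l (𝓝[>] 0))
    (hp : Tendsto p l (𝓝 p0)) (hQ : ∀ᶠ i in l, NSQ A (s i) (p i)) (e : V) :
    e 2 * eval p0 A.φ * eval p0 A.ψ + p0 2 * dv A.φ p0 e * eval p0 A.ψ +
      p0 2 * eval p0 A.φ * dv A.ψ p0 e = 0 := by
  have h1 := ((((tendsto_eval hp A.φ).const_mul (e 2)).mul (tendsto_eval hp A.ψ)).add
    (((NS_co hp 2).mul (tendsto_dv hp A.φ e)).mul (tendsto_eval hp A.ψ))).add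
    (((NS_co hp 2).mul (tendsto_eval hp A.φ)).mul (tendsto_dv hp A.ψ e))
  have h2 := (NS_s hs).mul (NS_rhs A hs hp e)
  rw [zero_mul] at h2
  refine tendsto_nhds_unique h1 (h2.congr' ?_)
  filter_upwards [hQ] with i hi
  have := NS_dvF A (s i) (p i) e
  rw [hi.2] at this
  linear_combination this

theorem NS_phi (A : Fam) [l.NeBot] {p0 : V} (h0 : p0 ≠ 0) (hφ : eval p0 A.φ = 0)
    (hs : Tendsto s l (𝓝[>] 0)) (hp : Tendsto p l (𝓝 p0))
    (hQ : ∀ᶠ i in l, NSQ A (s i) (p i)) : False := by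
  by_cases hψ : eval p0 A.ψ = 0
  · obtain ⟨j, c, hc⟩ := A.common hφ hψ
    obtain ⟨h1, h2⟩ := NS_resc h0 hc hp hQ
    exact NS_P A j hs h1 h2
  by_cases hz : p0 2 = 0
  · obtain ⟨j, c, hc⟩ := A.onL hφ hz
    obtain ⟨h1, h2⟩ := NS_resc h0 hc hp hQ
    exact NS_z A j hs h1 h2
  obtain ⟨c, hc⟩ := A.sing_φ (p := p0) fun e => by
    have := NS_lim A hs hp hQ e
    rw [hφ] at this
    have h1 : p0 2 * dv A.φ p0 e * eval p0 A.ψ = 0 := by linear_combination this
    simpa [hz, hψ] using h1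
  obtain ⟨h1, h2⟩ := NS_resc h0 hc hp hQ
  exact NS_e A hs h1 h2

theorem NS_local (A : Fam) [l.NeBot] {p0 : V} (h0 : p0 ≠ 0)
    (hs : Tendsto s l (𝓝[>] 0)) (hp : Tendsto p l (𝓝 p0))
    (hQ : ∀ᶠ i in l, NSQ A (s i) (p i)) : False := by
  by_cases hφ : eval p0 A.φ = 0
  · exact NS_phi A h0 hφ hs hp hQ
  by_cases hψ : eval p0 A.ψ = 0
  · refine NS_phi A (p := fun i => star (p i)) (p0 := star p0) (star_ne_zero.2 h0) ?_ hs hp.star
      (hQ.mono fun i hi => hi.star)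
    rw [eval_star]
    exact (map_eq_zero _).2 hψ
  have h1 := NS_lim A hs hp hQ p0
  rw [euler A.φ_hom, euler A.ψ_hom] at h1
  have h2 : p0 2 * (eval p0 A.φ * eval p0 A.ψ) = 0 := by
    push_cast at h1
    linear_combination h1 / 7
  have hz : p0 2 = 0 := by simpa [hφ, hψ] using h2
  have h3 := NS_lim A hs hp hQ (Pi.single 2 1)
  simp [hz, hφ, hψ] at h3

end Local

theorem Fam.ns (A : Fam) : ∀ᶠ s in 𝓝[>] (0 : ℝ), NSg (A.F s) := by
  have := eventually_forall_of_local (NSQ A) (fun s p c _ h => h.smul c)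
    fun l _ p0 h0 hs hp hQ => NS_local A h0 hs hp hQ
  filter_upwards [this] with s hs p hp hF
  by_contra hn
  push Not at hn
  exact hs p hp ⟨hF, hn⟩

end Pool.Agent.MP_42957e_ag
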