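import Pool.Agent.MP_42957e_ag.NumA

set_option autoImplicit false

namespace Pool.Agent.MP_42957e_ag

open Polynomial
open scoped ComplexConjugate

theorem gi_le {x y : GI} (h : x.norm ≤ y.norm) : ‖(x : ℂ)‖ ≤ ‖(y : ℂ)‖ := by
  have : (x.norm : ℝ) ≤ y.norm := by exact_mod_cast h
  rw [GaussianInt.intCast_real_norm, GaussianInt.intCast_real_norm, Complex.normSq_eq_norm_sq,
    Complex.normSq_eq_norm_sq] at this
  exact (pow_le_pow_iff_left₀ (norm_nonneg _) (norm_nonneg _) two_ne_zero).1 this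

theorem gi_lt {x y : GI} (h : x.norm < y.norm) : ‖(x : ℂ)‖ < ‖(y : ℂ)‖ := by
  have : (x.norm : ℝ) < y.norm := by exact_mod_cast h
  rw [GaussianInt.intCast_real_norm, GaussianInt.intCast_real_norm, Complex.normSq_eq_norm_sq,
    Complex.normSq_eq_norm_sq] at this
  exact (pow_lt_pow_iff_left₀ (norm_nonneg _) (norm_nonneg _) two_ne_zero).1 this

theorem nS_eq : (nS : ℂ) = 10 ^ 120 := by
  simp only [nS, GaussianInt.toComplex_def']; push_cast; ring
theorem nT_eq : (nT : ℂ) = 10 ^ 12 := by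
  simp only [nT, GaussianInt.toComplex_def']; push_cast; ring
theorem norm_nS : ‖(nS : ℂ)‖ = 10 ^ 120 := by simp [nS_eq]
theorem nS_ne : (nS : ℂ) ≠ 0 := by simp [nS_eq]

theorem root_near {p : ℂ[X]} {n : ℕ} (hd : p.natDegree ≤ n) {c : ℂ} {ε : ℝ} (hε : 0 < ε)
    (h : ‖p.eval c‖ < ‖p.coeff n‖ * ε ^ n) : ∃ r, p.eval r = 0 ∧ ‖r - c‖ < ε := by
  have hL : p.coeff n ≠ 0 := fun h0 => by
    rw [h0, norm_zero, zero_mul] at h; exact (norm_nonneg _).not_gt h
  have hn : p.natDegree = n := natDegree_eq_of_le_of_coeff_ne_zero hd hL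
  have hp : p ≠ 0 := by rintro rfl; simp at hL
  by_contra hc
  push Not at hc
  have hs := IsAlgClosed.splits p
  have key : ∀ M : Multiset ℂ, (∀ r ∈ M, ε ≤ ‖r - c‖) →
      ε ^ M.card ≤ ‖(M.map (c - ·)).prod‖ := fun M => by
    induction M using Multiset.induction_on with
    | empty => simp
    | cons a M ih =>
      intro hM
      rw [Multiset.card_cons, Multiset.map_cons, Multiset.prod_cons, norm_mul, pow_succ',
        norm_sub_rev]
      exact mul_le_mul (hM a (by simp)) (ih fun r hr => hM r (by simp [hr])) (by positivity)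
        (norm_nonneg _)
  have := key p.roots fun r hr => hc r ((mem_roots hp).1 hr)
  rw [hs.eval_eq_prod_roots, norm_mul, leadingCoeff, hn] at h
  rw [← hs.natDegree_eq_card_roots, hn] at this
  exact (mul_le_mul_of_nonneg_left this (norm_nonneg _)).not_gt h

theorem factor_roots {p : ℂ[X]} {n : ℕ} (hd : p.natDegree ≤ n) (hL : p.coeff n ≠ 0)
    {θ : Fin n → ℂ} (hθ : Function.Injective θ) (h : ∀ j, p.eval (θ j) = 0) (τ : ℂ) :
    p.eval τ = p.coeff n * ∏ j, (τ - θ j) := by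
  have hn : p.natDegree = n := natDegree_eq_of_le_of_coeff_ne_zero hd hL
  have hp : p ≠ 0 := by rintro rfl; simp at hL
  have hr : p.roots = Finset.univ.val.map θ := by
    refine (Multiset.eq_of_le_of_card_le ?_ (by simpa [hn] using p.card_roots')).symm
    refine (Multiset.le_iff_subset (Finset.univ.nodup.map hθ)).2 fun r hr => ?_
    obtain ⟨j, -, rfl⟩ := Multiset.mem_map.1 hr
    exact (mem_roots hp).2 (h j)
  rw [(IsAlgClosed.splits p).eval_eq_prod_roots, leadingCoeff, hn, hr, Multiset.map_map]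
  rfl

/-- value of a cubic -/
noncomputable def cc (n : Fin 3 → GI) (τ : ℂ) : ℂ := τ * n 0 + τ ^ 2 * n 1 + (τ ^ 3 - 1) * n 2

noncomputable def pc (n : Fin 3 → GI) : ℂ[X] :=
  X * C (n 0 : ℂ) + X ^ 2 * C (n 1 : ℂ) + (X ^ 3 - 1) * C (n 2 : ℂ)

theorem eval_pc (n : Fin 3 → GI) (τ : ℂ) : (pc n).eval τ = cc n τ := by
  simp only [pc, cc, eval_add, eval_mul, eval_sub, eval_pow, eval_X, eval_C, eval_one]

theorem natDegree_pc (n : Fin 3 → GI) : (pc n).natDegree ≤ 3 := by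
  unfold pc; compute_degree

theorem coeff_pc (n : Fin 3 → GI) : (pc n).coeff 3 = n 2 := by
  simp [pc, coeff_X_pow, coeff_one]

theorem cc_div (n : Fin 3 → GI) (c : GI) : cc n (c / nS) = cu n c / (nS : ℂ) ^ 3 := by
  have := nS_ne
  simp only [cc, cu, map_add, map_mul, map_sub]
  field_simp

theorem cc_lip {n : Fin 3 → GI} (hn : ∀ k, ‖(n k : ℂ)‖ ≤ 1000) {τ c : ℂ} (hτ : ‖τ‖ ≤ 8)
    (hc : ‖c‖ ≤ 8) (h : ‖τ - c‖ ≤ 1 / 10 ^ 12) : ‖cc n τ - cc n c‖ ≤ 1 / 10 ^ 6 := by
  have e : cc n τ - cc n c =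
      (τ - c) * (n 0 + (τ + c) * n 1 + (τ * τ + τ * c + c * c) * n 2) := by
    unfold cc; ring
  have h1 : ‖τ + c‖ ≤ 16 := (norm_add_le _ _).trans (by linarith)
  have h2 : ‖τ * τ + τ * c + c * c‖ ≤ 192 := by
    refine (norm_add₃_le).trans ?_
    rw [norm_mul, norm_mul, norm_mul]
    nlinarith [norm_nonneg τ, norm_nonneg c]
  have h3 : ‖(n 0 : ℂ) + (τ + c) * n 1 + (τ * τ + τ * c + c * c) * n 2‖ ≤ 209000 := by
    refine (norm_add₃_le).trans ?_
    rw [norm_mul, norm_mul]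
    nlinarith [hn 0, mul_le_mul h1 (hn 1) (norm_nonneg _) (by norm_num),
      mul_le_mul h2 (hn 2) (norm_nonneg _) (by norm_num)]
  rw [e, norm_mul]
  exact (mul_le_mul h h3 (norm_nonneg _) (by norm_num)).trans (by norm_num)

theorem gchk_sound : ∀ (n : ℕ) (l : List GI) (x : GI), gchk n l x = true →
    ∀ M : Multiset GI, (∀ y ∈ M, y ∈ l) → M.card = n → gtest (x * M.prod) = true
  | 0, l, x, h, M, _, hc => by
    rw [Multiset.card_eq_zero.1 hc]; simpa [gchk] using h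
  | n + 1, l, x, h, M, hM, hc => by
    induction l with
    | nil =>
      obtain ⟨y, hy⟩ := Multiset.card_pos_iff_exists_mem.1 (by omega : 0 < M.card)
      simpa using hM y hy
    | cons y l ih =>
      simp only [gchk, gstep, Bool.and_eq_true] at h
      by_cases hy : y ∈ M
      · obtain ⟨M', rfl⟩ := Multiset.exists_cons_of_mem hy
        rw [Multiset.prod_cons, ← mul_assoc]
        exact gchk_sound n _ _ h.1 M' (fun z hz => hM z (by simp [hz])) (by simpa using hc)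
      · exact ih h.2 fun z hz => (List.mem_cons.1 (hM z hz)).resolve_left fun e => hy (e ▸ hz)

theorem approx_prod {l : List GI} {ε : ℝ} (hε : 0 ≤ ε) (S : Multiset ℂ)
    (h : ∀ r ∈ S, ∃ c ∈ l, ‖r * nS - c‖ ≤ ε * ‖(c : ℂ)‖) :
    ∃ M : Multiset GI, (∀ y ∈ M, y ∈ l) ∧ M.card = S.card ∧
      ‖S.prod * (nS : ℂ) ^ S.card - (M.prod : GI)‖ ≤ ((1 + ε) ^ S.card - 1) * ‖((M.prod : GI) : ℂ)‖ := by
  induction S using Multiset.induction_on with
  | empty => exact ⟨0, by simp, rfl, by simp⟩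
  | cons r S ih =>
    obtain ⟨M, h1, h2, h3⟩ := ih fun r hr => h r (by simp [hr])
    obtain ⟨c, hc, h4⟩ := h r (by simp)
    refine ⟨c ::ₘ M, fun y hy => (Multiset.mem_cons.1 hy).elim (fun e => e ▸ hc) (h1 y),
      by simp [h2], ?_⟩
    simp only [Multiset.prod_cons, Multiset.card_cons, map_mul, norm_mul]
    set a := S.prod * (nS : ℂ) ^ S.card
    set b := ((M.prod : GI) : ℂ)
    have e : r * S.prod * (nS : ℂ) ^ (S.card + 1) - c * b =
        (r * nS - c) * (a - b) + (r * nS - c) * b + c * (a - b) := by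
      simp only [a]; ring
    have h0 : 0 ≤ (1 + ε) ^ S.card - 1 := sub_nonneg.2 (one_le_pow₀ (by linarith))
    rw [e]
    refine norm_add₃_le.trans ?_
    rw [norm_mul, norm_mul, norm_mul, pow_succ]
    nlinarith [mul_le_mul h4 h3 (norm_nonneg _) (by positivity),
      mul_le_mul_of_nonneg_right h4 (norm_nonneg b), mul_le_mul_of_nonneg_left h3 (norm_nonneg (c : ℂ))]

theorem gen_aux {l : List GI} (hl : gchk 6 l 1 = true) {S : Multiset ℂ}
    (h : ∀ r ∈ S, ∃ c ∈ l, ‖r * nS - c‖ ≤ 1 / 10 ^ 6 * ‖(c : ℂ)‖) (hc : S.card = 6) :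
    S.prod ≠ 1 := fun hp => by
  obtain ⟨M, h1, h2, h3⟩ := approx_prod (by norm_num) S h
  have := gi_lt (of_decide_eq_true (gchk_sound 6 l 1 hl M h1 (h2.trans hc)))
  rw [hp, hc, one_mul, norm_sub_rev, nS_eq, ← pow_mul] at h3
  simp only [one_mul, map_mul, map_sub, norm_mul, GaussianInt.toComplex_def'] at this
  simp only [Int.cast_pow, Int.cast_ofNat, Int.cast_zero, zero_mul, add_zero,
    Complex.norm_ofNat] at this
  nlinarith [norm_nonneg ((M.prod : GI) : ℂ)]

end Pool.Agent.MP_42957e_ag
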